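import Pool.Agent.Helper60.OI.Trade
import Pool.Agent.Helper79.NZ.Main

/-!
`OIP_+^{[2]}` protocols and two-way NISZK protocols as two-way protocols with Merlin.
-/

set_option autoImplicit false

namespace Pool.Agent.Helper60.OI

open Finset Pool.Agent.Helper79.NZ

/-! ### one message from Alice -/

/-- the protocol tree in which Alice sends the `c` bits of the message `f` -/
def tree {A B O : Type} : (c : ℕ) → (A → (Fin c → Bool)) → ((Fin c → Bool) → B → O) → Proto A B O
  | 0, _, g => .out (g fun i => i.elim0)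
  | (c + 1), f, g => .alice (fun a => f a 0)
      (tree c (fun a i => f a i.succ) fun m => g (Fin.cons false m))
      (tree c (fun a i => f a i.succ) fun m => g (Fin.cons true m))

theorem tree_run {A B O : Type} : ∀ (c : ℕ) (f : A → (Fin c → Bool)) (g : (Fin c → Bool) → B → O)
    (a : A) (b : B), (tree c f g).run a b = g (f a) b := by
  intro c
  induction c with
  | zero =>
    intro f g a b
    rw [tree, Proto.run]
    congr 1
    exact Subsingleton.elim _ _
  | succ c ih =>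
    intro f g a b
    rw [tree, Proto.run]
    have h1 : ∀ u : Bool, f a 0 = u → Fin.cons u (fun i : Fin c => f a i.succ) = f a := by
      intro u hu
      rw [← hu]
      exact Fin.cons_self_tail (f a)
    split_ifs with h
    · rw [ih, h1 true h]
    · rw [ih, h1 false (by simpa using h)]

theorem tree_depth {A B O : Type} : ∀ (c : ℕ) (f : A → (Fin c → Bool))
    (g : (Fin c → Bool) → B → O), (tree c f g).depth = c := by
  intro c
  induction c with
  | zero =>
    intro f g
    rfl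
  | succ c ih =>
    intro f g
    rw [tree, Proto.depth, ih, ih, max_self]

theorem tree_aBits {A B O : Type} : ∀ (c : ℕ) (f : A → (Fin c → Bool))
    (g : (Fin c → Bool) → B → O), aBits (tree c f g) = c := by
  intro c
  induction c with
  | zero =>
    intro f g
    rfl
  | succ c ih =>
    intro f g
    rw [tree, aBits, ih, ih, max_self]

variable {X Y : Type} {n c b a k : ℕ}

/-- the protocol tree of an `OIP_+^{[2]}` protocol -/
def Oip.pt (N : Oip X Y c b a) :
    Proto (X × N.RA) (Y × N.RB) ((Fin b → Bool) × ((Fin a → Bool) → Bool)) :=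
  tree c (fun p => N.msg p.1 p.2) fun m p => (N.que p.1 p.2 m, fun w => N.dec p.1 p.2 m w)

/-- an `OIP_+^{[2]}` protocol as a two-way protocol -/
def Oip.toTip (N : Oip X Y c b a) : Tip X Y c c b a where
  RA := N.RA
  RB := N.RB
  fA := N.fA
  fB := N.fB
  μ := N.μ
  ν := N.ν
  μ_nonneg := N.μ_nonneg
  ν_nonneg := N.ν_nonneg
  μ_sum := N.μ_sum
  ν_sum := N.ν_sum
  P := N.pt
  depth_le := (tree_depth c _ _).le
  aBits_le := (tree_aBits c _ _).le

theorem toTip_acc (N : Oip X Y c b a) (x : X) (y : Y) (σ : (Fin b → Bool) → (Fin a → Bool)) :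
    N.toTip.acc x y σ = N.acc x y σ := by
  have h : N.toTip.acc x y σ = ∑ r : N.RA, ∑ s : N.RB,
      if (N.pt.run (x, r) (y, s)).2 (σ (N.pt.run (x, r) (y, s)).1) = true then
        N.μ r * N.ν s else 0 := rfl
  rw [h, Oip.acc]
  refine sum_congr rfl fun r _ => sum_congr rfl fun s _ => ?_
  rw [Oip.pt, tree_run]

theorem toTip_pq (N : Oip X Y c b a) (x : X) (y : Y) (q : Fin b → Bool) :
    N.toTip.pq x y q = N.pq x y q := by
  have h : N.toTip.pq x y q = ∑ r : N.RA, ∑ s : N.RB,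
      if (N.pt.run (x, r) (y, s)).1 = q then N.μ r * N.ν s else 0 := rfl
  rw [h, Oip.pq]
  refine sum_congr rfl fun r _ => sum_congr rfl fun s _ => ?_
  rw [Oip.pt, tree_run]

theorem toTip_solves {N : Oip X Y c b a} {f : X → Y → Bool} (h : N.Solves f) :
    N.toTip.Solves (2 / 3) (1 / 3) f := by
  intro x y
  refine ⟨fun hf => ?_, fun hf σ => ?_⟩
  · obtain ⟨σ, hσ⟩ := (h x y).1 hf
    exact ⟨σ, by rw [toTip_acc]; exact hσ⟩
  · rw [toTip_acc]
    exact (h x y).2 hf σ

theorem toTip_leak {N : Oip X Y c b a} {f : X → Y → Bool} {L : ℝ} (h : Leak N.pq f L) :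
    Leak N.toTip.pq f L := by
  have : N.toTip.pq = N.pq := by
    funext x y q
    exact toTip_pq N x y q
  rw [this]
  exact h

/-! ### NISZK -/

/-- change of the input of Bob and of the output -/
def mapP {A B B' O O' : Type} (φ : B' → B) (ψ : B' → O → O') : Proto A B O → Proto A B' O'
  | .out g => .out fun b => ψ b (g (φ b))
  | .alice f p q => .alice f (mapP φ ψ p) (mapP φ ψ q)
  | .bob f p q => .bob (fun b => f (φ b)) (mapP φ ψ p) (mapP φ ψ q)

theorem mapP_run {A B B' O O' : Type} (φ : B' → B) (ψ : B' → O → O') (P : Proto A B O) (a : A)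
    (b : B') : (mapP φ ψ P).run a b = ψ b (P.run a (φ b)) := by
  induction P with
  | out g => rfl
  | alice f p q ihp ihq =>
    rw [mapP, Proto.run, Proto.run, ihp, ihq]
    split_ifs <;> rfl
  | bob f p q ihp ihq =>
    rw [mapP, Proto.run, Proto.run, ihp, ihq]
    split_ifs <;> rfl

theorem mapP_depth {A B B' O O' : Type} (φ : B' → B) (ψ : B' → O → O') (P : Proto A B O) :
    (mapP φ ψ P).depth = P.depth := by
  induction P with
  | out g => rfl
  | alice f p q ihp ihq => rw [mapP, Proto.depth, Proto.depth, ihp, ihq]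
  | bob f p q ihp ihq => rw [mapP, Proto.depth, Proto.depth, ihp, ihq]

theorem mapP_aBits {A B B' O O' : Type} (φ : B' → B) (ψ : B' → O → O') (P : Proto A B O) :
    aBits (mapP φ ψ P) = aBits P := by
  induction P with
  | out g => rfl
  | alice f p q ihp ihq => rw [mapP, aBits, aBits, ihp, ihq]
  | bob f p q ihp ihq => rw [mapP, aBits, aBits, ihp, ihq]

/-- the protocol tree: Bob sends Merlin the output or a uniform string -/
def pt' (N : Prot X Y k) : Proto (X × N.RA) (Y × (N.RB × Bool × (Fin k → Bool)))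
    ((Fin k → Bool) × ((Fin 1 → Bool) → Bool)) :=
  mapP (fun p => (p.1, p.2.1))
    (fun p z => (if p.2.2.1 = true then z else p.2.2.2, fun w => w 0 == p.2.2.1)) N.P

theorem pt'_run (N : Prot X Y k) (x : X) (r : N.RA) (y : Y) (s : N.RB × Bool × (Fin k → Bool)) :
    (pt' N).run (x, r) (y, s) = (if s.2.1 = true then N.P.run (x, r) (y, s.1) else s.2.2,
      fun w => w 0 == s.2.1) := by
  rw [pt', mapP_run]

/-- Bob sends Merlin the output or a uniform string and asks which one it is -/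
noncomputable def toTip' (N : Prot X Y k) : Tip X Y N.P.depth (aBits N.P) k 1 where
  RA := N.RA
  RB := N.RB × Bool × (Fin k → Bool)
  fA := N.fA
  fB := inferInstance
  μ := N.μ
  ν := fun s => N.ν s.1 * (1 / 2 * (1 / 2 ^ k))
  μ_nonneg := N.μ_nonneg
  ν_nonneg := fun s => mul_nonneg (N.ν_nonneg s.1) (by positivity)
  μ_sum := N.μ_sum
  ν_sum := by
    rw [Fintype.sum_prod_type]
    simp only [sum_const, card_univ, nsmul_eq_mul]
    have h1 : (Fintype.card (Bool × (Fin k → Bool)) : ℝ) = 2 * 2 ^ k := by simp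
    rw [h1]
    have h2 : ∀ s, 2 * 2 ^ k * (N.ν s * (1 / 2 * (1 / 2 ^ k))) = N.ν s := by
      intro s
      field_simp
    simp only [h2]
    exact N.ν_sum
  P := pt' N
  depth_le := (mapP_depth _ _ _).le
  aBits_le := (mapP_aBits _ _ _).le

theorem toTip'_gen (N : Prot X Y k) (x : X) (y : Y)
    (Φ : (Fin k → Bool) → Bool → ℝ) :
    (∑ r, ∑ s : N.RB × Bool × (Fin k → Bool), N.μ r * (N.ν s.1 * (1 / 2 * (1 / 2 ^ k))) *
      Φ (if s.2.1 = true then N.P.run (x, r) (y, s.1) else s.2.2) s.2.1) =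
      1 / 2 * ∑ z, N.pr x y z * Φ z true + 1 / 2 * ∑ z, 1 / 2 ^ k * Φ z false := by
  have h1 : ∀ r, (∑ s : N.RB × Bool × (Fin k → Bool), N.μ r *
      (N.ν s.1 * (1 / 2 * (1 / 2 ^ k))) *
      Φ (if s.2.1 = true then N.P.run (x, r) (y, s.1) else s.2.2) s.2.1) =
      ∑ s, N.μ r * N.ν s * (1 / 2 * Φ (N.P.run (x, r) (y, s)) true +
        1 / 2 * ∑ z, 1 / 2 ^ k * Φ z false) := by
    intro r
    rw [Fintype.sum_prod_type]
    refine sum_congr rfl fun s _ => ?_
    rw [Fintype.sum_prod_type, Fintype.sum_bool]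
    simp only [if_true, Bool.false_eq_true, if_false]
    rw [sum_const, card_univ, nsmul_eq_mul, card_fn]
    have h2 : ∀ z : Fin k → Bool, N.μ r * (N.ν s * (1 / 2 * (1 / 2 ^ k))) * Φ z false =
        N.μ r * N.ν s * (1 / 2) * (1 / 2 ^ k * Φ z false) := fun z => by ring
    simp only [h2]
    rw [← mul_sum]
    field_simp
  simp only [h1]
  have h3 : ∀ r, (∑ s, N.μ r * N.ν s * (1 / 2 * Φ (N.P.run (x, r) (y, s)) true +
        1 / 2 * ∑ z, 1 / 2 ^ k * Φ z false)) =
      1 / 2 * (∑ s, N.μ r * N.ν s * Φ (N.P.run (x, r) (y, s)) true) +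
        N.μ r * (1 / 2 * ∑ z, 1 / 2 ^ k * Φ z false) := by
    intro r
    have h4 : ∀ s, N.μ r * N.ν s * (1 / 2 * Φ (N.P.run (x, r) (y, s)) true +
        1 / 2 * ∑ z, 1 / 2 ^ k * Φ z false) =
        1 / 2 * (N.μ r * N.ν s * Φ (N.P.run (x, r) (y, s)) true) +
        N.ν s * (N.μ r * (1 / 2 * ∑ z, 1 / 2 ^ k * Φ z false)) := fun s => by ring
    simp only [h4]
    rw [sum_add_distrib, ← mul_sum, ← sum_mul, N.ν_sum, one_mul]
  simp only [h3]
  rw [sum_add_distrib, ← mul_sum, ← sum_mul, N.μ_sum, one_mul]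
  congr 2
  have h5 : ∀ z, N.pr x y z * Φ z true = ∑ r, ∑ s, if N.P.run (x, r) (y, s) = z then
      N.μ r * N.ν s * Φ z true else 0 := by
    intro z
    rw [Prot.pr, sum_mul]
    refine sum_congr rfl fun r _ => ?_
    rw [sum_mul]
    refine sum_congr rfl fun s _ => ?_
    split_ifs
    · rfl
    · rw [zero_mul]
  simp only [h5]
  symm
  rw [sum_comm]
  refine sum_congr rfl fun r _ => ?_
  rw [sum_comm]
  refine sum_congr rfl fun s _ => ?_
  rw [sum_ite_eq]
  simp

theorem toTip'_acc (N : Prot X Y k) (x : X) (y : Y) (σ : (Fin k → Bool) → (Fin 1 → Bool)) :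
    (toTip' N).acc x y σ =
      1 / 2 + 1 / 2 * ∑ z, (if σ z 0 = true then N.pr x y z - 1 / 2 ^ k else 0) := by
  have h1 := toTip'_gen N x y (fun z u => if (σ z 0 == u) = true then 1 else 0)
  have h2 : (toTip' N).acc x y σ = ∑ r, ∑ s : N.RB × Bool × (Fin k → Bool), N.μ r *
      (N.ν s.1 * (1 / 2 * (1 / 2 ^ k))) * (if (σ (if s.2.1 = true then N.P.run (x, r) (y, s.1)
        else s.2.2) 0 == s.2.1) = true then (1 : ℝ) else 0) := by
    have h0 : (toTip' N).acc x y σ = ∑ r : N.RA, ∑ s : N.RB × Bool × (Fin k → Bool),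
        if ((pt' N).run (x, r) (y, s)).2 (σ ((pt' N).run (x, r) (y, s)).1) = true then
          N.μ r * (N.ν s.1 * (1 / 2 * (1 / 2 ^ k))) else 0 := rfl
    rw [h0]
    refine sum_congr rfl fun r _ => sum_congr rfl fun s _ => ?_
    rw [pt'_run, mul_ite, mul_one, mul_zero]
  rw [h2, h1]
  have h6 : ∀ z : Fin k → Bool, (1 : ℝ) / 2 ^ k * (if (σ z 0 == false) = true then 1 else 0) =
      1 / 2 ^ k - (if σ z 0 = true then 1 / 2 ^ k else 0) := by
    intro z
    cases σ z 0 <;> simp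
  have h7 : ∀ z : Fin k → Bool, N.pr x y z * (if (σ z 0 == true) = true then 1 else 0) =
      if σ z 0 = true then N.pr x y z else 0 := by
    intro z
    cases σ z 0 <;> simp
  simp only [h6, h7]
  rw [sum_sub_distrib, sum_const, card_univ, nsmul_eq_mul, card_fn]
  have h8 : ∀ z : Fin k → Bool, (if σ z 0 = true then N.pr x y z - 1 / 2 ^ k else 0) =
      (if σ z 0 = true then N.pr x y z else 0) - (if σ z 0 = true then 1 / 2 ^ k else 0) := by
    intro z
    split_ifs <;> ring
  simp only [h8]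
  rw [sum_sub_distrib]
  have h9 : (2 : ℝ) ^ k * (1 / 2 ^ k) = 1 := by field_simp
  rw [h9]
  ring

theorem dist_pos_part (N : Prot X Y k) (x : X) (y : Y) :
    N.dist x y = ∑ z, max (N.pr x y z - 1 / 2 ^ k) 0 := by
  have h1 : ∑ z, (N.pr x y z - 1 / 2 ^ k) = 0 := by
    rw [sum_sub_distrib, pr_sum, sum_const, card_univ, nsmul_eq_mul, card_fn]
    field_simp
    ring
  have h2 : ∀ z, |N.pr x y z - 1 / 2 ^ k| =
      2 * max (N.pr x y z - 1 / 2 ^ k) 0 - (N.pr x y z - 1 / 2 ^ k) := by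
    intro z
    rcases le_total (N.pr x y z - 1 / 2 ^ k) 0 with h | h
    · rw [max_eq_right h, abs_of_nonpos h]
      ring
    · rw [max_eq_left h, abs_of_nonneg h]
      ring
  rw [Prot.dist]
  simp only [h2]
  rw [sum_sub_distrib, h1, ← mul_sum]
  ring

theorem toTip'_solves {N : Prot X Y k} {f : X → Y → Bool} (h : N.Solves (1 / 3) f) :
    (toTip' N).Solves (5 / 6) (2 / 3) (fun x y => !f x y) := by
  intro x y
  refine ⟨fun hf => ?_, fun hf σ => ?_⟩
  · have hf' : f x y = false := by simpa using hf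
    have h1 := (h x y).2 hf'
    refine ⟨fun z _ => decide (0 ≤ N.pr x y z - 1 / 2 ^ k), ?_⟩
    rw [toTip'_acc]
    have h2 : ∀ z, (if (decide (0 ≤ N.pr x y z - 1 / 2 ^ k)) = true then
        N.pr x y z - 1 / 2 ^ k else 0) = max (N.pr x y z - 1 / 2 ^ k) 0 := by
      intro z
      by_cases h3 : 0 ≤ N.pr x y z - 1 / 2 ^ k
      · rw [if_pos (by simpa using h3), max_eq_left h3]
      · rw [if_neg (by simpa using h3), max_eq_right (by linarith)]
    simp only [h2]
    rw [← dist_pos_part]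
    linarith
  · have hf' : f x y = true := by simpa using hf
    have h1 := (h x y).1 hf'
    rw [toTip'_acc]
    have h2 : ∑ z, (if σ z 0 = true then N.pr x y z - 1 / 2 ^ k else 0) ≤ N.dist x y := by
      rw [dist_pos_part]
      refine sum_le_sum fun z _ => ?_
      split_ifs
      exacts [le_max_left _ _, le_max_right _ _]
    linarith

theorem toTip'_pq (N : Prot X Y k) (x : X) (y : Y) (q : Fin k → Bool) :
    (toTip' N).pq x y q = 1 / 2 * N.pr x y q + 1 / 2 * (1 / 2 ^ k) := by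
  have h1 := toTip'_gen N x y (fun z _ => if z = q then 1 else 0)
  have h2 : (toTip' N).pq x y q = ∑ r, ∑ s : N.RB × Bool × (Fin k → Bool), N.μ r *
      (N.ν s.1 * (1 / 2 * (1 / 2 ^ k))) * (if (if s.2.1 = true then N.P.run (x, r) (y, s.1)
        else s.2.2) = q then (1 : ℝ) else 0) := by
    have h0 : (toTip' N).pq x y q = ∑ r : N.RA, ∑ s : N.RB × Bool × (Fin k → Bool),
        if ((pt' N).run (x, r) (y, s)).1 = q then
          N.μ r * (N.ν s.1 * (1 / 2 * (1 / 2 ^ k))) else 0 := rfl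
    rw [h0]
    refine sum_congr rfl fun r _ => sum_congr rfl fun s _ => ?_
    rw [pt'_run, mul_ite, mul_one, mul_zero]
  rw [h2, h1]
  simp

theorem toTip'_leak {N : Prot X Y k} {f : X → Y → Bool} {L : ℝ} (hL : 1 ≤ L)
    (h : Leak N.pr (fun x y => !f x y) L) : Leak (toTip' N).pq (fun x y => !f x y) L := by
  have key : ∀ (π : (Fin k → Bool) → ℝ), (∀ q, 0 ≤ π q) → ∑ q, π q = 1 →
      (∀ q, 0 ≤ 1 / 2 * π q + 1 / 2 * (1 / 2 ^ k)) ∧
      ∑ q, (1 / 2 * π q + 1 / 2 * (1 / 2 ^ k)) = 1 := by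
    intro π h0 h1
    refine ⟨fun q => add_nonneg (mul_nonneg (by norm_num) (h0 q)) (by positivity), ?_⟩
    rw [sum_add_distrib, ← mul_sum, h1, sum_const, card_univ, nsmul_eq_mul, card_fn]
    field_simp
    norm_num
  have key2 : ∀ (p π : ℝ), p ≤ L * π → 1 / 2 * p + 1 / 2 * (1 / 2 ^ k) ≤
      L * (1 / 2 * π + 1 / 2 * (1 / 2 ^ k)) := by
    intro p π hp
    have h2 : (0 : ℝ) ≤ 1 / 2 * (1 / 2 ^ k) := by positivity
    have h3 : 1 / 2 * (1 / 2 ^ k) ≤ L * (1 / 2 * (1 / 2 ^ k)) := le_mul_of_one_le_left h2 hL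
    linarith
  rcases h with h | h
  · left
    intro y
    obtain ⟨π, hπ0, hπ1, hπ⟩ := h y
    refine ⟨fun q => 1 / 2 * π q + 1 / 2 * (1 / 2 ^ k), (key π hπ0 hπ1).1, (key π hπ0 hπ1).2,
      fun x hx q => ?_⟩
    rw [toTip'_pq]
    exact key2 _ _ (hπ x hx q)
  · right
    intro x
    obtain ⟨π, hπ0, hπ1, hπ⟩ := h x
    refine ⟨fun q => 1 / 2 * π q + 1 / 2 * (1 / 2 ^ k), (key π hπ0 hπ1).1, (key π hπ0 hπ1).2,
      fun y hy q => ?_⟩
    rw [toTip'_pq]
    exact key2 _ _ (hπ y hy q)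

end Pool.Agent.Helper60.OI
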