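import Pool.Agent.Helper79.NZ.Cor

/-!
A polynomial `w` of degree about `√L` with `t * w t` between `0` and `1 + ε` on `[0, 1]`, and at
least `1 - ε` on `[t0, ∞)`; multiplication operators on functions of small correlation with the
inner product.
-/

set_option autoImplicit false

namespace Pool.Agent.Helper60.OI

open Finset Pool.Agent.Helper79.NZ

/-- multiplication by `θ` enlarges the correlation with the inner product by at most `B` -/
def Op (n : ℕ) (B : ℝ) (θ : V n → V n → ℝ) : Prop :=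
  ∀ (K : ℝ) (F : V n → V n → ℝ), 0 ≤ K → Cor n K F → Cor n (B * K) (fun x y => θ x y * F x y)

variable {n : ℕ} {B C : ℝ} {θ ψ : V n → V n → ℝ}

theorem Op.mono (h : Op n B θ) (hBC : B ≤ C) : Op n C θ := fun _ _ hK hF =>
  (h _ _ hK hF).mono (mul_le_mul_of_nonneg_right hBC hK)

theorem Op.congr (h : Op n B θ) (e : ∀ x y, ψ x y = θ x y) : Op n B ψ := fun _ _ hK hF =>
  (h _ _ hK hF).congr fun x y => by rw [e]

theorem op_const (c : ℝ) : Op n |c| (fun _ _ => c) := fun K F _ hF => hF.smul c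

theorem Op.add (h : Op n B θ) (h' : Op n C ψ) : Op n (B + C) (fun x y => θ x y + ψ x y) := by
  intro K F hK hF
  refine (((h K F hK hF).add (h' K F hK hF)).congr fun x y => by ring).mono (le_of_eq (by ring))

theorem Op.mul (h : Op n B θ) (h' : Op n C ψ) (hC : 0 ≤ C) :
    Op n (B * C) (fun x y => θ x y * ψ x y) := by
  intro K F hK hF
  refine ((h _ _ (mul_nonneg hC hK) (h' K F hK hF)).congr fun x y => by ring).mono
    (le_of_eq (by ring))

theorem Op.pow (h : Op n B θ) (hB : 0 ≤ B) (k : ℕ) : Op n (B ^ k) (fun x y => θ x y ^ k) := by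
  induction k with
  | zero =>
    have := op_const (n := n) 1
    rw [abs_one] at this
    simpa using this
  | succ k ih =>
    refine ((ih.mul h hB).congr fun x y => ?_).mono (le_of_eq ?_) <;> rw [pow_succ]

theorem Op.smul (h : Op n B θ) (c : ℝ) (hB : 0 ≤ B) : Op n (|c| * B) (fun x y => c * θ x y) :=
  (op_const c).mul h hB

theorem Op.sum {ι : Type} (s : Finset ι) {B : ι → ℝ} {θ : ι → V n → V n → ℝ}
    (h : ∀ i, Op n (B i) (θ i)) : Op n (∑ i ∈ s, B i) (fun x y => ∑ i ∈ s, θ i x y) := by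
  classical
  induction s using Finset.induction_on with
  | empty =>
    have := op_const (n := n) 0
    simpa using this
  | insert i s hi ih =>
    refine (((h i).add ih).congr fun x y => ?_).mono (le_of_eq ?_)
    · rw [sum_insert hi]
    · rw [sum_insert hi]

/-- multiplication by a bounded product function -/
theorem op_rank {u v : V n → ℝ} {b : ℝ} (hb : 0 < b) (hu : ∀ x, |u x| ≤ 1) (hv : ∀ y, |v y| ≤ b) :
    Op n b (fun x y => u x * v y) := by
  intro K F _ hF
  have h1 := (hF.rank hu (v := fun y => v y / b) (fun y => by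
    rw [abs_div, abs_of_pos hb, div_le_one hb]
    exact hv y)).smul b
  refine (h1.congr fun x y => ?_).mono (le_of_eq ?_)
  · field_simp
  · rw [abs_of_pos hb]

/-! ### the polynomial -/

/-- difference quotients at `0` of `θ ↦ tc m (A θ - X)` -/
noncomputable def dq (A X : ℝ) : ℕ → ℝ → ℝ
  | 0, _ => 0
  | 1, _ => A
  | (m + 2), t => 2 * (A * t - X) * dq A X (m + 1) t + 2 * A * tc (m + 1) (-X) - dq A X m t

theorem dq_spec_aux (A X t : ℝ) : ∀ m : ℕ, t * dq A X m t = tc m (A * t - X) - tc m (-X) ∧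
    t * dq A X (m + 1) t = tc (m + 1) (A * t - X) - tc (m + 1) (-X) := by
  intro m
  induction m with
  | zero =>
    constructor
    · rw [dq, tc_zero, tc_zero]
      ring
    · rw [zero_add, dq, tc_one, tc_one]
      ring
  | succ m ih =>
    refine ⟨ih.2, ?_⟩
    rw [dq, tc_step, tc_step]
    have h1 := ih.1
    have h2 := ih.2
    linear_combination 2 * (A * t - X) * h2 - h1

theorem dq_spec (A X t : ℝ) (m : ℕ) : t * dq A X m t = tc m (A * t - X) - tc m (-X) :=
  (dq_spec_aux A X t m).1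

/-- the polynomial `v` with `v 0 = 1` -/
noncomputable def vp (A X : ℝ) (m : ℕ) (t : ℝ) : ℝ := -(tc m (A * t - X)) / tc m X

/-- the polynomial `w` with `t * w t = 1 - (v t) ^ j` -/
noncomputable def wp (A X : ℝ) (m j : ℕ) (t : ℝ) : ℝ :=
  dq A X m t / tc m X * ∑ i ∈ range j, vp A X m t ^ i

theorem tc_odd {m : ℕ} (hm : Odd m) (u : ℝ) : tc m (-u) = -tc m u := by
  rw [(tc_neg_aux u m).1, hm.neg_one_pow]
  ring

theorem wp_spec {A X : ℝ} {m : ℕ} (hm : Odd m) (hX : tc m X ≠ 0) (j : ℕ) (t : ℝ) :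
    t * wp A X m j t = 1 - vp A X m t ^ j := by
  have h1 : t * (dq A X m t / tc m X) = 1 - vp A X m t := by
    rw [vp]
    have := dq_spec A X t m
    rw [tc_odd hm] at this
    rw [mul_div_assoc', this, sub_neg_eq_add, add_div, div_self hX]
    ring
  have h2 := mul_neg_geom_sum (vp A X m t) j
  rw [wp, ← mul_assoc, h1]
  exact h2

section bounds

variable {t0 : ℝ} {m j : ℕ}

/-- the coefficients of the affine map `[t0, 1] → [-1, 1]` -/
noncomputable def cA (t0 : ℝ) : ℝ := 2 / (1 - t0)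

noncomputable def cX (t0 : ℝ) : ℝ := (1 + t0) / (1 - t0)

theorem cX_ge (h0 : 0 < t0) (h1 : t0 < 1) : 2 * t0 ≤ cX t0 - 1 := by
  have h : 0 < 1 - t0 := by linarith
  rw [cX, div_sub_one h.ne', le_div_iff₀ h]
  nlinarith

theorem tcX_ge (h0 : 0 < t0) (h1 : t0 < 1) (hm : 1 / (2 * t0) ≤ (m : ℝ) ^ 2) :
    2 ≤ tc m (cX t0) := by
  have h2 := cX_ge h0 h1
  have h3 := (tc_low (y := cX t0 - 1) (by linarith) m).1
  have h4 : 1 + (cX t0 - 1) = cX t0 := by ring
  rw [h4] at h3
  have h5 : 0 ≤ (m : ℝ) ^ 2 * ((m : ℝ) ^ 2 - 1) := by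
    rcases Nat.eq_zero_or_pos m with h0 | h0
    · subst h0; simp
    · have : (1 : ℝ) ≤ m := by exact_mod_cast h0
      have h2 : (0 : ℝ) ≤ (m : ℝ) ^ 2 - 1 := by nlinarith
      positivity
  have h6 : 0 ≤ (m : ℝ) ^ 2 * ((m : ℝ) ^ 2 - 1) / 6 * (cX t0 - 1) ^ 2 := by positivity
  have h7 : 1 ≤ (m : ℝ) ^ 2 * (cX t0 - 1) := by
    rw [div_le_iff₀ (by positivity)] at hm
    have := mul_le_mul_of_nonneg_left h2 (sq_nonneg (m : ℝ))
    linarith
  linarith

theorem aff_eq (h1 : t0 < 1) (t : ℝ) :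
    cA t0 * t - cX t0 = (2 * t - (1 + t0)) / (1 - t0) := by
  have h : 1 - t0 ≠ 0 := by linarith
  rw [cA, cX]
  field_simp

/-- near `0` -/
theorem vp_left (h0 : 0 < t0) (h1 : t0 < 1) (hm : Odd m) (hT : 2 ≤ tc m (cX t0)) {t : ℝ}
    (ht0 : 0 ≤ t) (ht : t ≤ t0) : 0 ≤ vp (cA t0) (cX t0) m t ∧ vp (cA t0) (cX t0) m t ≤ 1 := by
  have h : 0 < 1 - t0 := by linarith
  have e1 : cA t0 * t - cX t0 = -(1 + ((1 + t0 - 2 * t) / (1 - t0) - 1)) := by
    rw [aff_eq h1]
    ring
  have hy : 0 ≤ (1 + t0 - 2 * t) / (1 - t0) - 1 := by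
    rw [div_sub_one h.ne']
    exact div_nonneg (by linarith) h.le
  have hz : (1 + t0 - 2 * t) / (1 - t0) - 1 ≤ cX t0 - 1 := by
    rw [cX]
    have : (1 + t0 - 2 * t) / (1 - t0) ≤ (1 + t0) / (1 - t0) :=
      div_le_div_of_nonneg_right (by linarith) h.le
    linarith
  have h2 := tc_mono hy hz m
  have h3 : 1 + (cX t0 - 1) = cX t0 := by ring
  rw [h3] at h2
  have h4 := tc_one_le hy m
  rw [vp, e1, tc_odd hm, neg_neg]
  constructor
  · exact div_nonneg (by linarith) (by linarith)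
  · rw [div_le_one (by linarith)]
    exact h2

/-- in the middle -/
theorem vp_mid (h0 : 0 < t0) (h1 : t0 < 1) (hT : 2 ≤ tc m (cX t0)) {t : ℝ}
    (ht0 : t0 ≤ t) (ht : t ≤ 1) : |vp (cA t0) (cX t0) m t| ≤ 1 / 2 := by
  have h : 0 < 1 - t0 := by linarith
  have e1 := aff_eq h1 t
  have h2 : |tc m (cA t0 * t - cX t0)| ≤ 1 := by
    rw [e1]
    apply tc_abs_le
    · rw [le_div_iff₀ h]
      linarith
    · rw [div_le_one h]
      linarith
  rw [vp, abs_div, abs_neg, abs_of_pos (by linarith : 0 < tc m (cX t0))]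
  rw [div_le_div_iff₀ (by linarith) (by norm_num)]
  linarith

/-- beyond `1` -/
theorem vp_right (h0 : 0 < t0) (h1 : t0 < 1) (hT : 2 ≤ tc m (cX t0)) {t : ℝ}
    (ht : 1 ≤ t) : vp (cA t0) (cX t0) m t ≤ 0 := by
  have h : 0 < 1 - t0 := by linarith
  have e1 : cA t0 * t - cX t0 = 1 + ((2 * t - (1 + t0)) / (1 - t0) - 1) := by
    rw [aff_eq h1]
    ring
  have hy : 0 ≤ (2 * t - (1 + t0)) / (1 - t0) - 1 := by
    rw [div_sub_one h.ne']
    exact div_nonneg (by linarith) h.le
  have h4 := tc_one_le hy m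
  rw [vp, e1]
  exact div_nonpos_of_nonpos_of_nonneg (by linarith) (by linarith)

/-- the properties of `t * w t` -/
theorem wp_props (h0 : 0 < t0) (h1 : t0 < 1) (hm : Odd m) (hj : Odd j)
    (hT : 2 ≤ tc m (cX t0)) {t : ℝ} (ht : 0 ≤ t) :
    0 ≤ t * wp (cA t0) (cX t0) m j t ∧
    (t ≤ 1 → t * wp (cA t0) (cX t0) m j t ≤ 1 + (1 / 2) ^ j) ∧
    (t0 ≤ t → 1 - (1 / 2) ^ j ≤ t * wp (cA t0) (cX t0) m j t) := by
  rw [wp_spec hm (by linarith) j t]
  have hp : (0 : ℝ) < (1 / 2) ^ j := by positivity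
  have hp1 : ((1 : ℝ) / 2) ^ j ≤ 1 := pow_le_one₀ (by norm_num) (by norm_num)
  rcases le_total t t0 with h | h
  · obtain ⟨ha, hb⟩ := vp_left h0 h1 hm hT ht h
    have h2 : vp (cA t0) (cX t0) m t ^ j ≤ 1 := pow_le_one₀ ha hb
    have h3 : 0 ≤ vp (cA t0) (cX t0) m t ^ j := pow_nonneg ha j
    refine ⟨by linarith, fun _ => by linarith, fun h' => ?_⟩
    have h4 := vp_mid (m := m) h0 h1 hT h' (h.trans h1.le)
    rw [abs_of_nonneg ha] at h4
    have h5 : vp (cA t0) (cX t0) m t ^ j ≤ (1 / 2) ^ j := pow_le_pow_left₀ ha h4 j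
    linarith
  · rcases le_total t 1 with h' | h'
    · have h4 := vp_mid (m := m) h0 h1 hT h h'
      have h5 : |vp (cA t0) (cX t0) m t ^ j| ≤ (1 / 2) ^ j := by
        rw [abs_pow]
        exact pow_le_pow_left₀ (abs_nonneg _) h4 j
      have h6 := abs_le.1 h5
      exact ⟨by linarith, fun _ => by linarith, fun _ => by linarith⟩
    · have h4 := vp_right (m := m) h0 h1 hT h'
      have h5 : vp (cA t0) (cX t0) m t ^ j ≤ 0 := hj.pow_nonpos h4
      refine ⟨by linarith, fun h'' => ?_, fun _ => by linarith⟩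
      have h7 : t = 1 := le_antisymm h'' h'
      have h8 := vp_mid (m := m) h0 h1 hT h h''
      have h9 : |vp (cA t0) (cX t0) m t ^ j| ≤ (1 / 2) ^ j := by
        rw [abs_pow]
        exact pow_le_pow_left₀ (abs_nonneg _) h8 j
      have h6 := abs_le.1 h9
      linarith

end bounds

/-! ### the multiplication operator of the polynomial -/

theorem op_tc {A X Q : ℝ} (hθ : Op n B θ) (hB : 0 ≤ B) (hA : 0 ≤ A) (hX : 0 ≤ X)
    (hQ : A * B + X ≤ Q) (hQ1 : 1 ≤ Q) : ∀ m : ℕ,
    Op n ((2 * Q + 1) ^ m) (fun x y => tc m (A * θ x y - X)) ∧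
    Op n ((2 * Q + 1) ^ (m + 1)) (fun x y => tc (m + 1) (A * θ x y - X)) := by
  have hq : Op n Q (fun x y => A * θ x y - X) := by
    have h1 := (hθ.smul A hB).add (op_const (n := n) (-X))
    refine (h1.congr fun x y => by ring).mono ?_
    rw [abs_neg, abs_of_nonneg hA, abs_of_nonneg hX]
    exact hQ
  intro m
  induction m with
  | zero =>
    constructor
    · have := op_const (n := n) 1
      rw [abs_one] at this
      rw [pow_zero]
      exact this.congr fun x y => tc_zero _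
    · refine (hq.congr fun x y => ?_).mono ?_
      · rw [zero_add, tc_one]
      · rw [zero_add, pow_one]
        linarith
  | succ m ih =>
    refine ⟨ih.2, ?_⟩
    have hp : (0 : ℝ) ≤ (2 * Q + 1) ^ (m + 1) := by positivity
    have h1 := (hq.mul ih.2 hp).smul 2 (by positivity)
    have h2 := ih.1.smul (-1) (by positivity)
    refine ((h1.add h2).congr fun x y => ?_).mono ?_
    · rw [tc_step]
      ring
    · rw [abs_of_nonneg (by norm_num : (0 : ℝ) ≤ 2), abs_neg, abs_one, one_mul]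
      have h3 : (2 * Q + 1) ^ m ≤ (2 * Q + 1) ^ (m + 1) :=
        pow_le_pow_right₀ (by linarith) (Nat.le_succ m)
      have h5 : (2 * Q + 1) ^ (m + 1 + 1) = 2 * (Q * (2 * Q + 1) ^ (m + 1)) +
          (2 * Q + 1) ^ (m + 1) := by ring
      linarith

theorem tc_bound {X : ℝ} (hX : 1 ≤ X) : ∀ m : ℕ,
    |tc m X| ≤ (2 * X + 1) ^ m ∧ |tc (m + 1) X| ≤ (2 * X + 1) ^ (m + 1) := by
  intro m
  induction m with
  | zero =>
    constructor
    · rw [tc_zero]
      simp
    · rw [zero_add, tc_one, pow_one, abs_of_pos (by linarith)]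
      linarith
  | succ m ih =>
    refine ⟨ih.2, ?_⟩
    rw [tc_step]
    have h1 : |2 * X * tc (m + 1) X - tc m X| ≤ |2 * X * tc (m + 1) X| + |tc m X| := abs_sub _ _
    have h2 : |2 * X * tc (m + 1) X| = 2 * X * |tc (m + 1) X| := by
      rw [abs_mul, abs_of_pos (by linarith : 0 < 2 * X)]
    have h3 : (2 * X + 1) ^ m ≤ (2 * X + 1) ^ (m + 1) :=
      pow_le_pow_right₀ (by linarith) (Nat.le_succ m)
    have h4 : 2 * X * |tc (m + 1) X| ≤ 2 * X * (2 * X + 1) ^ (m + 1) :=
      mul_le_mul_of_nonneg_left ih.2 (by linarith)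
    have h5 : (2 * X + 1) ^ (m + 1 + 1) = 2 * X * (2 * X + 1) ^ (m + 1) +
        (2 * X + 1) ^ (m + 1) := by ring
    rw [h2] at h1
    linarith [ih.1]

theorem op_dq {A X E : ℝ} (hθ : Op n B θ) (hB : 0 ≤ B) (hA : 0 ≤ A) (hX : 1 ≤ X)
    (hE : 2 * (A * B + X) + 2 * A + 1 ≤ E) (hE2 : 2 * X + 1 ≤ E) : ∀ m : ℕ,
    Op n (E ^ m) (fun x y => dq A X m (θ x y)) ∧
    Op n (E ^ (m + 1)) (fun x y => dq A X (m + 1) (θ x y)) := by
  have hAB : 0 ≤ A * B := mul_nonneg hA hB
  have hE1 : 1 ≤ E := by linarith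
  have hq : Op n (A * B + X) (fun x y => A * θ x y - X) := by
    have h1 := (hθ.smul A hB).add (op_const (n := n) (-X))
    refine (h1.congr fun x y => by ring).mono ?_
    rw [abs_neg, abs_of_nonneg hA, abs_of_nonneg (by linarith)]
  intro m
  induction m with
  | zero =>
    constructor
    · have := op_const (n := n) 0
      rw [pow_zero]
      refine (this.congr fun x y => by rw [dq]).mono (by simp)
    · have := op_const (n := n) A
      refine (this.congr fun x y => by rw [zero_add, dq]).mono ?_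
      rw [abs_of_nonneg hA, zero_add, pow_one]
      linarith
  | succ m ih =>
    refine ⟨ih.2, ?_⟩
    have hp : (0 : ℝ) ≤ E ^ (m + 1) := by positivity
    have h1 := (hq.mul ih.2 hp).smul 2 (by positivity)
    have h2 := ih.1.smul (-1) (by positivity)
    have h3 := op_const (n := n) (2 * A * tc (m + 1) (-X))
    refine (((h1.add h3).add h2).congr fun x y => ?_).mono ?_
    · rw [dq]
      ring
    · rw [abs_of_nonneg (by norm_num : (0 : ℝ) ≤ 2), abs_neg, abs_one, one_mul]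
      have h4 : |2 * A * tc (m + 1) (-X)| ≤ 2 * A * E ^ (m + 1) := by
        rw [abs_mul, abs_of_nonneg (by linarith : 0 ≤ 2 * A), (tc_neg_aux X (m + 1)).1, abs_mul,
          abs_pow, abs_neg, abs_one, one_pow, one_mul]
        refine mul_le_mul_of_nonneg_left ?_ (by linarith)
        exact ((tc_bound hX (m + 1)).1).trans (pow_le_pow_left₀ (by linarith) hE2 _)
      have h5 : E ^ m ≤ E ^ (m + 1) := pow_le_pow_right₀ hE1 (Nat.le_succ m)
      have h6 : (2 * (A * B + X) + 2 * A + 1) * E ^ (m + 1) ≤ E * E ^ (m + 1) :=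
        mul_le_mul_of_nonneg_right hE hp
      have h7 : E ^ (m + 1 + 1) = E * E ^ (m + 1) := by ring
      rw [h7]
      linarith

/-- the operator bound for `v θ` -/
theorem op_vp {t0 : ℝ} (h0 : 0 < t0) (h1 : t0 ≤ 1 / 12) {m : ℕ} (hT : 2 ≤ tc m (cX t0))
    (hθ : Op n B θ) (hB : 1 ≤ B) :
    Op n ((16 * B) ^ m) (fun x y => vp (cA t0) (cX t0) m (θ x y)) := by
  have h : 0 < 1 - t0 := by linarith
  have hA0 : 0 ≤ cA t0 := by rw [cA]; positivity
  have hA : cA t0 ≤ 24 / 11 := by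
    rw [cA, div_le_div_iff₀ h (by norm_num)]
    linarith
  have hX1 : 1 ≤ cX t0 := by
    have := cX_ge h0 (by linarith)
    linarith
  have hX : cX t0 ≤ 13 / 11 := by
    rw [cX, div_le_div_iff₀ h (by norm_num)]
    linarith
  have hAB : cA t0 * B ≤ 24 / 11 * B := mul_le_mul_of_nonneg_right hA (by linarith)
  have h3 := (op_tc (A := cA t0) (X := cX t0) (Q := 5 * B) hθ (by linarith) hA0 (by linarith)
    (by linarith) (by linarith) m).1
  have hT0 : 0 < tc m (cX t0) := by linarith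
  have hinv : |(tc m (cX t0))⁻¹| ≤ 1 := by
    rw [abs_of_pos (inv_pos.2 hT0)]
    exact inv_le_one_of_one_le₀ (by linarith)
  have h4 := h3.smul (-(tc m (cX t0))⁻¹) (by positivity)
  refine (h4.congr fun x y => ?_).mono ?_
  · rw [vp]
    field_simp
  · rw [abs_neg]
    have h5 : (2 * (5 * B) + 1) ^ m ≤ (16 * B) ^ m :=
      pow_le_pow_left₀ (by linarith) (by linarith) m
    calc |(tc m (cX t0))⁻¹| * (2 * (5 * B) + 1) ^ m ≤ 1 * (16 * B) ^ m :=
          mul_le_mul hinv h5 (by positivity) zero_le_one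
      _ = (16 * B) ^ m := one_mul _

/-- the operator bound for `w θ` -/
theorem op_wp {t0 : ℝ} (h0 : 0 < t0) (h1 : t0 ≤ 1 / 12) {m : ℕ} (hT : 2 ≤ tc m (cX t0))
    (hθ : Op n B θ) (hB : 1 ≤ B) (hm : 1 ≤ m) {j : ℕ} (hj : 1 ≤ j) :
    Op n ((32 * B) ^ (m * j)) (fun x y => wp (cA t0) (cX t0) m j (θ x y)) := by
  have h : 0 < 1 - t0 := by linarith
  have hA0 : 0 ≤ cA t0 := by rw [cA]; positivity
  have hA : cA t0 ≤ 24 / 11 := by
    rw [cA, div_le_div_iff₀ h (by norm_num)]
    linarith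
  have hX1 : 1 ≤ cX t0 := by
    have := cX_ge h0 (by linarith)
    linarith
  have hX : cX t0 ≤ 13 / 11 := by
    rw [cX, div_le_div_iff₀ h (by norm_num)]
    linarith
  have hAB : cA t0 * B ≤ 24 / 11 * B := mul_le_mul_of_nonneg_right hA (by linarith)
  have h2 := (op_dq (A := cA t0) (X := cX t0) (E := 16 * B) hθ (by linarith) hA0 hX1
    (by linarith) (by linarith) m).1
  have hT0 : 0 < tc m (cX t0) := by linarith
  have hinv : |(tc m (cX t0))⁻¹| ≤ 1 := by
    rw [abs_of_pos (inv_pos.2 hT0)]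
    exact inv_le_one_of_one_le₀ (by linarith)
  have hE0 : (0 : ℝ) ≤ 16 * B := by linarith
  have hv := op_vp h0 h1 hT hθ hB
  have hd : Op n ((16 * B) ^ m) (fun x y => dq (cA t0) (cX t0) m (θ x y) / tc m (cX t0)) := by
    have h4 := h2.smul ((tc m (cX t0))⁻¹) (by positivity)
    refine (h4.congr fun x y => ?_).mono ?_
    · field_simp
    · calc |(tc m (cX t0))⁻¹| * (16 * B) ^ m ≤ 1 * (16 * B) ^ m :=
            mul_le_mul_of_nonneg_right hinv (by positivity)
        _ = (16 * B) ^ m := one_mul _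
  have hE1 : 1 ≤ (16 * B) ^ m := one_le_pow₀ (by linarith)
  have hs := Op.sum (range j) (fun i => hv.pow (by positivity) i)
  have hs0 : (0 : ℝ) ≤ ∑ i ∈ range j, ((16 * B) ^ m) ^ i := sum_nonneg fun i _ => by positivity
  have hfin := hd.mul hs hs0
  refine (hfin.congr fun x y => by rw [wp]).mono ?_
  have hsum : ∑ i ∈ range j, ((16 * B) ^ m) ^ i ≤ j * ((16 * B) ^ m) ^ (j - 1) := by
    calc ∑ i ∈ range j, ((16 * B) ^ m) ^ i ≤ ∑ _i ∈ range j, ((16 * B) ^ m) ^ (j - 1) := by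
          refine sum_le_sum fun i hi => pow_le_pow_right₀ hE1 ?_
          have := mem_range.1 hi
          omega
      _ = _ := by rw [sum_const, card_range, nsmul_eq_mul]
  have hj2 : (j : ℝ) ≤ 2 ^ (m * j) := by
    have h6 : j < 2 ^ j := Nat.lt_two_pow_self
    have h7 : (2 : ℕ) ^ j ≤ 2 ^ (m * j) := Nat.pow_le_pow_right (by norm_num) (by nlinarith)
    have h8 : j ≤ 2 ^ (m * j) := by omega
    exact_mod_cast h8
  calc (16 * B) ^ m * ∑ i ∈ range j, ((16 * B) ^ m) ^ i ≤
        (16 * B) ^ m * (j * ((16 * B) ^ m) ^ (j - 1)) :=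
        mul_le_mul_of_nonneg_left hsum (by positivity)
    _ = j * ((16 * B) ^ m) ^ j := by
        have : ((16 * B) ^ m) ^ j = (16 * B) ^ m * ((16 * B) ^ m) ^ (j - 1) := by
          rw [← pow_succ']
          congr 1
          omega
        rw [this]
        ring
    _ ≤ 2 ^ (m * j) * ((16 * B) ^ m) ^ j := mul_le_mul_of_nonneg_right hj2 (by positivity)
    _ = (32 * B) ^ (m * j) := by
        rw [← pow_mul, ← mul_pow]
        congr 1
        ring

end Pool.Agent.Helper60.OI
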