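import Mathlib

/-!
The mean of the best empirical average over `T` independent samples, in product form.
-/

set_option autoImplicit false

namespace Pool.Agent.Helper60.OI

open Finset

variable {M W : Type} [Fintype M] [Fintype W] [Nonempty W]

/-- the best empirical average -/
noncomputable def best (T : ℕ) (d : M → W → ℝ) (m : Fin T → M) : ℝ :=
  (univ.sup' univ_nonempty fun w => ∑ i, d (m i) w) / T

/-- the mean of the best empirical average -/
noncomputable def mt (T : ℕ) (p : M → ℝ) (d : M → W → ℝ) : ℝ :=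
  ∑ m : Fin T → M, (∏ i, p (m i)) * best T d m

theorem sum_prod_pi (T : ℕ) (f : Fin T → M → ℝ) :
    ∑ m : Fin T → M, ∏ i, f i (m i) = ∏ i, ∑ a, f i a := by
  have h := Finset.prod_univ_sum (t := fun _ : Fin T => (univ : Finset M)) (f := f)
  rw [Fintype.piFinset_univ] at h
  exact h.symm

theorem best_nonneg {T : ℕ} {d : M → W → ℝ} (hd : ∀ a w, 0 ≤ d a w) (m : Fin T → M) :
    0 ≤ best T d m := by
  rw [best]
  refine div_nonneg ?_ (Nat.cast_nonneg _)
  obtain ⟨w⟩ := ‹Nonempty W›
  refine le_trans ?_ (le_sup' (fun w => ∑ i, d (m i) w) (mem_univ w))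
  exact sum_nonneg fun i _ => hd _ _

theorem best_le_one {T : ℕ} {d : M → W → ℝ} (hd : ∀ a w, d a w ≤ 1) (m : Fin T → M) :
    best T d m ≤ 1 := by
  rw [best]
  rcases Nat.eq_zero_or_pos T with h | h
  · subst h
    simp
  · have hT : (0 : ℝ) < T := by exact_mod_cast h
    rw [div_le_one hT]
    refine sup'_le _ _ fun w _ => ?_
    calc ∑ i, d (m i) w ≤ ∑ i : Fin T, (1 : ℝ) := sum_le_sum fun i _ => hd _ _
      _ = T := by simp

theorem mt_nonneg {T : ℕ} {p : M → ℝ} {d : M → W → ℝ} (hp : ∀ a, 0 ≤ p a)
    (hd : ∀ a w, 0 ≤ d a w) : 0 ≤ mt T p d :=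
  sum_nonneg fun m _ => mul_nonneg (prod_nonneg fun i _ => hp _) (best_nonneg hd m)

theorem mt_low {T : ℕ} (hT : 1 ≤ T) {p : M → ℝ} {d : M → W → ℝ} (hp : ∀ a, 0 ≤ p a) (w : W) :
    (∑ a, p a) ^ (T - 1) * ∑ a, p a * d a w ≤ mt T p d := by
  have hT0 : (0 : ℝ) < T := by exact_mod_cast hT
  have h1 : ∑ m : Fin T → M, (∏ i, p (m i)) * ((∑ i, d (m i) w) / T) ≤ mt T p d := by
    refine sum_le_sum fun m _ => mul_le_mul_of_nonneg_left ?_ (prod_nonneg fun i _ => hp _)
    rw [best]
    refine div_le_div_of_nonneg_right ?_ hT0.le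
    exact le_sup' (fun w => ∑ i, d (m i) w) (mem_univ w)
  refine le_trans (le_of_eq ?_) h1
  have h2 : ∀ m : Fin T → M, (∏ i, p (m i)) * ((∑ i, d (m i) w) / T) =
      (∑ i, ∏ j, (p (m j) * if j = i then d (m j) w else 1)) / T := by
    intro m
    rw [mul_div_assoc', mul_sum]
    congr 1
    refine sum_congr rfl fun i _ => ?_
    rw [prod_mul_distrib, prod_ite_eq']
    simp
  simp only [h2]
  rw [← sum_div, sum_comm]
  have h3 : ∀ i : Fin T, ∑ m : Fin T → M, ∏ j, (p (m j) * if j = i then d (m j) w else 1) =
      (∑ a, p a) ^ (T - 1) * ∑ a, p a * d a w := by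
    intro i
    rw [sum_prod_pi T (fun j a => p a * if j = i then d a w else 1)]
    rw [← mul_prod_erase univ _ (mem_univ i)]
    have h4 : ∀ j ∈ univ.erase i, (∑ a, p a * if j = i then d a w else 1) = ∑ a, p a := by
      intro j hj
      rw [mem_erase] at hj
      simp [hj.1]
    rw [prod_congr rfl h4, prod_const, card_erase_of_mem (mem_univ i), card_univ, Fintype.card_fin]
    simp [mul_comm]
  simp only [h3]
  rw [sum_const, card_univ, Fintype.card_fin, nsmul_eq_mul]
  field_simp

theorem exp_le_aux {l u : ℝ} (hl0 : 0 ≤ l) (hl1 : l ≤ 1) (hu0 : 0 ≤ u) (hu1 : u ≤ 1) :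
    Real.exp (l * u) ≤ 1 + (l + l ^ 2) * u := by
  have h1 : Real.exp l ≤ 1 + l + l ^ 2 := by
    have := Real.abs_exp_sub_one_sub_id_le (x := l) (by rw [abs_of_nonneg hl0]; exact hl1)
    have h2 := (abs_le.1 this).2
    linarith
  have h2 : Real.exp (l * u) ≤ (1 - u) * Real.exp 0 + u * Real.exp l := by
    have h := convexOn_exp.2 (Set.mem_univ (0 : ℝ)) (Set.mem_univ l) (by linarith : 0 ≤ 1 - u) hu0
      (by ring)
    simp only [smul_eq_mul] at h
    refine le_trans (le_of_eq ?_) h
    ring_nf
  rw [Real.exp_zero] at h2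
  nlinarith

theorem mt_up {T : ℕ} {η : ℝ} (h0 : 0 < η) (h1 : η ≤ 1)
    (hT : (Real.log (Fintype.card W) + 1) / η ^ 2 ≤ T) {p : M → ℝ} {d : M → W → ℝ}
    (hp : ∀ a, 0 ≤ p a) (hd0 : ∀ a w, 0 ≤ d a w) (hd1 : ∀ a w, d a w ≤ 1) {S : ℝ}
    (hS : ∀ w, ∑ a, p a * d a w ≤ S) :
    mt T p d ≤ (∑ a, p a) ^ (T - 1) * ((1 + η) * S + η * ∑ a, p a) := by
  set P : ℝ := ∑ a, p a with hP
  have hW : (1 : ℝ) ≤ Fintype.card W := by
    have : 0 < Fintype.card W := Fintype.card_pos
    exact_mod_cast this
  have hlog : 0 ≤ Real.log (Fintype.card W) := Real.log_nonneg hW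
  have hTpos : (0 : ℝ) < T := by
    refine lt_of_lt_of_le ?_ hT
    positivity
  have hT1 : 1 ≤ T := by exact_mod_cast hTpos
  have hP0 : 0 ≤ P := sum_nonneg fun a _ => hp a
  have hS0 : 0 ≤ S := by
    obtain ⟨w⟩ := ‹Nonempty W›
    exact (sum_nonneg fun a _ => mul_nonneg (hp a) (hd0 a w)).trans (hS w)
  rcases eq_or_lt_of_le hP0 with hPz | hPp
  · -- all weights vanish
    have hz : ∀ a, p a = 0 := by
      intro a
      have := (sum_eq_zero_iff_of_nonneg (fun a _ => hp a)).1 hPz.symm a (mem_univ a)
      exact this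
    have hz2 : mt T p d = 0 := by
      rw [mt]
      refine sum_eq_zero fun m _ => ?_
      have : (∏ i, p (m i)) = 0 := prod_eq_zero (mem_univ (⟨0, hT1⟩ : Fin T)) (hz _)
      rw [this, zero_mul]
    rw [hz2]
    positivity
  · set r : ℝ := S / P with hr
    have hr0 : 0 ≤ r := div_nonneg hS0 hP0
    set R : ℝ := (1 + η) * r * T + Real.log (Fintype.card W) / η with hR
    -- pointwise bound
    have hpt : ∀ m : Fin T → M, best T d m ≤
        (R + 1 / η * ∑ w, Real.exp (-(η * R)) * ∏ i, Real.exp (η * d (m i) w)) / T := by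
      intro m
      rw [best]
      refine div_le_div_of_nonneg_right ?_ hTpos.le
      refine sup'_le _ _ fun w _ => ?_
      have e1 : Real.exp (-(η * R)) * ∏ i, Real.exp (η * d (m i) w) =
          Real.exp (η * (∑ i, d (m i) w - R)) := by
        rw [← Real.exp_sum, ← Real.exp_add, ← mul_sum]
        congr 1
        ring
      have e2 : Real.exp (η * (∑ i, d (m i) w - R)) ≤
          ∑ w, Real.exp (-(η * R)) * ∏ i, Real.exp (η * d (m i) w) := by
        rw [← e1]
        exact single_le_sum (f := fun w => Real.exp (-(η * R)) * ∏ i, Real.exp (η * d (m i) w))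
          (fun w _ => by positivity) (mem_univ w)
      have e3 : η * (∑ i, d (m i) w - R) ≤ Real.exp (η * (∑ i, d (m i) w - R)) := by
        have := Real.add_one_le_exp (η * (∑ i, d (m i) w - R))
        linarith
      have e4 : ∑ i, d (m i) w - R ≤
          1 / η * ∑ w, Real.exp (-(η * R)) * ∏ i, Real.exp (η * d (m i) w) := by
        rw [div_mul_eq_mul_div, one_mul, le_div_iff₀ h0, mul_comm]
        exact e3.trans e2
      linarith
    have hmt : mt T p d ≤ (R * P ^ T + 1 / η * ∑ w, Real.exp (-(η * R)) *
        (∑ a, p a * Real.exp (η * d a w)) ^ T) / T := by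
      calc mt T p d ≤ ∑ m : Fin T → M, (∏ i, p (m i)) *
            ((R + 1 / η * ∑ w, Real.exp (-(η * R)) * ∏ i, Real.exp (η * d (m i) w)) / T) :=
            sum_le_sum fun m _ => mul_le_mul_of_nonneg_left (hpt m) (prod_nonneg fun i _ => hp _)
        _ = _ := by
            have e5 : ∀ m : Fin T → M, (∏ i, p (m i)) *
                ((R + 1 / η * ∑ w, Real.exp (-(η * R)) * ∏ i, Real.exp (η * d (m i) w)) / T) =
                (R * ∏ i, p (m i) + 1 / η * ∑ w, Real.exp (-(η * R)) *
                  ∏ i, (p (m i) * Real.exp (η * d (m i) w))) / T := by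
              intro m
              rw [mul_div_assoc']
              congr 1
              rw [mul_add, mul_comm R]
              congr 1
              rw [mul_left_comm, mul_sum]
              congr 1
              refine sum_congr rfl fun w _ => ?_
              rw [prod_mul_distrib]
              ring
            simp only [e5]
            rw [← sum_div]
            congr 1
            rw [sum_add_distrib, ← mul_sum, ← mul_sum, sum_comm]
            congr 1
            · congr 1
              rw [sum_prod_pi T (fun _ a => p a), prod_const, card_univ, Fintype.card_fin]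
            · congr 1
              refine sum_congr rfl fun w _ => ?_
              rw [← mul_sum]
              congr 1
              rw [sum_prod_pi T (fun _ a => p a * Real.exp (η * d a w)), prod_const, card_univ,
                Fintype.card_fin]
    have hw : ∀ w, Real.exp (-(η * R)) * (∑ a, p a * Real.exp (η * d a w)) ^ T ≤
        P ^ T / Fintype.card W := by
      intro w
      have f1 : ∑ a, p a * Real.exp (η * d a w) ≤ P * Real.exp ((η + η ^ 2) * r) := by
        calc ∑ a, p a * Real.exp (η * d a w) ≤ ∑ a, (p a + (η + η ^ 2) * (p a * d a w)) := by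
              refine sum_le_sum fun a _ => ?_
              have := mul_le_mul_of_nonneg_left (exp_le_aux h0.le h1 (hd0 a w) (hd1 a w)) (hp a)
              refine this.trans (le_of_eq ?_)
              ring
          _ = P + (η + η ^ 2) * ∑ a, p a * d a w := by rw [sum_add_distrib, ← mul_sum]
          _ ≤ P + (η + η ^ 2) * S := by
              have := mul_le_mul_of_nonneg_left (hS w) (by positivity : 0 ≤ η + η ^ 2)
              linarith
          _ = P * (1 + (η + η ^ 2) * r) := by
              rw [hr]
              field_simp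
          _ ≤ P * Real.exp ((η + η ^ 2) * r) := by
              refine mul_le_mul_of_nonneg_left ?_ hP0
              have := Real.add_one_le_exp ((η + η ^ 2) * r)
              linarith
      have f2 : (∑ a, p a * Real.exp (η * d a w)) ^ T ≤
          P ^ T * Real.exp (T * ((η + η ^ 2) * r)) := by
        calc _ ≤ (P * Real.exp ((η + η ^ 2) * r)) ^ T :=
              pow_le_pow_left₀ (sum_nonneg fun a _ => mul_nonneg (hp a) (Real.exp_pos _).le) f1 T
          _ = _ := by rw [mul_pow, ← Real.exp_nat_mul]
      calc Real.exp (-(η * R)) * (∑ a, p a * Real.exp (η * d a w)) ^ T ≤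
            Real.exp (-(η * R)) * (P ^ T * Real.exp (T * ((η + η ^ 2) * r))) :=
            mul_le_mul_of_nonneg_left f2 (Real.exp_pos _).le
        _ = P ^ T * Real.exp (-Real.log (Fintype.card W)) := by
            rw [mul_left_comm, ← Real.exp_add]
            congr 2
            rw [hR]
            field_simp
            ring
        _ = P ^ T / Fintype.card W := by
            rw [Real.exp_neg, Real.exp_log (by linarith), div_eq_mul_inv]
    have hsum : ∑ w, Real.exp (-(η * R)) * (∑ a, p a * Real.exp (η * d a w)) ^ T ≤ P ^ T := by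
      calc _ ≤ ∑ _w : W, P ^ T / Fintype.card W := sum_le_sum fun w _ => hw w
        _ = P ^ T := by
            rw [sum_const, card_univ, nsmul_eq_mul]
            field_simp
    have hfin : mt T p d ≤ (R * P ^ T + 1 / η * P ^ T) / T := by
      refine hmt.trans ?_
      refine div_le_div_of_nonneg_right ?_ hTpos.le
      have := mul_le_mul_of_nonneg_left hsum (by positivity : 0 ≤ 1 / η)
      linarith
    refine hfin.trans ?_
    have hPT : P ^ T = P ^ (T - 1) * P := by
      rw [← pow_succ]
      congr 1
      omega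
    have hT2 : (Real.log (Fintype.card W) + 1) / η ≤ η * T := by
      have := mul_le_mul_of_nonneg_left hT h0.le
      refine le_trans (le_of_eq ?_) this
      field_simp
    have hRT : (R + 1 / η) / T ≤ (1 + η) * r + η := by
      rw [div_le_iff₀ hTpos, hR]
      have : Real.log (Fintype.card W) / η + 1 / η = (Real.log (Fintype.card W) + 1) / η := by
        rw [add_div]
      nlinarith
    calc (R * P ^ T + 1 / η * P ^ T) / T = P ^ T * ((R + 1 / η) / T) := by ring
      _ ≤ P ^ T * ((1 + η) * r + η) := mul_le_mul_of_nonneg_left hRT (by positivity)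
      _ = P ^ (T - 1) * ((1 + η) * S + η * P) := by
          rw [hPT, hr]
          field_simp

end Pool.Agent.Helper60.OI
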