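import Pool.Agent.Helper60.OI.Defs
import Pool.Agent.Helper60.OI.Poly
import Pool.Agent.Helper60.OI.Samp

/-!
The main inequality, for abstract systems of weights.
-/

set_option autoImplicit false

namespace Pool.Agent.Helper60.OI

open Finset Pool.Agent.Helper79.NZ

/-- Weights: `al x m * be y m q` is the probability of the transcript `m` and the question `q`,
`al x m * ga y m q w` the probability that in addition Bob accepts the answer `w`. -/
structure Sys (X Y M Q W : Type) where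
  al : X → M → ℝ
  be : Y → M → Q → ℝ
  ga : Y → M → Q → W → ℝ
  al_nonneg : ∀ x m, 0 ≤ al x m
  al_le : ∀ x m, al x m ≤ 1
  be_le : ∀ y m q, be y m q ≤ 1
  ga_nonneg : ∀ y m q w, 0 ≤ ga y m q w
  ga_le : ∀ y m q w, ga y m q w ≤ be y m q
  be_nonneg : ∀ y m q, 0 ≤ be y m q

section general

set_option linter.unusedSectionVars false

variable {X Y M Q W : Type} [Fintype M] [Fintype Q] (N : Sys X Y M Q W)

/-- the probability of a question -/
noncomputable def Sys.pq (x : X) (y : Y) (q : Q) : ℝ := ∑ m, N.al x m * N.be y m q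

/-- the acceptance probability for a strategy of Merlin -/
noncomputable def Sys.acc (x : X) (y : Y) (σ : Q → W) : ℝ :=
  ∑ q, ∑ m, N.al x m * N.ga y m q (σ q)

theorem Sys.pq_nonneg (x : X) (y : Y) (q : Q) : 0 ≤ N.pq x y q :=
  sum_nonneg fun m _ => mul_nonneg (N.al_nonneg x m) (N.be_nonneg y m q)

/-- the conditional acceptance probability -/
noncomputable def Sys.de (y : Y) (q : Q) (m : M) (w : W) : ℝ := N.ga y m q w / N.be y m q

theorem Sys.de_nonneg (y : Y) (m : M) (q : Q) (w : W) :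
    0 ≤ N.de y q m w := div_nonneg (N.ga_nonneg y m q w) (N.be_nonneg y m q)

theorem Sys.de_le (y : Y) (m : M) (q : Q) (w : W) :
    N.de y q m w ≤ 1 := div_le_one_of_le₀ (N.ga_le y m q w) (N.be_nonneg y m q)

theorem Sys.be_de (y : Y) (m : M) (q : Q) (w : W) :
    N.be y m q * N.de y q m w = N.ga y m q w := by
  rw [Sys.de]
  rcases eq_or_ne (N.be y m q) 0 with h | h
  · have h1 := N.ga_le y m q w
    have h2 := N.ga_nonneg y m q w
    rw [h] at h1 ⊢
    rw [zero_mul]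
    linarith
  · rw [mul_div_assoc']
    rw [mul_div_cancel_left₀ _ h]

/-- the weights of one message together with the question -/
noncomputable def Sys.wt (x : X) (y : Y) (q : Q) (m : M) : ℝ := N.al x m * N.be y m q

theorem Sys.wt_nonneg (x : X) (y : Y) (q : Q) (m : M) : 0 ≤ N.wt x y q m :=
  mul_nonneg (N.al_nonneg x m) (N.be_nonneg y m q)

theorem Sys.wt_sum (x : X) (y : Y) (q : Q) : ∑ m, N.wt x y q m = N.pq x y q := rfl

theorem Sys.wt_de (x : X) (y : Y) (q : Q) (w : W) :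
    ∑ m, N.wt x y q m * N.de y q m w = ∑ m, N.al x m * N.ga y m q w := by
  refine sum_congr rfl fun m _ => ?_
  rw [Sys.wt, mul_assoc, N.be_de]

end general

section ip

variable {n c b a : ℕ} {M Q W : Type} [Fintype M] [Fintype Q] [Fintype W] [Nonempty W]
  (N : Sys (V n) (V n) M Q W)

/-- the contribution of one question to the test function -/
noncomputable def Sys.term (κ t0 : ℝ) (T m j : ℕ) (q : Q) (x y : V n) : ℝ :=
  (κ ^ (T - 1))⁻¹ * mt T (N.wt x y q) (N.de y q) *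
    wp (cA t0) (cX t0) m j (N.pq x y q / κ) ^ (T - 1)

/-- the test function -/
noncomputable def Sys.test (κ : V n → V n → Q → ℝ) (t0 : ℝ) (T m j : ℕ) (x y : V n) : ℝ :=
  ∑ q, N.term (κ x y q) t0 T m j q x y

theorem op_term {κ : V n → V n → ℝ} {u v : V n → ℝ}
    (hu0 : ∀ x, 0 ≤ u x) (hu1 : ∀ x, u x ≤ 1) (hv0 : ∀ y, 0 ≤ v y)
    (hv1 : ∀ y, v y ≤ 2 ^ b) (huv : ∀ x y, (κ x y)⁻¹ = u x * v y)
    (hM : (Fintype.card M : ℝ) ≤ 2 ^ c) {t0 : ℝ}
    (h0 : 0 < t0) (h1 : t0 ≤ 1 / 12) {T m j : ℕ} (hT1 : 1 ≤ T) (hT : 2 ≤ tc m (cX t0))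
    (hm : 1 ≤ m) (hj : 1 ≤ j) (q : Q) :
    Op n ((2 ^ (c + b)) ^ T * ((32 * 2 ^ (c + b)) ^ (m * j)) ^ (T - 1))
      (fun x y => N.term (κ x y) t0 T m j q x y) := by
  have hb : (0 : ℝ) < 2 ^ b := by positivity
  -- the normalised probability of the question
  have hθ : Op n (2 ^ (c + b)) (fun x y => N.pq x y q / κ x y) := by
    have h2 := Op.sum (n := n) (univ : Finset M) (B := fun _ => 2 ^ b)
      (θ := fun m x y => (N.al x m * u x) * (N.be y m q * v y)) (fun m => op_rank hb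
        (fun x => by
          rw [abs_of_nonneg (mul_nonneg (N.al_nonneg x m) (hu0 x))]
          exact mul_le_one₀ (N.al_le x m) (hu0 x) (hu1 x))
        (fun y => by
          rw [abs_of_nonneg (mul_nonneg (N.be_nonneg y m q) (hv0 y))]
          calc N.be y m q * v y ≤ 1 * 2 ^ b := by
                refine mul_le_mul (N.be_le y m q) (hv1 y) (hv0 y) zero_le_one
            _ = 2 ^ b := one_mul _))
    refine (h2.congr fun x y => ?_).mono ?_
    · rw [Sys.pq, div_eq_mul_inv, huv, sum_mul]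
      exact sum_congr rfl fun m _ => by ring
    · rw [sum_const, card_univ, nsmul_eq_mul, pow_add]
      exact mul_le_mul_of_nonneg_right hM hb.le
  have hB : (1 : ℝ) ≤ 2 ^ (c + b) := one_le_pow₀ (by norm_num)
  have hw := (op_wp h0 h1 hT hθ hB hm hj).pow (by positivity) (T - 1)
  -- the samples
  have hs : Op n ((2 ^ (c + b)) ^ T)
      (fun x y => (κ x y ^ (T - 1))⁻¹ * mt T (N.wt x y q) (N.de y q)) := by
    have h2 := Op.sum (n := n) (univ : Finset (Fin T → M))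
      (B := fun _ => (2 ^ b) ^ (T - 1))
      (θ := fun m x y => (u x ^ (T - 1) * ∏ i, N.al x (m i)) *
        (v y ^ (T - 1) * ((∏ i, N.be y (m i) q) * best T (N.de y q) m)))
      (fun m => op_rank (by positivity)
        (fun x => by
          have e1 : 0 ≤ ∏ i, N.al x (m i) := prod_nonneg fun i _ => N.al_nonneg x (m i)
          rw [abs_of_nonneg (mul_nonneg (pow_nonneg (hu0 x) _) e1)]
          refine mul_le_one₀ (pow_le_one₀ (hu0 x) (hu1 x)) e1 ?_
          exact prod_le_one (fun i _ => N.al_nonneg x (m i)) (fun i _ => N.al_le x (m i)))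
        (fun y => by
          have e1 : 0 ≤ best T (N.de y q) m := best_nonneg (fun m w => N.de_nonneg y m q w) m
          have e2 : best T (N.de y q) m ≤ 1 := best_le_one (fun m w => N.de_le y m q w) m
          have e3 : 0 ≤ ∏ i, N.be y (m i) q := prod_nonneg fun i _ => N.be_nonneg y (m i) q
          have e4 : ∏ i, N.be y (m i) q ≤ 1 :=
            prod_le_one (fun i _ => N.be_nonneg y (m i) q) (fun i _ => N.be_le y (m i) q)
          have e6 : v y ^ (T - 1) ≤ (2 ^ b) ^ (T - 1) :=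
            pow_le_pow_left₀ (hv0 y) (hv1 y) _
          rw [abs_of_nonneg (mul_nonneg (pow_nonneg (hv0 y) _) (mul_nonneg e3 e1))]
          calc v y ^ (T - 1) * ((∏ i, N.be y (m i) q) * best T (N.de y q) m) ≤
              (2 ^ b) ^ (T - 1) * (1 * 1) := by
                refine mul_le_mul e6 ?_ (mul_nonneg e3 e1) (by positivity)
                exact mul_le_mul e4 e2 e1 zero_le_one
            _ = (2 ^ b) ^ (T - 1) := by ring))
    refine (h2.congr fun x y => ?_).mono ?_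
    · rw [mt, mul_sum]
      refine sum_congr rfl fun m _ => ?_
      simp only [Sys.wt]
      rw [prod_mul_distrib, ← inv_pow, huv, mul_pow]
      ring
    · rw [sum_const, card_univ, nsmul_eq_mul]
      have e7 : (Fintype.card (Fin T → M) : ℝ) = (Fintype.card M : ℝ) ^ T := by simp
      rw [e7]
      calc (Fintype.card M : ℝ) ^ T * (2 ^ b) ^ (T - 1) ≤ (2 ^ c) ^ T * (2 ^ b) ^ T := by
            refine mul_le_mul (pow_le_pow_left₀ (Nat.cast_nonneg _) hM T) ?_ (by positivity)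
              (by positivity)
            exact pow_le_pow_right₀ (one_le_pow₀ (by norm_num)) (by omega)
        _ = (2 ^ (c + b)) ^ T := by rw [← mul_pow, pow_add]
  exact (hs.mul hw (by positivity)).congr fun x y => by rw [Sys.term]

theorem cor_test {κ : V n → V n → Q → ℝ} {u v : Q → V n → ℝ}
    (hu0 : ∀ q x, 0 ≤ u q x) (hu1 : ∀ q x, u q x ≤ 1) (hv0 : ∀ q y, 0 ≤ v q y)
    (hv1 : ∀ q y, v q y ≤ 2 ^ b) (huv : ∀ x y q, (κ x y q)⁻¹ = u q x * v q y)
    (hM : (Fintype.card M : ℝ) ≤ 2 ^ c) (hQ : (Fintype.card Q : ℝ) ≤ 2 ^ b) {t0 : ℝ}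
    (h0 : 0 < t0) (h1 : t0 ≤ 1 / 12) {T m j : ℕ} (hT1 : 1 ≤ T) (hT : 2 ≤ tc m (cX t0))
    (hm : 1 ≤ m) (hj : 1 ≤ j) :
    Cor n (2 ^ b * ((2 ^ (c + b)) ^ T * ((32 * 2 ^ (c + b)) ^ (m * j)) ^ (T - 1)))
      (N.test κ t0 T m j) := by
  have hterm : ∀ q : Q, Cor n
      ((2 ^ (c + b)) ^ T * ((32 * 2 ^ (c + b)) ^ (m * j)) ^ (T - 1))
      (fun x y => N.term (κ x y q) t0 T m j q x y) := by
    intro q
    have h3 := (op_term N (κ := fun x y => κ x y q) (hu0 q) (hu1 q) (hv0 q) (hv1 q)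
      (fun x y => huv x y q) hM h0 h1 hT1 hT hm hj q) 1 (fun _ _ => 1) zero_le_one cor_one
    refine (h3.congr fun x y => ?_).mono (le_of_eq ?_)
    · rw [mul_one]
    · rw [mul_one]
  have h4 := Cor.sum (univ : Finset Q) hterm
  refine (h4.congr fun x y => by rw [Sys.test]).mono ?_
  rw [card_univ]
  exact mul_le_mul_of_nonneg_right hQ (by positivity)

theorem delta_bound {T j : ℕ} (hTj : 80 * T ≤ 2 ^ j) : ((1 : ℝ) / 2) ^ j * T ≤ 1 / 80 := by
  have h2 : (80 : ℝ) * T ≤ 2 ^ j := by exact_mod_cast hTj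
  have h3 : ((1 : ℝ) / 2) ^ j * 2 ^ j = 1 := by
    rw [← mul_pow]
    norm_num
  have h4 : (0 : ℝ) < (1 / 2) ^ j := by positivity
  nlinarith

theorem term_nonneg {κ t0 : ℝ} (hk : 0 < κ) {T m j : ℕ} (hTe : Even (T - 1)) (q : Q)
    (x y : V n) : 0 ≤ N.term κ t0 T m j q x y := by
  rw [Sys.term]
  refine mul_nonneg (mul_nonneg (inv_nonneg.2 (pow_nonneg hk.le _)) ?_) (hTe.pow_nonneg _)
  exact mt_nonneg (N.wt_nonneg x y q) (fun m w => N.de_nonneg y m q w)

/-- upper bound for one question -/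
theorem term_no {κ t0 : ℝ} (hW : (Fintype.card W : ℝ) ≤ 2 ^ a)
    (h0 : 0 < t0) (h1 : t0 < 1) {T m j : ℕ} (hTa : 5184 * (a + 1) ≤ T) (hTe : Even (T - 1))
    (hTj : 80 * T ≤ 2 ^ j) (hT : 2 ≤ tc m (cX t0)) (hm : Odd m) (hj : Odd j) {x y : V n} {q : Q}
    (hk : 0 < κ) (hκ : N.pq x y q ≤ κ) {S : ℝ}
    (hS : ∀ w, ∑ m, N.wt x y q m * N.de y q m w ≤ S) :
    N.term κ t0 T m j q x y ≤ 80 / 79 * (73 / 72 * S + 1 / 72 * N.pq x y q) := by
  set δ : ℝ := (1 / 2) ^ j with hδ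
  have hδ0 : 0 < δ := by positivity
  have hTpos : (0 : ℝ) < T := by
    have : 0 < T := by omega
    exact_mod_cast this
  have hδT : δ * T ≤ 1 / 80 := delta_bound hTj
  have hpow : (1 + δ) ^ (T - 1) ≤ 80 / 79 := by
    have h2 : (1 + δ) ^ (T - 1) ≤ (1 + δ) ^ T := pow_le_pow_right₀ (by linarith) (by omega)
    have h3 : (1 + δ) ^ T ≤ Real.exp (δ * T) := by
      have h4 : 1 + δ ≤ Real.exp δ := by
        have := Real.add_one_le_exp δ
        linarith
      calc (1 + δ) ^ T ≤ Real.exp δ ^ T := pow_le_pow_left₀ (by linarith) h4 T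
        _ = Real.exp (δ * T) := by rw [← Real.exp_nat_mul, mul_comm]
    have h5 : Real.exp (δ * T) ≤ Real.exp (1 / 80) := Real.exp_le_exp.2 hδT
    have h6 : Real.exp (1 / 80) ≤ 80 / 79 := by
      have h7 := Real.add_one_le_exp (-(1 / 80 : ℝ))
      rw [Real.exp_neg] at h7
      have h9 : (79 / 80 : ℝ) ≤ (Real.exp (1 / 80))⁻¹ := by linarith
      have h10 := inv_anti₀ (by norm_num : (0 : ℝ) < 79 / 80) h9
      rw [inv_inv] at h10
      linarith
    linarith
  have hlogW : (Real.log (Fintype.card W) + 1) / (1 / 72) ^ 2 ≤ T := by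
    have hW1 : (1 : ℝ) ≤ Fintype.card W := by
      have : 0 < Fintype.card W := Fintype.card_pos
      exact_mod_cast this
    have h1 : Real.log (Fintype.card W) ≤ a * Real.log 2 := by
      rw [← Real.log_pow]
      exact Real.log_le_log (by linarith) hW
    have h2 : Real.log 2 ≤ 1 := by
      have := Real.log_two_lt_d9
      linarith
    have h3 : (a : ℝ) * Real.log 2 ≤ a := by
      have := mul_le_mul_of_nonneg_left h2 (Nat.cast_nonneg a)
      linarith
    have h4 : (5184 : ℝ) * (a + 1) ≤ T := by exact_mod_cast hTa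
    rw [div_le_iff₀ (by norm_num)]
    linarith
  have h2 := mt_up (T := T) (η := 1 / 72) (by norm_num) (by norm_num) hlogW
    (p := N.wt x y q) (d := N.de y q) (N.wt_nonneg x y q) (fun m w => N.de_nonneg y m q w)
    (fun m w => N.de_le y m q w) (S := S) hS
  rw [N.wt_sum] at h2
  set P : ℝ := N.pq x y q with hP
  have hP0 : 0 ≤ P := N.pq_nonneg x y q
  have hS0 : 0 ≤ S := by
    obtain ⟨w⟩ := ‹Nonempty W›
    exact (sum_nonneg fun m _ => mul_nonneg (N.wt_nonneg x y q m) (N.de_nonneg y m q w)).trans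
      (hS w)
  set t : ℝ := P / κ with ht
  have ht0 : 0 ≤ t := div_nonneg hP0 hk.le
  have ht1 : t ≤ 1 := by
    rw [ht, div_le_one hk]
    exact hκ
  obtain ⟨hw0, hw1, -⟩ := wp_props (m := m) (j := j) h0 h1 hm hj hT ht0
  have hw1 := hw1 ht1
  have e1 : 0 ≤ wp (cA t0) (cX t0) m j t ^ (T - 1) := hTe.pow_nonneg _
  have e2 : 0 ≤ (κ ^ (T - 1))⁻¹ := inv_nonneg.2 (pow_nonneg hk.le _)
  have e3 : (t * wp (cA t0) (cX t0) m j t) ^ (T - 1) ≤ 80 / 79 :=
    (pow_le_pow_left₀ hw0 hw1 _).trans hpow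
  have e4 : 0 ≤ (1 + 1 / 72) * S + 1 / 72 * P := by positivity
  calc N.term κ t0 T m j q x y ≤
      (κ ^ (T - 1))⁻¹ * (P ^ (T - 1) * ((1 + 1 / 72) * S + 1 / 72 * P)) *
        wp (cA t0) (cX t0) m j t ^ (T - 1) :=
        mul_le_mul_of_nonneg_right (mul_le_mul_of_nonneg_left h2 e2) e1
    _ = (t * wp (cA t0) (cX t0) m j t) ^ (T - 1) * ((1 + 1 / 72) * S + 1 / 72 * P) := by
        rw [ht, mul_pow, div_pow]
        field_simp
    _ ≤ 80 / 79 * ((1 + 1 / 72) * S + 1 / 72 * P) := mul_le_mul_of_nonneg_right e3 e4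
    _ = _ := by ring

/-- lower bound for one question -/
theorem term_yes {κ t0 : ℝ}
    (h0 : 0 < t0) (h1 : t0 < 1) {T m j : ℕ} (hT1 : 1 ≤ T) (hTe : Even (T - 1))
    (hTj : 80 * T ≤ 2 ^ j) (hT : 2 ≤ tc m (cX t0)) (hm : Odd m) (hj : Odd j) {x y : V n} {q : Q}
    (hk : 0 < κ) (ht : t0 ≤ N.pq x y q / κ) (w : W) :
    79 / 80 * (∑ m, N.wt x y q m * N.de y q m w) ≤ N.term κ t0 T m j q x y := by
  set δ : ℝ := (1 / 2) ^ j with hδ
  have hδ0 : 0 < δ := by positivity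
  have hδT : δ * T ≤ 1 / 80 := delta_bound hTj
  have hδ1 : δ ≤ 1 := by
    have : (1 : ℝ) ≤ T := by exact_mod_cast hT1
    nlinarith
  have hpow : 79 / 80 ≤ (1 - δ) ^ (T - 1) := by
    have h2 := one_add_mul_le_pow (a := -δ) (by linarith) (T - 1)
    have h3 : ((T - 1 : ℕ) : ℝ) ≤ T := by exact_mod_cast Nat.sub_le T 1
    have h4 : ((T - 1 : ℕ) : ℝ) * δ ≤ T * δ := mul_le_mul_of_nonneg_right h3 hδ0.le
    have h5 : 1 + -δ = 1 - δ := by ring
    rw [h5] at h2
    nlinarith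
  have h2 := mt_low (T := T) hT1 (p := N.wt x y q) (d := N.de y q) (N.wt_nonneg x y q) w
  rw [N.wt_sum] at h2
  set P : ℝ := N.pq x y q with hP
  set S : ℝ := ∑ m, N.wt x y q m * N.de y q m w with hS
  have hS0 : 0 ≤ S := sum_nonneg fun m _ => mul_nonneg (N.wt_nonneg x y q m) (N.de_nonneg y m q _)
  set t : ℝ := P / κ with htd
  have e1 : 0 ≤ wp (cA t0) (cX t0) m j t ^ (T - 1) := hTe.pow_nonneg _
  have e2 : 0 ≤ (κ ^ (T - 1))⁻¹ := inv_nonneg.2 (pow_nonneg hk.le _)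
  obtain ⟨-, -, hw2⟩ := wp_props (m := m) (j := j) h0 h1 hm hj hT (h0.le.trans ht)
  have hw2 := hw2 ht
  have e3 : 79 / 80 ≤ (t * wp (cA t0) (cX t0) m j t) ^ (T - 1) :=
    hpow.trans (pow_le_pow_left₀ (by linarith) hw2 _)
  calc 79 / 80 * S ≤ (t * wp (cA t0) (cX t0) m j t) ^ (T - 1) * S :=
        mul_le_mul_of_nonneg_right e3 hS0
    _ = (κ ^ (T - 1))⁻¹ * (P ^ (T - 1) * S) * wp (cA t0) (cX t0) m j t ^ (T - 1) := by
        rw [htd, mul_pow, div_pow]
        field_simp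
    _ ≤ _ := mul_le_mul_of_nonneg_right (mul_le_mul_of_nonneg_left h2 e2) e1

/-- upper bound for the test function on a 0-input -/
theorem test_no {κ : V n → V n → Q → ℝ} {t0 β : ℝ} (hW : (Fintype.card W : ℝ) ≤ 2 ^ a)
    (h0 : 0 < t0) (h1 : t0 < 1) {T m j : ℕ} (hTa : 5184 * (a + 1) ≤ T) (hTe : Even (T - 1))
    (hTj : 80 * T ≤ 2 ^ j) (hT : 2 ≤ tc m (cX t0)) (hm : Odd m) (hj : Odd j) {x y : V n}
    (hsum : ∑ q, N.pq x y q = 1)
    (hκ0 : ∀ q, 0 < κ x y q) (hκ : ∀ q, N.pq x y q ≤ κ x y q)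
    (hβ : β ≤ 5 / 6) (hacc : ∀ σ, N.acc x y σ ≤ β) :
    N.test κ t0 T m j x y ≤ β + 4 / 100 := by
  have hmax : ∀ q, ∃ w : W, ∀ w', ∑ m, N.wt x y q m * N.de y q m w' ≤
      ∑ m, N.wt x y q m * N.de y q m w := fun q =>
    Finite.exists_max (fun w => ∑ m, N.wt x y q m * N.de y q m w)
  choose σ hσ using hmax
  have hsum2 : N.test κ t0 T m j x y ≤ ∑ q, 80 / 79 *
      (73 / 72 * (∑ m, N.wt x y q m * N.de y q m (σ q)) + 1 / 72 * N.pq x y q) :=
    sum_le_sum fun q _ => term_no N hW h0 h1 hTa hTe hTj hT hm hj (hκ0 q) (hκ q) (hσ q)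
  rw [← mul_sum, sum_add_distrib, ← mul_sum, ← mul_sum, hsum] at hsum2
  have h5 := hacc σ
  rw [Sys.acc] at h5
  simp only [N.wt_de] at hsum2
  linarith

/-- lower bound for the test function on a 1-input -/
theorem test_yes {κ : V n → V n → Q → ℝ} {t0 α : ℝ}
    (h0 : 0 < t0) (h1 : t0 < 1) {T m j : ℕ} (hT1 : 1 ≤ T) (hTe : Even (T - 1))
    (hTj : 80 * T ≤ 2 ^ j) (hT : 2 ≤ tc m (cX t0)) (hm : Odd m) (hj : Odd j) {x y : V n}
    (hκ0 : ∀ q, 0 < κ x y q) (hκ : t0 * ∑ q, κ x y q ≤ 1 / 72)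
    (hα : α ≤ 1) (hacc : ∃ σ, α ≤ N.acc x y σ) :
    α - 4 / 100 ≤ N.test κ t0 T m j x y := by
  obtain ⟨σ, hσ⟩ := hacc
  have hterm : ∀ q, 79 / 80 * ((∑ m, N.wt x y q m * N.de y q m (σ q)) - t0 * κ x y q) ≤
      N.term (κ x y q) t0 T m j q x y := by
    intro q
    have hk := hκ0 q
    rcases lt_or_ge (N.pq x y q / κ x y q) t0 with h | h
    · have h3 : N.pq x y q < t0 * κ x y q := by
        rw [div_lt_iff₀ hk] at h
        exact h
      have hSP : ∑ m, N.wt x y q m * N.de y q m (σ q) ≤ N.pq x y q := by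
        rw [← N.wt_sum]
        refine sum_le_sum fun m _ => ?_
        have := mul_le_mul_of_nonneg_left (N.de_le y m q (σ q)) (N.wt_nonneg x y q m)
        linarith
      have h4 := term_nonneg N (t0 := t0) (m := m) (j := j) hk hTe q x y
      linarith
    · have h4 := term_yes N h0 h1 hT1 hTe hTj hT hm hj hk h (σ q)
      have : 0 < t0 * κ x y q := mul_pos h0 hk
      linarith
  have hsum : ∑ q, 79 / 80 * ((∑ m, N.wt x y q m * N.de y q m (σ q)) - t0 * κ x y q) ≤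
      N.test κ t0 T m j x y := sum_le_sum fun q _ => hterm q
  rw [← mul_sum, sum_sub_distrib, ← mul_sum] at hsum
  rw [Sys.acc] at hσ
  simp only [N.wt_de] at hsum
  linarith

/-- a function of small correlation which is larger on 1-inputs than on 0-inputs -/
theorem gap {n : ℕ} {f : V n → V n → Bool} (hf : f = ip n ∨ f = fun x y => !ip n x y)
    {G : V n → V n → ℝ} {R mid : ℝ} (hmid : |mid| ≤ 1) (hG : Cor n R G)
    (hy : ∀ x y, f x y = true → mid + 4 / 100 ≤ G x y)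
    (hn : ∀ x y, f x y = false → G x y ≤ mid - 4 / 100) :
    4 / 100 * √((2 : ℝ) ^ n) ≤ 1 + R := by
  obtain ⟨s, hs1, hs⟩ : ∃ s : ℝ, |s| = 1 ∧ ∀ x y : V n,
      4 / 100 ≤ chi x y * 1 * 1 * (s * (mid * 1 + (-1) * G x y)) := by
    rcases hf with hf | hf
    · refine ⟨1, by simp, fun x y => ?_⟩
      cases h : ip n x y with
      | true =>
        rw [chi_true h]
        have := hy x y (by rw [hf]; exact h)
        linarith
      | false =>
        rw [chi_false h]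
        have := hn x y (by rw [hf]; exact h)
        linarith
    · refine ⟨-1, by simp, fun x y => ?_⟩
      cases h : ip n x y with
      | true =>
        rw [chi_true h]
        have := hn x y (by rw [hf]; simp [h])
        linarith
      | false =>
        rw [chi_false h]
        have := hy x y (by rw [hf]; simp [h])
        linarith
  have hcor : Cor n (1 + R) (fun x y => s * (mid * 1 + (-1) * G x y)) := by
    refine (((cor_one.smul mid).add (hG.smul (-1))).smul s).mono ?_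
    rw [hs1, abs_neg, abs_one]
    linarith
  have h1 := hcor (fun _ => 1) (fun _ => 1) (fun _ => by simp) (fun _ => by simp)
  have h2 : (∑ x : V n, ∑ y : V n, (4 / 100 : ℝ)) ≤
      ∑ x, ∑ y, chi x y * 1 * 1 * (s * (mid * 1 + (-1) * G x y)) :=
    sum_le_sum fun x _ => sum_le_sum fun y _ => hs x y
  have h3 := h2.trans ((le_abs_self _).trans h1)
  have hcn : ((univ : Finset (V n)).card : ℝ) = 2 ^ n := by simp
  simp only [sum_const, nsmul_eq_mul, hcn] at h3
  have h4 : √((8 : ℝ) ^ n) * √((2 : ℝ) ^ n) = 2 ^ n * 2 ^ n := by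
    rw [← Real.sqrt_mul (by positivity), ← mul_pow]
    have : ((8 : ℝ) * 2) ^ n = (2 ^ n * 2 ^ n) ^ 2 := by
      rw [← mul_pow, ← pow_mul, mul_comm n 2, pow_mul]
      norm_num
    rw [this, Real.sqrt_sq (by positivity)]
  have h5 : 0 < √((8 : ℝ) ^ n) := Real.sqrt_pos.2 (by positivity)
  have h6 : (4 / 100 * √((2 : ℝ) ^ n)) * √((8 : ℝ) ^ n) ≤ (1 + R) * √((8 : ℝ) ^ n) := by
    calc (4 / 100 * √((2 : ℝ) ^ n)) * √((8 : ℝ) ^ n) =
        4 / 100 * (√((8 : ℝ) ^ n) * √((2 : ℝ) ^ n)) := by ring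
      _ = 2 ^ n * (2 ^ n * (4 / 100)) := by rw [h4]; ring
      _ ≤ _ := h3
  exact le_of_mul_le_mul_right h6 h5

/-- the main inequality before optimisation; `s` is `1` for the inner product and `-1` for its
negation -/
theorem core {f : V n → V n → Bool} (hf : f = ip n ∨ f = fun x y => !ip n x y) {α β : ℝ}
    (hα : α ≤ 1) (hβ0 : 0 ≤ β) (hαβ : β + 1 / 6 ≤ α)
    (hsum : ∀ x y, ∑ q, N.pq x y q = 1)
    (hyes : ∀ x y, f x y = true → ∃ σ, α ≤ N.acc x y σ)
    (hno : ∀ x y, f x y = false → ∀ σ, N.acc x y σ ≤ β)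
    {κ : V n → V n → Q → ℝ} {u v : Q → V n → ℝ}
    (hu0 : ∀ q x, 0 ≤ u q x) (hu1 : ∀ q x, u q x ≤ 1) (hv0 : ∀ q y, 0 ≤ v q y)
    (hv1 : ∀ q y, v q y ≤ 2 ^ b) (huv : ∀ x y q, (κ x y q)⁻¹ = u q x * v q y)
    (hM : (Fintype.card M : ℝ) ≤ 2 ^ c) (hQ : (Fintype.card Q : ℝ) ≤ 2 ^ b)
    (hW : (Fintype.card W : ℝ) ≤ 2 ^ a)
    {L : ℝ} (hL : 1 ≤ L) (hκ0 : ∀ x y q, 0 < κ x y q)
    (hκsum : ∀ x y, ∑ q, κ x y q ≤ 2 * L)
    (hκno : ∀ x y, f x y = false → ∀ q, N.pq x y q ≤ κ x y q)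
    {T m j : ℕ} (hTa : 5184 * (a + 1) ≤ T) (hTe : Even (T - 1)) (hTj : 80 * T ≤ 2 ^ j)
    (hm : Odd m) (hj : Odd j) (hmL : 72 * L ≤ (m : ℝ) ^ 2) :
    4 / 100 * √((2 : ℝ) ^ n) ≤
      1 + 2 ^ b * ((2 ^ (c + b)) ^ T * ((32 * 2 ^ (c + b)) ^ (m * j)) ^ (T - 1)) := by
  set t0 : ℝ := 1 / (144 * L) with ht0
  have h0 : 0 < t0 := by positivity
  have h1 : t0 ≤ 1 / 144 := by
    rw [ht0]
    apply one_div_le_one_div_of_le (by norm_num)
    linarith
  have hκs : ∀ x y, t0 * ∑ q, κ x y q ≤ 1 / 72 := by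
    intro x y
    calc t0 * ∑ q, κ x y q ≤ t0 * (2 * L) := mul_le_mul_of_nonneg_left (hκsum x y) h0.le
      _ = 1 / 72 := by
          rw [ht0]
          field_simp
          norm_num
  have hT : 2 ≤ tc m (cX t0) := by
    refine tcX_ge h0 (by linarith) ?_
    rw [ht0]
    have : 1 / (2 * (1 / (144 * L))) = 72 * L := by
      field_simp
      norm_num
    rw [this]
    exact hmL
  have hm1 : 1 ≤ m := hm.pos
  have hj1 : 1 ≤ j := hj.pos
  have hT1 : 1 ≤ T := by omega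
  have hcorA := cor_test N hu0 hu1 hv0 hv1 huv hM hQ h0 (by linarith) hT1 hT hm1 hj1
  have hmid : |(α + β) / 2| ≤ 1 := by
    rw [abs_of_nonneg (by linarith)]
    linarith
  refine gap hf hmid hcorA (fun x y h => ?_) (fun x y h => ?_)
  · have := test_yes N (m := m) (j := j) h0 (by linarith) hT1 hTe hTj hT hm hj (hκ0 x y)
      (hκs x y) hα (hyes x y h)
    linarith
  · have := test_no N (m := m) (j := j) hW h0 (by linarith) hTa hTe hTj hT hm hj (hsum x y)
      (hκ0 x y) (hκno x y h) (by linarith) (hno x y h)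
    linarith

end ip

end Pool.Agent.Helper60.OI
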