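import Pool.Agent.Helper79.NZ.Defs

/-!
Online interactive proofs `OIP_+^{[2]}` with private coins, and a two-way generalisation which
also contains two-way NISZK protocols.
-/

set_option autoImplicit false

namespace Pool.Agent.Helper60.OI

open Pool.Agent.Helper79.NZ

/-! ### `OIP_+^{[2]}` -/

/-- An `OIP_+^{[2]}` protocol for inputs `X × Y`.  Alice has a private coin `r : RA` with
distribution `μ`, Bob has a private coin `s : RB` with distribution `ν`.  Alice sends the message
`msg x r` (`c` bits, not seen by Merlin) to Bob, Bob sends the question `que y s m` (`b` bits) to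
Merlin, Merlin answers with `w` (`a` bits) and Bob outputs `dec y s m w`. -/
structure Oip (X Y : Type) (c b a : ℕ) where
  RA : Type
  RB : Type
  fA : Fintype RA
  fB : Fintype RB
  μ : RA → ℝ
  ν : RB → ℝ
  μ_nonneg : ∀ r, 0 ≤ μ r
  ν_nonneg : ∀ s, 0 ≤ ν s
  μ_sum : ∑ r, μ r = 1
  ν_sum : ∑ s, ν s = 1
  msg : X → RA → (Fin c → Bool)
  que : Y → RB → (Fin c → Bool) → (Fin b → Bool)
  dec : Y → RB → (Fin c → Bool) → (Fin a → Bool) → Bool

attribute [instance] Oip.fA Oip.fB

variable {X Y : Type} {c b a : ℕ}

/-- the probability that Bob outputs `1` on input `(x, y)` when Merlin, who sees only the question,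
answers the question `q` with `σ q` (`σ` may depend on `x` and `y`) -/
noncomputable def Oip.acc (N : Oip X Y c b a) (x : X) (y : Y)
    (σ : (Fin b → Bool) → (Fin a → Bool)) : ℝ :=
  ∑ r, ∑ s, if N.dec y s (N.msg x r) (σ (N.que y s (N.msg x r))) = true then N.μ r * N.ν s else 0

/-- the probability that Bob asks Merlin the question `q` on input `(x, y)` -/
noncomputable def Oip.pq (N : Oip X Y c b a) (x : X) (y : Y) (q : Fin b → Bool) : ℝ :=
  ∑ r, ∑ s, if N.que y s (N.msg x r) = q then N.μ r * N.ν s else 0

/-- `N` is a protocol for `f`: on 1-inputs some strategy of Merlin makes Bob output `1` with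
probability at least `2/3`; on 0-inputs Bob outputs `0` with probability at least `2/3` against
every strategy of Merlin. -/
def Oip.Solves (N : Oip X Y c b a) (f : X → Y → Bool) : Prop :=
  ∀ x y, (f x y = true → ∃ σ, 2 / 3 ≤ N.acc x y σ) ∧ (f x y = false → ∀ σ, N.acc x y σ ≤ 1 / 3)

/-! ### the two-way generalisation -/

/-- the largest number of bits sent by Alice -/
def aBits {A B O : Type} : Proto A B O → ℕ
  | .out _ => 0
  | .alice _ p q => max (aBits p) (aBits q) + 1
  | .bob _ p q => max (aBits p) (aBits q)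

/-- A two-way protocol with Merlin.  Alice and Bob, with private coins, exchange bits in both
directions, at most `c` bits in all and at most `e` of them sent by Alice; Merlin does not see these
bits.  At the end Bob has a question (`b` bits) for Merlin and a rule which maps the answer of
Merlin (`a` bits) to the output bit. -/
structure Tip (X Y : Type) (c e b a : ℕ) where
  RA : Type
  RB : Type
  fA : Fintype RA
  fB : Fintype RB
  μ : RA → ℝ
  ν : RB → ℝ
  μ_nonneg : ∀ r, 0 ≤ μ r
  ν_nonneg : ∀ s, 0 ≤ ν s
  μ_sum : ∑ r, μ r = 1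
  ν_sum : ∑ s, ν s = 1
  P : Proto (X × RA) (Y × RB) ((Fin b → Bool) × ((Fin a → Bool) → Bool))
  depth_le : P.depth ≤ c
  aBits_le : aBits P ≤ e

attribute [instance] Tip.fA Tip.fB

variable {e : ℕ}

/-- the probability that Bob outputs `1` on input `(x, y)` when Merlin answers the question `q`
with `σ q` (`σ` may depend on `x` and `y`) -/
noncomputable def Tip.acc (N : Tip X Y c e b a) (x : X) (y : Y)
    (σ : (Fin b → Bool) → (Fin a → Bool)) : ℝ :=
  ∑ r, ∑ s, if (N.P.run (x, r) (y, s)).2 (σ (N.P.run (x, r) (y, s)).1) = true then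
    N.μ r * N.ν s else 0

/-- the probability that Bob asks Merlin the question `q` on input `(x, y)` -/
noncomputable def Tip.pq (N : Tip X Y c e b a) (x : X) (y : Y) (q : Fin b → Bool) : ℝ :=
  ∑ r, ∑ s, if (N.P.run (x, r) (y, s)).1 = q then N.μ r * N.ν s else 0

/-- `N` is a protocol for `f` with completeness `α` and soundness `β` -/
def Tip.Solves (N : Tip X Y c e b a) (α β : ℝ) (f : X → Y → Bool) : Prop :=
  ∀ x y, (f x y = true → ∃ σ, α ≤ N.acc x y σ) ∧ (f x y = false → ∀ σ, N.acc x y σ ≤ β)

/-! ### leak -/

/-- The distributions `P x y` on `Q` leak at most `log L` bits of max-information on the 0-inputs of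
`f`, beyond what is known to one of the players: either for each `y` there is a distribution `π`
with `P x y q ≤ L * π q` for all `q` and all `x` with `f x y = 0`, or for each `x` there is a
distribution `π` with `P x y q ≤ L * π q` for all `q` and all `y` with `f x y = 0`. -/
def Leak {Q : Type} [Fintype Q] (P : X → Y → Q → ℝ) (f : X → Y → Bool) (L : ℝ) : Prop :=
  (∀ y, ∃ π : Q → ℝ, (∀ q, 0 ≤ π q) ∧ ∑ q, π q = 1 ∧
    ∀ x, f x y = false → ∀ q, P x y q ≤ L * π q) ∨
  (∀ x, ∃ π : Q → ℝ, (∀ q, 0 ≤ π q) ∧ ∑ q, π q = 1 ∧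
    ∀ y, f x y = false → ∀ q, P x y q ≤ L * π q)

end Pool.Agent.Helper60.OI
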