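import Pool.Agent.Helper60.OI.Tree

/-!
The trade-off between leak and cost for two-way protocols with Merlin.
-/

set_option autoImplicit false

namespace Pool.Agent.Helper60.OI

open Finset Pool.Agent.Helper79.NZ

variable {n c e b a : ℕ}

theorem card_fn (k : ℕ) : (Fintype.card (Fin k → Bool) : ℝ) = 2 ^ k := by simp

/-- the numerical part: from the main inequality to a bound for `n` -/
theorem from_core {n c b T m j : ℕ} (hT8 : 8 ≤ T) (hm : 1 ≤ m) (hj : 1 ≤ j)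
    (hcore : 4 / 100 * √((2 : ℝ) ^ n) ≤
      1 + 2 ^ b * ((2 ^ (c + b)) ^ T * ((32 * 2 ^ (c + b)) ^ (m * j)) ^ (T - 1))) :
    n ≤ 14 * ((b + c + 1) * (T * (m * j))) := by
  obtain ⟨E, hE⟩ : ∃ E, E = b + (c + b) * T + (c + b + 5) * (m * j) * T := ⟨_, rfl⟩
  have hR : (2 : ℝ) ^ b * ((2 ^ (c + b)) ^ T * ((32 * 2 ^ (c + b)) ^ (m * j)) ^ (T - 1)) ≤
      2 ^ E := by
    have h1 : (32 : ℝ) * 2 ^ (c + b) = 2 ^ (c + b + 5) := by
      rw [pow_add _ _ 5]
      norm_num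
      ring
    rw [h1, ← pow_mul, ← pow_mul, ← pow_mul, ← pow_add, ← pow_add]
    refine pow_le_pow_right₀ (by norm_num) ?_
    rw [hE]
    have h2 : (c + b + 5) * (m * j) * (T - 1) ≤ (c + b + 5) * (m * j) * T :=
      Nat.mul_le_mul_left _ (Nat.sub_le T 1)
    linarith
  have hsq : √((2 : ℝ) ^ n) ≤ 2 ^ (E + 7) := by
    have h1 : (1 : ℝ) ≤ 2 ^ E := one_le_pow₀ (by norm_num)
    have h2 : (2 : ℝ) ^ (E + 7) = 128 * 2 ^ E := by
      rw [pow_add]
      norm_num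
      ring
    rw [h2]
    linarith
  have hn : n ≤ 2 * (E + 7) := by
    have h5 := (Real.sqrt_le_left (by positivity)).1 hsq
    rw [← pow_mul] at h5
    have := (pow_le_pow_iff_right₀ (by norm_num : (1 : ℝ) < 2)).1 h5
    omega
  have hmj : 1 ≤ m * j := Nat.mul_pos hm hj
  have e1 : 8 ≤ T * (m * j) := by nlinarith
  have e2 : T ≤ T * (m * j) := by nlinarith
  have e3 : b + 7 ≤ (b + c + 1) * (T * (m * j)) := by
    calc b + 7 ≤ (b + c + 1) * 8 := by omega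
      _ ≤ (b + c + 1) * (T * (m * j)) := Nat.mul_le_mul_left _ e1
  have e4 : (c + b) * T ≤ (b + c + 1) * (T * (m * j)) := by
    calc (c + b) * T ≤ (b + c + 1) * T := Nat.mul_le_mul_right _ (by omega)
      _ ≤ (b + c + 1) * (T * (m * j)) := Nat.mul_le_mul_left _ e2
  have e5 : (c + b + 5) * (m * j) * T ≤ 5 * ((b + c + 1) * (T * (m * j))) := by
    calc (c + b + 5) * (m * j) * T = (c + b + 5) * (T * (m * j)) := by ring
      _ ≤ (5 * (b + c + 1)) * (T * (m * j)) := Nat.mul_le_mul_right _ (by omega)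
      _ = _ := by ring
  generalize (b + c + 1) * (T * (m * j)) = Z at *
  generalize (c + b) * T = Z1 at *
  generalize (c + b + 5) * (m * j) * T = Z2 at *
  omega

theorem tip_pq_sum {X Y : Type} (N : Tip X Y c e b a) (x : X) (y : Y) : ∑ q, N.pq x y q = 1 := by
  simp only [Tip.pq]
  rw [sum_comm]
  have h1 : ∀ r, (∑ q : Fin b → Bool, ∑ s, if (N.P.run (x, r) (y, s)).1 = q then N.μ r * N.ν s
      else 0) = N.μ r := by
    intro r
    rw [sum_comm]
    have h2 : ∀ s, (∑ q : Fin b → Bool, if (N.P.run (x, r) (y, s)).1 = q then N.μ r * N.ν s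
        else 0) = N.μ r * N.ν s := by
      intro s
      rw [sum_ite_eq]
      simp
    simp only [h2]
    rw [← mul_sum, N.ν_sum, mul_one]
  simp only [h1]
  exact N.μ_sum

theorem tip_pq_nonneg {X Y : Type} (N : Tip X Y c e b a) (x : X) (y : Y) (q : Fin b → Bool) :
    0 ≤ N.pq x y q := by
  rw [Tip.pq]
  refine sum_nonneg fun r _ => sum_nonneg fun s _ => ?_
  split_ifs
  exacts [mul_nonneg (N.μ_nonneg r) (N.ν_nonneg s), le_rfl]

/-- the main inequality for two-way protocols -/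
theorem tip_core (N : Tip (V n) (V n) c e b a) {f : V n → V n → Bool}
    (hf : f = ip n ∨ f = fun x y => !ip n x y) {α β : ℝ}
    (hα : α ≤ 1) (hβ0 : 0 ≤ β) (hαβ : β + 1 / 6 ≤ α) (hN : N.Solves α β f)
    {L : ℝ} (hL : 1 ≤ L) (hleak : Leak N.pq f L)
    {T m j : ℕ} (hTa : 5184 * (a + 1) ≤ T) (hTe : Even (T - 1)) (hTj : 80 * T ≤ 2 ^ j)
    (hm : Odd m) (hj : Odd j) (hmL : 72 * L ≤ (m : ℝ) ^ 2) :
    4 / 100 * √((2 : ℝ) ^ n) ≤
      1 + 2 ^ b * ((2 ^ (c + b)) ^ T * ((32 * 2 ^ (c + b)) ^ (m * j)) ^ (T - 1)) := by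
  obtain ⟨M, _, S, hM, hpq, hacc, -⟩ := exists_sys N
  have hb : (0 : ℝ) < 2 ^ b := by positivity
  have hsum : ∀ x y, ∑ q, S.pq x y q = 1 := by
    intro x y
    simp only [hpq]
    exact tip_pq_sum N x y
  have hyes : ∀ x y, f x y = true → ∃ σ, α ≤ S.acc x y σ := by
    intro x y h
    obtain ⟨σ, hσ⟩ := (hN x y).1 h
    exact ⟨σ, by rw [hacc]; exact hσ⟩
  have hno : ∀ x y, f x y = false → ∀ σ, S.acc x y σ ≤ β := by
    intro x y h σ
    rw [hacc]
    exact (hN x y).2 h σ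
  have hQ : (Fintype.card (Fin b → Bool) : ℝ) ≤ 2 ^ b := (card_fn b).le
  have hW : (Fintype.card (Fin a → Bool) : ℝ) ≤ 2 ^ a := (card_fn a).le
  have low : ∀ p : ℝ, 0 ≤ p → 1 / 2 ^ b ≤ L * (p + 1 / 2 ^ b) := by
    intro p hp
    have h3 : (0 : ℝ) ≤ 1 / 2 ^ b := by positivity
    calc (1 : ℝ) / 2 ^ b ≤ p + 1 / 2 ^ b := by linarith
      _ ≤ L * (p + 1 / 2 ^ b) := le_mul_of_one_le_left (by linarith) hL
  have pos : ∀ p : ℝ, 0 ≤ p → 0 < L * (p + 1 / 2 ^ b) := fun p hp =>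
    lt_of_lt_of_le (by positivity) (low p hp)
  have inv : ∀ p : ℝ, 0 ≤ p → (L * (p + 1 / 2 ^ b))⁻¹ ≤ 2 ^ b := by
    intro p hp
    have := inv_anti₀ (by positivity) (low p hp)
    simpa using this
  have tot : ∀ p : (Fin b → Bool) → ℝ, ∑ q, p q = 1 → ∑ q, L * (p q + 1 / 2 ^ b) ≤ 2 * L := by
    intro p hp
    rw [← mul_sum, sum_add_distrib, hp, sum_const, card_univ, nsmul_eq_mul, card_fn]
    apply le_of_eq
    field_simp
    ring
  rcases hleak with hleak | hleak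
  · choose π hπ0 hπ1 hπ using hleak
    refine core S hf hα hβ0 hαβ hsum hyes hno
      (κ := fun _ y q => L * (π y q + 1 / 2 ^ b)) (u := fun _ _ => 1)
      (v := fun q y => (L * (π y q + 1 / 2 ^ b))⁻¹)
      (fun _ _ => zero_le_one) (fun _ _ => le_rfl)
      (fun q y => (inv_pos.2 (pos _ (hπ0 y q))).le) (fun q y => inv _ (hπ0 y q))
      (fun x y q => (one_mul _).symm) hM hQ hW hL (fun _ y q => pos _ (hπ0 y q))
      (fun _ y => tot _ (hπ1 y)) (fun x y h q => ?_) hTa hTe hTj hm hj hmL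
    rw [hpq]
    refine (hπ y x h q).trans (mul_le_mul_of_nonneg_left ?_ (by linarith))
    have : (0 : ℝ) ≤ 1 / 2 ^ b := by positivity
    linarith
  · choose π hπ0 hπ1 hπ using hleak
    refine core S hf hα hβ0 hαβ hsum hyes hno
      (κ := fun x _ q => L * (π x q + 1 / 2 ^ b))
      (u := fun q x => (L * (π x q + 1 / 2 ^ b))⁻¹ / 2 ^ b)
      (v := fun _ _ => 2 ^ b)
      (fun q x => div_nonneg (inv_pos.2 (pos _ (hπ0 x q))).le hb.le)
      (fun q x => by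
        rw [div_le_one hb]
        exact inv _ (hπ0 x q))
      (fun _ _ => hb.le) (fun _ _ => le_rfl)
      (fun x y q => by field_simp) hM hQ hW hL (fun x _ q => pos _ (hπ0 x q))
      (fun x _ => tot _ (hπ1 x)) (fun x y h q => ?_) hTa hTe hTj hm hj hmL
    rw [hpq]
    refine (hπ x y h q).trans (mul_le_mul_of_nonneg_left ?_ (by linarith))
    have : (0 : ℝ) ≤ 1 / 2 ^ b := by positivity
    linarith

/-- the trade-off between leak and cost -/
theorem trade (N : Tip (V n) (V n) c e b a) {f : V n → V n → Bool}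
    (hf : f = ip n ∨ f = fun x y => !ip n x y) {α β : ℝ}
    (hα : α ≤ 1) (hβ0 : 0 ≤ β) (hαβ : β + 1 / 6 ≤ α) (hN : N.Solves α β f)
    {L : ℝ} (hL : 1 ≤ L) (hleak : Leak N.pq f L) :
    (n : ℝ) ≤ 30000000 * (b + c + 1) * (a + 1) * Real.log (a + 2) * √L := by
  obtain ⟨l, hl⟩ : ∃ l, l = Nat.log 2 (a + 1) := ⟨_, rfl⟩
  obtain ⟨T, hT⟩ : ∃ T, T = 5184 * (a + 1) + 1 := ⟨_, rfl⟩
  obtain ⟨j, hj⟩ : ∃ j, j = 2 * l + 21 := ⟨_, rfl⟩
  obtain ⟨s, hs⟩ : ∃ s, s = ⌈√(18 * L)⌉₊ := ⟨_, rfl⟩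
  obtain ⟨m, hm⟩ : ∃ m, m = 2 * s + 1 := ⟨_, rfl⟩
  have hTe : Even (T - 1) := by
    rw [hT, Nat.add_sub_cancel]
    exact ⟨2592 * (a + 1), by ring⟩
  have hTj : 80 * T ≤ 2 ^ j := by
    have h1 : a + 1 < 2 ^ (l + 1) := by
      rw [hl]
      exact Nat.lt_pow_succ_log_self (by norm_num) _
    have h2 : (2 : ℕ) ^ (l + 20) ≤ 2 ^ j := Nat.pow_le_pow_right (by norm_num) (by omega)
    have h3 : (2 : ℕ) ^ (l + 20) = 524288 * 2 ^ (l + 1) := by
      have h4 : (524288 : ℕ) = 2 ^ 19 := by norm_num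
      rw [h4, ← pow_add]
      congr 1
      omega
    rw [h3] at h2
    generalize (2 : ℕ) ^ (l + 1) = u at *
    omega
  have hmo : Odd m := ⟨s, by rw [hm]⟩
  have hjo : Odd j := ⟨l + 10, by rw [hj]; ring⟩
  have hsL : √(18 * L) ≤ s := by rw [hs]; exact Nat.le_ceil _
  have hs2 : (s : ℝ) < √(18 * L) + 1 := by
    rw [hs]
    exact Nat.ceil_lt_add_one (Real.sqrt_nonneg _)
  have hmR : (m : ℝ) = 2 * s + 1 := by rw [hm]; push_cast; ring
  have hmL : 72 * L ≤ (m : ℝ) ^ 2 := by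
    have h1 : 18 * L ≤ (s : ℝ) ^ 2 := by
      rw [← Real.sq_sqrt (by linarith : (0 : ℝ) ≤ 18 * L)]
      exact pow_le_pow_left₀ (Real.sqrt_nonneg _) hsL 2
    rw [hmR]
    have : (0 : ℝ) ≤ s := Nat.cast_nonneg s
    nlinarith
  have hcore := tip_core N hf hα hβ0 hαβ hN hL hleak (T := T) (m := m) (j := j) (by omega) hTe hTj
    hmo hjo hmL
  have hn := from_core (by omega) hmo.pos hjo.pos hcore
  have hn2 : (n : ℝ) ≤ 14 * ((b + c + 1) * (T * (m * j))) := by exact_mod_cast hn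
  -- real estimates
  have hsqL : 1 ≤ √L := by rw [Real.one_le_sqrt]; exact hL
  have hm2 : (m : ℝ) ≤ 11.5 * √L := by
    have h1 : √(18 * L) ≤ 4.25 * √L := by
      rw [Real.sqrt_mul (by norm_num)]
      refine mul_le_mul_of_nonneg_right ?_ (Real.sqrt_nonneg _)
      rw [Real.sqrt_le_left (by norm_num)]
      norm_num
    rw [hmR]
    linarith
  have hlog0 : Real.log 2 ≤ Real.log (a + 2) := by
    refine Real.log_le_log (by norm_num) ?_
    have : (0 : ℝ) ≤ a := Nat.cast_nonneg a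
    linarith
  have hlog2 := Real.log_two_gt_d9
  have hlR : (l : ℝ) * Real.log 2 ≤ Real.log (a + 2) := by
    rw [← Real.log_pow]
    refine Real.log_le_log (by positivity) ?_
    have h1 : 2 ^ l ≤ a + 1 := by
      rw [hl]
      exact Nat.pow_log_le_self 2 (by omega)
    have h2 : (2 : ℝ) ^ l ≤ a + 1 := by exact_mod_cast h1
    linarith
  have hjR : (j : ℝ) ≤ 33.25 * Real.log (a + 2) := by
    have h1 : (j : ℝ) = 2 * l + 21 := by rw [hj]; push_cast; ring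
    rw [h1]
    have hl0 : (0 : ℝ) ≤ l := Nat.cast_nonneg l
    have h2 : (l : ℝ) * 0.6931 ≤ Real.log (a + 2) :=
      le_trans (mul_le_mul_of_nonneg_left (by linarith) hl0) hlR
    linarith
  have hTR : (T : ℝ) ≤ 5185 * (a + 1) := by
    have h1 : (T : ℝ) = 5184 * (a + 1) + 1 := by rw [hT]; push_cast; ring
    rw [h1]
    have : (0 : ℝ) ≤ a := Nat.cast_nonneg a
    linarith
  have hbc : (0 : ℝ) ≤ (b : ℝ) + c + 1 := by positivity
  have hlogpos : 0 ≤ Real.log (a + 2) := by linarith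
  calc (n : ℝ) ≤ 14 * ((b + c + 1) * (T * (m * j))) := hn2
    _ ≤ 14 * ((b + c + 1) * (5185 * (a + 1) * (11.5 * √L * (33.25 * Real.log (a + 2))))) := by
        gcongr
    _ = (14 * 5185 * 11.5 * 33.25) * (b + c + 1) * (a + 1) * Real.log (a + 2) * √L := by ring
    _ ≤ 30000000 * (b + c + 1) * (a + 1) * Real.log (a + 2) * √L := by
        gcongr
        norm_num

theorem Leak.mono {X Y Q : Type} [Fintype Q] {P : X → Y → Q → ℝ} {f : X → Y → Bool} {L L' : ℝ}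
    (h : Leak P f L) (hL : L ≤ L') : Leak P f L' := by
  rcases h with h | h
  · left
    intro y
    obtain ⟨π, hπ0, hπ1, hπ⟩ := h y
    exact ⟨π, hπ0, hπ1, fun x hx q => (hπ x hx q).trans (mul_le_mul_of_nonneg_right hL (hπ0 q))⟩
  · right
    intro y
    obtain ⟨π, hπ0, hπ1, hπ⟩ := h y
    exact ⟨π, hπ0, hπ1, fun x hx q => (hπ x hx q).trans (mul_le_mul_of_nonneg_right hL (hπ0 q))⟩

/-- the leak is at most `2 ^ b` -/
theorem leak_b {X Y : Type} (N : Tip X Y c e b a) (f : X → Y → Bool) : Leak N.pq f (2 ^ b) := by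
  left
  intro y
  refine ⟨fun _ => 1 / 2 ^ b, fun _ => by positivity, ?_, fun x _ q => ?_⟩
  · rw [sum_const, card_univ, nsmul_eq_mul, card_fn]
    field_simp
  · have h1 : N.pq x y q ≤ ∑ q, N.pq x y q :=
      single_le_sum (fun q _ => tip_pq_nonneg N x y q) (mem_univ q)
    rw [tip_pq_sum] at h1
    have h2 : (2 : ℝ) ^ b * (1 / 2 ^ b) = 1 := by field_simp
    rw [h2]
    exact h1

/-- the leak is at most `2` to the number of bits sent by Alice -/
theorem leak_e {X Y : Type} (N : Tip X Y c e b a) (f : X → Y → Bool) : Leak N.pq f (2 ^ e) := by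
  obtain ⟨M, _, S, -, hpq, -, hs⟩ := exists_sys N
  left
  intro y
  have he : (0 : ℝ) < 2 ^ e := by positivity
  set q0 : Fin b → Bool := fun _ => false
  have hr : 0 ≤ 1 - 1 / 2 ^ e * ∑ q, ∑ m, S.be y m q := by
    have h1 := mul_le_mul_of_nonneg_left (hs y) (by positivity : (0 : ℝ) ≤ 1 / 2 ^ e)
    have h2 : 1 / 2 ^ e * (2 : ℝ) ^ e = 1 := by field_simp
    linarith
  refine ⟨fun q => 1 / 2 ^ e * (∑ m, S.be y m q) +
    if q = q0 then 1 - 1 / 2 ^ e * ∑ q, ∑ m, S.be y m q else 0, fun q => ?_, ?_, fun x _ q => ?_⟩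
  · refine add_nonneg (mul_nonneg (by positivity) (sum_nonneg fun m _ => S.be_nonneg y m q)) ?_
    split_ifs
    exacts [hr, le_rfl]
  · rw [sum_add_distrib, ← mul_sum, sum_ite_eq']
    simp
  · rw [← hpq, Sys.pq, mul_add, ← mul_assoc]
    have h2 : (2 : ℝ) ^ e * (1 / 2 ^ e) = 1 := by field_simp
    rw [h2, one_mul]
    have h3 : ∑ m, S.al x m * S.be y m q ≤ ∑ m, S.be y m q :=
      sum_le_sum fun m _ => mul_le_of_le_one_left (S.be_nonneg y m q) (S.al_le x m)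
    have h4 : 0 ≤ (2 : ℝ) ^ e * (if q = q0 then 1 - 1 / 2 ^ e * ∑ q, ∑ m, S.be y m q else 0) := by
      refine mul_nonneg he.le ?_
      split_ifs
      exacts [hr, le_rfl]
    linarith

/-- the trade-off in terms of the lengths -/
theorem trade_len (N : Tip (V n) (V n) c e b a) {f : V n → V n → Bool}
    (hf : f = ip n ∨ f = fun x y => !ip n x y) {α β : ℝ}
    (hα : α ≤ 1) (hβ0 : 0 ≤ β) (hαβ : β + 1 / 6 ≤ α) (hN : N.Solves α β f) :
    (n : ℝ) ≤ 30000000 * (b + c + 1) * (a + 1) * Real.log (a + 2) * √(2 ^ min b e) := by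
  have h1 : (1 : ℝ) ≤ 2 ^ min b e := one_le_pow₀ (by norm_num)
  rcases le_total b e with h | h
  · rw [min_eq_left h] at h1 ⊢
    exact trade N hf hα hβ0 hαβ hN h1 (leak_b N _)
  · rw [min_eq_right h] at h1 ⊢
    exact trade N hf hα hβ0 hαβ hN h1 (leak_e N _)

end Pool.Agent.Helper60.OI
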