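import Pool.Agent.Helper60.OI.Flat
import Pool.Agent.Helper60.OI.Trade

/-!
The trade-off between the communication of Alice and Bob and the rest of the cost for two-way
protocols with Merlin.
-/

set_option autoImplicit false

namespace Pool.Agent.Helper60.OI

open Finset Pool.Agent.Helper79.NZ

variable {n c e b a : ℕ}

/-- the numerical part -/
theorem from_hl {n c b T m j : ℕ} (hT8 : 8 ≤ T) (hm : 1 ≤ m) (hj : 1 ≤ j)
    (hcore : 4 / 100 * √((2 : ℝ) ^ n) ≤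
      1 + 2 ^ b * ((b + 1) * (2 * (16 * 2 ^ (c + b)) ^ (m * j) *
      ((2 ^ (c + b)) ^ T * ((32 * 2 ^ (c + b)) ^ (m * j)) ^ (T - 1))))) :
    n ≤ 14 * ((b + c + 1) * (T * (m * j))) := by
  obtain ⟨E, hE⟩ : ∃ E, E = 2 * b + 1 + (c + b) * T + (c + b + 5) * (m * j) * T := ⟨_, rfl⟩
  have hR : (2 : ℝ) ^ b * ((b + 1) * (2 * (16 * 2 ^ (c + b)) ^ (m * j) *
      ((2 ^ (c + b)) ^ T * ((32 * 2 ^ (c + b)) ^ (m * j)) ^ (T - 1)))) ≤ 2 ^ E := by
    have h1 : (32 : ℝ) * 2 ^ (c + b) = 2 ^ (c + b + 5) := by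
      rw [pow_add _ _ 5]
      norm_num
      ring
    have h2 : (16 : ℝ) * 2 ^ (c + b) ≤ 2 ^ (c + b + 5) := by
      rw [← h1]
      have : (0 : ℝ) < 2 ^ (c + b) := by positivity
      linarith
    have h3 : (b : ℝ) + 1 ≤ 2 ^ b := by
      have h5 : b + 1 ≤ 2 ^ b := Nat.lt_two_pow_self
      exact_mod_cast h5
    have h4 : ((16 : ℝ) * 2 ^ (c + b)) ^ (m * j) ≤ (2 ^ (c + b + 5)) ^ (m * j) :=
      pow_le_pow_left₀ (by positivity) h2 _
    rw [h1]
    calc (2 : ℝ) ^ b * ((b + 1) * (2 * (16 * 2 ^ (c + b)) ^ (m * j) *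
        ((2 ^ (c + b)) ^ T * ((2 ^ (c + b + 5)) ^ (m * j)) ^ (T - 1)))) ≤
        2 ^ b * (2 ^ b * (2 * (2 ^ (c + b + 5)) ^ (m * j) *
        ((2 ^ (c + b)) ^ T * ((2 ^ (c + b + 5)) ^ (m * j)) ^ (T - 1)))) := by
          gcongr
      _ = 2 ^ (b + (b + (1 + (c + b + 5) * (m * j) + ((c + b) * T +
          (c + b + 5) * (m * j) * (T - 1))))) := by
          have e2 : (2 : ℝ) * (2 ^ (c + b + 5)) ^ (m * j) = 2 ^ (1 + (c + b + 5) * (m * j)) := by
            rw [← pow_mul, pow_add 2 1, pow_one]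
          rw [e2, ← pow_mul, ← pow_mul, ← pow_mul, ← pow_add, ← pow_add, ← pow_add, ← pow_add,
            mul_assoc (c + b + 5) (m * j) (T - 1)]
      _ ≤ 2 ^ E := by
          refine pow_le_pow_right₀ (by norm_num) ?_
          rw [hE]
          obtain ⟨t, rfl⟩ : ∃ t, T = t + 1 := ⟨T - 1, by omega⟩
          rw [Nat.add_sub_cancel]
          apply le_of_eq
          ring
  have hsq : √((2 : ℝ) ^ n) ≤ 2 ^ (E + 7) := by
    have h1 : (1 : ℝ) ≤ 2 ^ E := one_le_pow₀ (by norm_num)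
    have h2 : (2 : ℝ) ^ (E + 7) = 128 * 2 ^ E := by
      rw [pow_add]
      norm_num
      ring
    rw [h2]
    linarith
  have hn : n ≤ 2 * (E + 7) := by
    have h5 := (Real.sqrt_le_left (by positivity)).1 hsq
    rw [← pow_mul] at h5
    have := (pow_le_pow_iff_right₀ (by norm_num : (1 : ℝ) < 2)).1 h5
    omega
  have hmj : 1 ≤ m * j := Nat.mul_pos hm hj
  have e1 : 8 ≤ T * (m * j) := by nlinarith
  have e2 : T ≤ T * (m * j) := by nlinarith
  have e3 : 2 * b + 8 ≤ (b + c + 1) * (T * (m * j)) := by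
    calc 2 * b + 8 ≤ (b + c + 1) * 8 := by omega
      _ ≤ (b + c + 1) * (T * (m * j)) := Nat.mul_le_mul_left _ e1
  have e4 : (c + b) * T ≤ (b + c + 1) * (T * (m * j)) := by
    calc (c + b) * T ≤ (b + c + 1) * T := Nat.mul_le_mul_right _ (by omega)
      _ ≤ (b + c + 1) * (T * (m * j)) := Nat.mul_le_mul_left _ e2
  have e5 : (c + b + 5) * (m * j) * T ≤ 5 * ((b + c + 1) * (T * (m * j))) := by
    calc (c + b + 5) * (m * j) * T = (c + b + 5) * (T * (m * j)) := by ring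
      _ ≤ (5 * (b + c + 1)) * (T * (m * j)) := Nat.mul_le_mul_right _ (by omega)
      _ = _ := by ring
  generalize (b + c + 1) * (T * (m * j)) = Z at *
  generalize (c + b) * T = Z1 at *
  generalize (c + b + 5) * (m * j) * T = Z2 at *
  omega

/-- the trade-off between the communication `c` of Alice and Bob and the rest of the cost -/
theorem hl_trade (N : Tip (V n) (V n) c e b a) {f : V n → V n → Bool}
    (hf : f = ip n ∨ f = fun x y => !ip n x y) {α β : ℝ}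
    (hα : α ≤ 1) (hβ0 : 0 ≤ β) (hαβ : β + 1 / 6 ≤ α) (hN : N.Solves α β f) :
    (n : ℝ) ≤ 80000000 * (b + c + 1) * (a + 1) * Real.log (a + b + 2) * 2 ^ ((c : ℝ) / 4) := by
  obtain ⟨M, _, S, am, hv, hM, hpq, hacc, hHL⟩ := exists_hl N
  obtain ⟨K, hKd⟩ : ∃ K : ℝ, K = √(2 ^ c) := ⟨_, rfl⟩
  rw [← hKd] at hHL
  have hK1 : 1 ≤ K := by
    rw [hKd, Real.one_le_sqrt]
    exact one_le_pow₀ (by norm_num)
  have hsqK : √K = 2 ^ ((c : ℝ) / 4) := by
    rw [hKd, Real.sqrt_eq_rpow, Real.sqrt_eq_rpow, ← Real.rpow_natCast,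
      ← Real.rpow_mul (by norm_num), ← Real.rpow_mul (by norm_num)]
    congr 1
    ring
  rw [← hsqK]
  have hsum : ∀ x y, ∑ q, S.pq x y q = 1 := by
    intro x y
    simp only [hpq]
    exact tip_pq_sum N x y
  have hyes : ∀ x y, f x y = true → ∃ σ, α ≤ S.acc x y σ := by
    intro x y h
    obtain ⟨σ, hσ⟩ := (hN x y).1 h
    exact ⟨σ, by rw [hacc]; exact hσ⟩
  have hno : ∀ x y, f x y = false → ∀ σ, S.acc x y σ ≤ β := by
    intro x y h σ
    rw [hacc]
    exact (hN x y).2 h σ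
  -- the parameters
  obtain ⟨l, hl⟩ : ∃ l, l = Nat.log 2 (a + b + 1) := ⟨_, rfl⟩
  obtain ⟨T, hT⟩ : ∃ T, T = 5184 * (a + 1) + 1 := ⟨_, rfl⟩
  obtain ⟨j, hj⟩ : ∃ j, j = 2 * l + 21 := ⟨_, rfl⟩
  obtain ⟨s, hs⟩ : ∃ s, s = ⌈6 * √K⌉₊ := ⟨_, rfl⟩
  obtain ⟨m, hm⟩ : ∃ m, m = 2 * s + 1 := ⟨_, rfl⟩
  have hTe : Even (T - 1) := by
    rw [hT, Nat.add_sub_cancel]
    exact ⟨2592 * (a + 1), by ring⟩
  have hpow : 524288 * (a + b + 2) ≤ 2 ^ j := by
    have h1 : a + b + 1 < 2 ^ (l + 1) := by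
      rw [hl]
      exact Nat.lt_pow_succ_log_self (by norm_num) _
    have h2 : (2 : ℕ) ^ (l + 20) ≤ 2 ^ j := Nat.pow_le_pow_right (by norm_num) (by omega)
    have h3 : (2 : ℕ) ^ (l + 20) = 524288 * 2 ^ (l + 1) := by
      have h4 : (524288 : ℕ) = 2 ^ 19 := by norm_num
      rw [h4, ← pow_add]
      congr 1
      omega
    rw [h3] at h2
    generalize (2 : ℕ) ^ (l + 1) = u at *
    omega
  have hTj : 80 * T ≤ 2 ^ j := by
    generalize (2 : ℕ) ^ j = u at *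
    omega
  have hbj : 4000 * (b + 1) ≤ 2 ^ j := by
    generalize (2 : ℕ) ^ j = u at *
    omega
  have hmo : Odd m := ⟨s, by rw [hm]⟩
  have hjo : Odd j := ⟨l + 10, by rw [hj]; ring⟩
  have hsqK1 : 1 ≤ √K := by rw [Real.one_le_sqrt]; exact hK1
  have hsK : 6 * √K ≤ s := by rw [hs]; exact Nat.le_ceil _
  have hs2 : (s : ℝ) < 6 * √K + 1 := by
    rw [hs]
    exact Nat.ceil_lt_add_one (by positivity)
  have hmR : (m : ℝ) = 2 * s + 1 := by rw [hm]; push_cast; ring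
  have hmK : 144 * K ≤ (m : ℝ) ^ 2 := by
    have h1 : 36 * K ≤ (s : ℝ) ^ 2 := by
      calc 36 * K = (6 * √K) ^ 2 := by
            rw [mul_pow, Real.sq_sqrt (by linarith)]
            norm_num
        _ ≤ (s : ℝ) ^ 2 := pow_le_pow_left₀ (by positivity) hsK 2
    rw [hmR]
    have : (0 : ℝ) ≤ s := Nat.cast_nonneg s
    nlinarith
  have hcore := hl_core (n := n) (c := 2 * c + 1) (b := b) (a := a) (N := S) hf hα hβ0 hαβ hsum
    hyes hno hHL hK1 hM (card_fn b).le (card_fn a).le (T := T) (m := m) (j := j) (by omega) hTe hTj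
    hbj hmo hjo hmK
  have hn := from_hl (by omega) hmo.pos hjo.pos hcore
  have hn2 : (n : ℝ) ≤ 14 * ((b + (2 * c + 1) + 1) * (T * (m * j))) := by exact_mod_cast hn
  -- real estimates
  have hm2 : (m : ℝ) ≤ 15 * √K := by
    rw [hmR]
    linarith
  have ha : (0 : ℝ) ≤ a := Nat.cast_nonneg a
  have hb : (0 : ℝ) ≤ b := Nat.cast_nonneg b
  have hc : (0 : ℝ) ≤ c := Nat.cast_nonneg c
  have hlog0 : Real.log 2 ≤ Real.log (a + b + 2) := by
    refine Real.log_le_log (by norm_num) ?_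
    linarith
  have hlog2 := Real.log_two_gt_d9
  have hlR : (l : ℝ) * Real.log 2 ≤ Real.log (a + b + 2) := by
    rw [← Real.log_pow]
    refine Real.log_le_log (by positivity) ?_
    have h1 : 2 ^ l ≤ a + b + 1 := by
      rw [hl]
      exact Nat.pow_log_le_self 2 (by omega)
    have h2 : (2 : ℝ) ^ l ≤ a + b + 1 := by exact_mod_cast h1
    linarith
  have hjR : (j : ℝ) ≤ 33.25 * Real.log (a + b + 2) := by
    have h1 : (j : ℝ) = 2 * l + 21 := by rw [hj]; push_cast; ring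
    rw [h1]
    have hl0 : (0 : ℝ) ≤ l := Nat.cast_nonneg l
    have h2 : (l : ℝ) * 0.6931 ≤ Real.log (a + b + 2) :=
      le_trans (mul_le_mul_of_nonneg_left (by linarith) hl0) hlR
    linarith
  have hTR : (T : ℝ) ≤ 5185 * (a + 1) := by
    have h1 : (T : ℝ) = 5184 * (a + 1) + 1 := by rw [hT]; push_cast; ring
    rw [h1]
    linarith
  have hlogpos : 0 ≤ Real.log (a + b + 2) := by linarith
  calc (n : ℝ) ≤ 14 * ((b + (2 * c + 1) + 1) * (T * (m * j))) := hn2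
    _ ≤ 14 * ((2 * (b + c + 1)) *
        (5185 * (a + 1) * (15 * √K * (33.25 * Real.log (a + b + 2))))) := by
        gcongr
        linarith
    _ = (14 * 2 * 5185 * 15 * 33.25) * (b + c + 1) * (a + 1) * Real.log (a + b + 2) * √K := by
        ring
    _ ≤ 80000000 * (b + c + 1) * (a + 1) * Real.log (a + b + 2) * √K := by
        gcongr
        norm_num

end Pool.Agent.Helper60.OI
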