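import Pool.Agent.Helper60.OI.Conv
import Pool.Agent.Helper60.OI.HTrade

/-!
Lower bounds for `OIP_+^{[2]}` and NISZK protocols for the inner product.
-/

set_option autoImplicit false

namespace Pool.Agent.Helper60.OI

open Finset Pool.Agent.Helper79.NZ

variable {n c e b a k : ℕ}

theorem oip_trade (N : Oip (V n) (V n) c b a) {f : V n → V n → Bool}
    (hf : f = ip n ∨ f = fun x y => !ip n x y) (hN : N.Solves f) {L : ℝ} (hL : 1 ≤ L)
    (hleak : Leak N.pq f L) :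
    (n : ℝ) ≤ 30000000 * (b + c + 1) * (a + 1) * Real.log (a + 2) * √L :=
  trade N.toTip hf (by norm_num) (by norm_num) (by norm_num) (toTip_solves hN) hL
    (toTip_leak hleak)

theorem leak_len {X Y : Type} (N : Tip X Y c e b a) (f : X → Y → Bool) :
    Leak N.pq f (2 ^ min b e) := by
  rcases le_total b e with h | h
  · rw [min_eq_left h]
    exact leak_b N f
  · rw [min_eq_right h]
    exact leak_e N f

theorem oip_hl (N : Oip (V n) (V n) c b a) {f : V n → V n → Bool}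
    (hf : f = ip n ∨ f = fun x y => !ip n x y) (hN : N.Solves f) :
    (n : ℝ) ≤ 80000000 * (b + c + 1) * (a + 1) * Real.log (a + b + 2) * 2 ^ ((c : ℝ) / 4) :=
  hl_trade N.toTip hf (by norm_num) (by norm_num) (by norm_num) (toTip_solves hN)

/-- from an inequality to a polynomial lower bound -/
theorem grow {C δ : ℝ} (hC : 0 < C) (hδ : 0 < δ) : ∃ n₀ : ℕ, ∀ n ≥ n₀, ∀ t : ℕ,
    (n : ℝ) ≤ C * (t + 1) ^ 3 * (n : ℝ) ^ (1 - δ) → (n : ℝ) ^ (δ / 4) ≤ t := by
  have h1 : Filter.Tendsto (fun n : ℕ => (n : ℝ) ^ (δ / 4)) Filter.atTop Filter.atTop :=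
    (tendsto_rpow_atTop (by positivity)).comp tendsto_natCast_atTop_atTop
  obtain ⟨n₀, hn₀⟩ := Filter.eventually_atTop.1 (h1.eventually_ge_atTop (C * 8 + 1))
  refine ⟨max n₀ 1, fun n hn t h2 => ?_⟩
  have hbig := hn₀ n (le_trans (le_max_left _ _) hn)
  have hn1 : (1 : ℝ) ≤ n := by
    have : 1 ≤ n := le_trans (le_max_right _ _) hn
    exact_mod_cast this
  have hn0 : (0 : ℝ) < n := by linarith
  by_contra hcon
  push Not at hcon
  set x : ℝ := (n : ℝ) ^ (δ / 4) with hx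
  have hx1 : 1 ≤ x := by linarith
  have h3 : ((t : ℝ) + 1) ^ 3 ≤ (2 * x) ^ 3 := by
    apply pow_le_pow_left₀ (by positivity)
    linarith
  have hy : 0 < (n : ℝ) ^ (1 - δ) := Real.rpow_pos_of_pos hn0 _
  have h5 : (n : ℝ) ^ (1 - δ) * x ^ 4 = n := by
    rw [hx, ← Real.rpow_natCast, ← Real.rpow_mul hn0.le, ← Real.rpow_add hn0]
    have : 1 - δ + δ / 4 * ((4 : ℕ) : ℝ) = 1 := by
      push_cast
      ring
    rw [this, Real.rpow_one]
  set y : ℝ := (n : ℝ) ^ (1 - δ) with hyd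
  have h6 : y * x ^ 4 ≤ C * (2 * x) ^ 3 * y := by
    rw [h5]
    refine h2.trans ?_
    gcongr
  have h7 : x ^ 4 ≤ C * (2 * x) ^ 3 := by
    have : x ^ 4 * y ≤ C * (2 * x) ^ 3 * y := by linarith
    exact le_of_mul_le_mul_right this hy
  have h8 : x * x ^ 3 ≤ (C * 8) * x ^ 3 := by
    calc x * x ^ 3 = x ^ 4 := by ring
      _ ≤ _ := h7
      _ = _ := by ring
  have h9 : x ≤ C * 8 := le_of_mul_le_mul_right h8 (by positivity)
  linarith

theorem pow_le_of_le_log {n : ℕ} (hn : 0 < n) {t γ κ : ℝ} (hκ : 0 < κ)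
    (h : t ≤ γ * Real.logb 2 n) : (2 : ℝ) ^ (t / κ) ≤ (n : ℝ) ^ (γ / κ) := by
  have hn0 : (0 : ℝ) < n := by exact_mod_cast hn
  calc (2 : ℝ) ^ (t / κ) ≤ (2 : ℝ) ^ (Real.logb 2 n * (γ / κ)) := by
        apply Real.rpow_le_rpow_of_exponent_le (by norm_num)
        rw [mul_div_assoc', div_le_div_iff_of_pos_right hκ]
        linarith
    _ = (n : ℝ) ^ (γ / κ) := by
        rw [Real.rpow_mul (by norm_num), Real.rpow_logb (by norm_num) (by norm_num) hn0]

/-- leak at most `n ^ (2 - δ)` forces cost at least `n ^ (δ / 8)` -/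
theorem poly_cost {δ : ℝ} (hδ : 0 < δ) (hδ2 : δ ≤ 2) : ∃ n₀ : ℕ, ∀ n ≥ n₀, ∀ (a b c e : ℕ)
    (N : Tip (V n) (V n) c e b a) (f : V n → V n → Bool), (f = ip n ∨ f = fun x y => !ip n x y) →
    N.Solves (2 / 3) (1 / 3) f → Leak N.pq f ((n : ℝ) ^ (2 - δ)) →
    (n : ℝ) ^ (δ / 8) ≤ (a + b + c : ℕ) := by
  obtain ⟨n₀, hn₀⟩ := grow (C := 30000000) (δ := δ / 2) (by norm_num) (by positivity)
  refine ⟨max n₀ 1, fun n hn a b c e N f hf hN hleak => ?_⟩
  have hn1 : (1 : ℝ) ≤ n := by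
    have : 1 ≤ n := le_trans (le_max_right _ _) hn
    exact_mod_cast this
  have hn0 : (0 : ℝ) < n := by linarith
  have hL : (1 : ℝ) ≤ (n : ℝ) ^ (2 - δ) := Real.one_le_rpow hn1 (by linarith)
  have h1 := trade N hf (by norm_num) (by norm_num) (by norm_num) hN hL hleak
  have h4 : √((n : ℝ) ^ (2 - δ)) = (n : ℝ) ^ (1 - δ / 2) := by
    rw [Real.sqrt_eq_rpow, ← Real.rpow_mul hn0.le]
    congr 1
    ring
  rw [h4] at h1
  have h5 := hn₀ n (le_trans (le_max_left _ _) hn) (a + b + c) (h1.trans ?_)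
  · have h6 : δ / 2 / 4 = δ / 8 := by ring
    rw [h6] at h5
    exact h5
  · have h2 : Real.log (a + 2) ≤ a + 1 := by
      have := Real.log_le_sub_one_of_pos (x := (a : ℝ) + 2) (by positivity)
      linarith
    have ha : (0 : ℝ) ≤ a := Nat.cast_nonneg a
    have hb : (0 : ℝ) ≤ b := Nat.cast_nonneg b
    have hc : (0 : ℝ) ≤ c := Nat.cast_nonneg c
    have h0 : 0 ≤ Real.log (a + 2) := Real.log_nonneg (by linarith)
    have hy : 0 < (n : ℝ) ^ (1 - δ / 2) := Real.rpow_pos_of_pos hn0 _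
    have e : (((a + b + c : ℕ) : ℝ) + 1) = a + b + c + 1 := by push_cast; ring
    rw [e]
    have h3 : ((b : ℝ) + c + 1) * (a + 1) * Real.log (a + 2) ≤ (a + b + c + 1) ^ 3 := by
      calc ((b : ℝ) + c + 1) * (a + 1) * Real.log (a + 2) ≤
          (a + b + c + 1) * (a + b + c + 1) * (a + b + c + 1) := by
            gcongr <;> linarith
        _ = _ := by ring
    calc 30000000 * ((b : ℝ) + c + 1) * (a + 1) * Real.log (a + 2) * (n : ℝ) ^ (1 - δ / 2) =
        30000000 * (((b : ℝ) + c + 1) * (a + 1) * Real.log (a + 2)) * (n : ℝ) ^ (1 - δ / 2) := by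
          ring
      _ ≤ 30000000 * (a + b + c + 1) ^ 3 * (n : ℝ) ^ (1 - δ / 2) := by gcongr

/-- either the cost is polynomial, or Bob's question has at least `(2 - ε) log₂ n` bits, Alice
sends at least `(2 - ε) log₂ n` bits and Alice and Bob exchange at least `(4 - ε) log₂ n` bits -/
theorem dichotomy {ε : ℝ} (hε : 0 < ε) (hε2 : ε ≤ 2) : ∃ n₀ : ℕ, ∀ n ≥ n₀, ∀ (a b c e : ℕ)
    (N : Tip (V n) (V n) c e b a) (f : V n → V n → Bool), (f = ip n ∨ f = fun x y => !ip n x y) →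
    N.Solves (2 / 3) (1 / 3) f → (n : ℝ) ^ (ε / 16) ≤ (a + b + c : ℕ) ∨
      ((2 - ε) * Real.logb 2 n ≤ b ∧ (2 - ε) * Real.logb 2 n ≤ e ∧
        (4 - ε) * Real.logb 2 n ≤ c) := by
  obtain ⟨n₁, hn₁⟩ := poly_cost hε hε2
  obtain ⟨n₂, hn₂⟩ := grow (C := 80000000) (δ := ε / 4) (by norm_num) (by positivity)
  refine ⟨max (max n₁ n₂) 1, fun n hn a b c e N f hf hN => ?_⟩
  have hn1' : 1 ≤ n := le_trans (le_max_right _ _) hn
  have hn1 : (1 : ℝ) ≤ n := by exact_mod_cast hn1'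
  have hn0 : (0 : ℝ) < n := by linarith
  by_contra hcon
  push Not at hcon
  obtain ⟨hc1, hc2⟩ := hcon
  by_cases hb : (2 - ε) * Real.logb 2 n ≤ b ∧ (2 - ε) * Real.logb 2 n ≤ e
  · have hc3 := hc2 hb.1 hb.2
    have h1 := hl_trade N hf (by norm_num) (by norm_num) (by norm_num) hN
    have h4 := pow_le_of_le_log (κ := 4) (by omega) (by norm_num) hc3.le
    have h7 : (4 - ε) / 4 = 1 - ε / 4 := by ring
    rw [h7] at h4
    have h5 := hn₂ n (le_trans ((le_max_right _ _).trans (le_max_left _ _)) hn) (a + b + c)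
      (h1.trans ?_)
    · have h6 : ε / 4 / 4 = ε / 16 := by ring
      rw [h6] at h5
      linarith
    · have h2 : Real.log (a + b + 2) ≤ a + b + 1 := by
        have := Real.log_le_sub_one_of_pos (x := (a : ℝ) + b + 2) (by positivity)
        linarith
      have ha : (0 : ℝ) ≤ a := Nat.cast_nonneg a
      have hb : (0 : ℝ) ≤ b := Nat.cast_nonneg b
      have hc : (0 : ℝ) ≤ c := Nat.cast_nonneg c
      have h0 : 0 ≤ Real.log (a + b + 2) := Real.log_nonneg (by linarith)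
      have hy : 0 < (2 : ℝ) ^ ((c : ℝ) / 4) := Real.rpow_pos_of_pos (by norm_num) _
      have e : (((a + b + c : ℕ) : ℝ) + 1) = a + b + c + 1 := by push_cast; ring
      rw [e]
      have h3 : ((b : ℝ) + c + 1) * (a + 1) * Real.log (a + b + 2) ≤ (a + b + c + 1) ^ 3 := by
        calc ((b : ℝ) + c + 1) * (a + 1) * Real.log (a + b + 2) ≤
            (a + b + c + 1) * (a + b + c + 1) * (a + b + c + 1) := by
              gcongr <;> linarith
          _ = _ := by ring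
      calc 80000000 * ((b : ℝ) + c + 1) * (a + 1) * Real.log (a + b + 2) * 2 ^ ((c : ℝ) / 4) =
          80000000 * (((b : ℝ) + c + 1) * (a + 1) * Real.log (a + b + 2)) * 2 ^ ((c : ℝ) / 4) := by
            ring
        _ ≤ 80000000 * (a + b + c + 1) ^ 3 * (n : ℝ) ^ (1 - ε / 4) := by gcongr
  · have hmin : ((min b e : ℕ) : ℝ) ≤ (2 - ε) * Real.logb 2 n := by
      by_contra h
      push Not at h
      have h1 : ((min b e : ℕ) : ℝ) ≤ b := by exact_mod_cast min_le_left b e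
      have h2 : ((min b e : ℕ) : ℝ) ≤ e := by exact_mod_cast min_le_right b e
      exact hb ⟨by linarith, by linarith⟩
    have hpow : (2 : ℝ) ^ min b e ≤ (n : ℝ) ^ (2 - ε) := by
      have h4 := pow_le_of_le_log (κ := 1) (t := ((min b e : ℕ) : ℝ)) (by omega) one_pos hmin
      rw [div_one, div_one, Real.rpow_natCast] at h4
      exact h4
    have h6 := hn₁ n (le_trans ((le_max_left _ _).trans (le_max_left _ _)) hn) a b c e N f hf hN
      ((leak_len N f).mono hpow)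
    have h7 : (n : ℝ) ^ (ε / 16) ≤ (n : ℝ) ^ (ε / 8) :=
      Real.rpow_le_rpow_of_exponent_le hn1 (by linarith)
    linarith

theorem log_lt_rpow {C δ : ℝ} (hC : 0 < C) (hδ : 0 < δ) : ∃ n₀ : ℕ, ∀ n ≥ n₀,
    C * Real.logb 2 n < (n : ℝ) ^ δ := by
  have h2 := ((isLittleO_log_rpow_atTop (r := δ) hδ).comp_tendsto
    tendsto_natCast_atTop_atTop).def (c := 1 / (4 * C)) (by positivity)
  have hgrow : ∀ᶠ n : ℕ in Filter.atTop, C * Real.logb 2 n < (n : ℝ) ^ δ := by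
    filter_upwards [h2, Filter.eventually_ge_atTop 2] with n hn hn2
    have hnR : (2 : ℝ) ≤ n := by exact_mod_cast hn2
    have hlogn : 0 < Real.log n := Real.log_pos (by linarith)
    simp only [Function.comp, Real.norm_eq_abs] at hn
    rw [abs_of_pos hlogn, abs_of_nonneg (Real.rpow_nonneg (by linarith) _)] at hn
    have h3 : Real.logb 2 n ≤ 2 * Real.log n := by
      rw [Real.logb, div_le_iff₀ (Real.log_pos (by norm_num))]
      have := Real.log_two_gt_d9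
      nlinarith
    have hpos : 0 < (n : ℝ) ^ δ := Real.rpow_pos_of_pos (by linarith) _
    have h4 : 4 * C * Real.log n ≤ (n : ℝ) ^ δ := by
      have h5 := mul_le_mul_of_nonneg_left hn (by positivity : 0 ≤ 4 * C)
      have h6 : 4 * C * (1 / (4 * C) * (n : ℝ) ^ δ) = (n : ℝ) ^ δ := by field_simp
      linarith
    have h7 : C * Real.logb 2 n ≤ C * (2 * Real.log n) := mul_le_mul_of_nonneg_left h3 hC.le
    have h8 : 0 < C * Real.log n := mul_pos hC hlogn
    linarith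
  exact Filter.eventually_atTop.1 hgrow

/-- the total cost is at least `(6 - ε) log₂ n` -/
theorem six_log {ε : ℝ} (hε : 0 < ε) : ∃ n₀ : ℕ, ∀ n ≥ n₀, ∀ (a b c e : ℕ)
    (N : Tip (V n) (V n) c e b a) (f : V n → V n → Bool), (f = ip n ∨ f = fun x y => !ip n x y) →
    N.Solves (2 / 3) (1 / 3) f → (6 - ε) * Real.logb 2 n ≤ (a + b + c : ℕ) := by
  obtain ⟨δ, hδ, hδ2, hδε⟩ : ∃ δ : ℝ, 0 < δ ∧ δ ≤ 2 ∧ 2 * δ ≤ ε :=
    ⟨min (ε / 2) 2, lt_min (by positivity) (by norm_num), min_le_right _ _, by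
      have := min_le_left (ε / 2) 2
      linarith⟩
  obtain ⟨n₁, hn₁⟩ := dichotomy hδ hδ2
  obtain ⟨n₂, hn₂⟩ := log_lt_rpow (C := 6) (δ := δ / 16) (by norm_num) (by positivity)
  refine ⟨max (max n₁ n₂) 1, fun n hn a b c e N f hf hN => ?_⟩
  have hn1 : (1 : ℝ) ≤ n := by
    have : 1 ≤ n := le_trans (le_max_right _ _) hn
    exact_mod_cast this
  have h1 := hn₁ n (le_trans ((le_max_left _ _).trans (le_max_left _ _)) hn) a b c e N f hf hN
  have h2 := hn₂ n (le_trans ((le_max_right _ _).trans (le_max_left _ _)) hn)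
  have hlog : 0 ≤ Real.logb 2 n := Real.logb_nonneg (by norm_num) hn1
  rcases h1 with h1 | ⟨h1, -, h3⟩
  · have h7 : (6 - ε) * Real.logb 2 n ≤ 6 * Real.logb 2 n :=
      mul_le_mul_of_nonneg_right (by linarith) hlog
    linarith
  · have ha : (0 : ℝ) ≤ a := Nat.cast_nonneg a
    have h4 : 2 * δ * Real.logb 2 n ≤ ε * Real.logb 2 n :=
      mul_le_mul_of_nonneg_right hδε hlog
    push_cast
    linarith

/-! ### `OIP_+^{[2]}` -/

theorem oip_poly_cost {δ : ℝ} (hδ : 0 < δ) (hδ2 : δ ≤ 2) : ∃ n₀ : ℕ, ∀ n ≥ n₀, ∀ (a b c : ℕ)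
    (N : Oip (V n) (V n) c b a) (f : V n → V n → Bool), (f = ip n ∨ f = fun x y => !ip n x y) →
    N.Solves f → Leak N.pq f ((n : ℝ) ^ (2 - δ)) → (n : ℝ) ^ (δ / 8) ≤ (a + b + c : ℕ) := by
  obtain ⟨n₀, hn₀⟩ := poly_cost hδ hδ2
  exact ⟨n₀, fun n hn a b c N f hf hN hleak =>
    hn₀ n hn a b c c N.toTip f hf (toTip_solves hN) (toTip_leak hleak)⟩

theorem oip_dichotomy {ε : ℝ} (hε : 0 < ε) (hε2 : ε ≤ 2) : ∃ n₀ : ℕ, ∀ n ≥ n₀, ∀ (a b c : ℕ)
    (N : Oip (V n) (V n) c b a) (f : V n → V n → Bool), (f = ip n ∨ f = fun x y => !ip n x y) →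
    N.Solves f → (n : ℝ) ^ (ε / 16) ≤ (a + b + c : ℕ) ∨
      ((2 - ε) * Real.logb 2 n ≤ b ∧ (4 - ε) * Real.logb 2 n ≤ c) := by
  obtain ⟨n₀, hn₀⟩ := dichotomy hε hε2
  refine ⟨n₀, fun n hn a b c N f hf hN => ?_⟩
  rcases hn₀ n hn a b c c N.toTip f hf (toTip_solves hN) with h | ⟨h1, -, h2⟩
  exacts [Or.inl h, Or.inr ⟨h1, h2⟩]

theorem oip_six_log {ε : ℝ} (hε : 0 < ε) : ∃ n₀ : ℕ, ∀ n ≥ n₀, ∀ (a b c : ℕ)
    (N : Oip (V n) (V n) c b a) (f : V n → V n → Bool), (f = ip n ∨ f = fun x y => !ip n x y) →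
    N.Solves f → (6 - ε) * Real.logb 2 n ≤ (a + b + c : ℕ) := by
  obtain ⟨n₀, hn₀⟩ := six_log hε
  exact ⟨n₀, fun n hn a b c N f hf hN => hn₀ n hn a b c c N.toTip f hf (toTip_solves hN)⟩

/-- the trade-off for `OIP_+^{[2]}` -/
theorem oip_ineq (N : Oip (V n) (V n) c b a) {f : V n → V n → Bool}
    (hf : f = ip n ∨ f = fun x y => !ip n x y) (hN : N.Solves f) {L : ℝ} (hL : 1 ≤ L)
    (hleak : Leak N.pq f L) :
    (n : ℝ) ≤ 80000000 * (b + c + 1) * (a + 1) * Real.log (a + b + 2) *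
      min (√L) (2 ^ ((c : ℝ) / 4)) := by
  have h1 := oip_trade N hf hN hL hleak
  have h2 := oip_hl N hf hN
  have ha : (0 : ℝ) ≤ a := Nat.cast_nonneg a
  have hb : (0 : ℝ) ≤ b := Nat.cast_nonneg b
  have hlog : Real.log (a + 2) ≤ Real.log (a + b + 2) :=
    Real.log_le_log (by positivity) (by linarith)
  have h0 : 0 ≤ Real.log (a + 2) := Real.log_nonneg (by linarith)
  have h3 : (n : ℝ) ≤ 80000000 * (b + c + 1) * (a + 1) * Real.log (a + b + 2) * √L :=
    h1.trans (by gcongr; norm_num)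
  rcases min_choice (√L) ((2 : ℝ) ^ ((c : ℝ) / 4)) with h | h
  · rw [h]
    exact h3
  · rw [h]
    exact h2

/-- `OIP_+^{[2]}` protocols of subpolynomial cost -/
theorem oip_asym {δ : ℝ} (hδ : 0 < δ) (hδ2 : δ ≤ 2) : ∃ n₀ : ℕ, ∀ n ≥ n₀, ∀ (a b c : ℕ)
    (N : Oip (V n) (V n) c b a) (f : V n → V n → Bool), (f = ip n ∨ f = fun x y => !ip n x y) →
    N.Solves f → (6 - δ) * Real.logb 2 n ≤ (a + b + c : ℕ) ∧
      (((a + b + c : ℕ) : ℝ) < (n : ℝ) ^ (δ / 16) →
        (2 - δ) * Real.logb 2 n ≤ b ∧ (4 - δ) * Real.logb 2 n ≤ c ∧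
          ¬ Leak N.pq f ((n : ℝ) ^ (2 - δ))) := by
  obtain ⟨n₁, hn₁⟩ := oip_poly_cost hδ hδ2
  obtain ⟨n₂, hn₂⟩ := oip_dichotomy hδ hδ2
  obtain ⟨n₃, hn₃⟩ := oip_six_log hδ
  refine ⟨max (max n₁ n₂) (max n₃ 1), fun n hn a b c N f hf hN => ?_⟩
  have g1 : n₁ ≤ n := le_trans ((le_max_left _ _).trans (le_max_left _ _)) hn
  have g2 : n₂ ≤ n := le_trans ((le_max_right _ _).trans (le_max_left _ _)) hn
  have g3 : n₃ ≤ n := le_trans ((le_max_left _ _).trans (le_max_right _ _)) hn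
  have g4 : 1 ≤ n := le_trans ((le_max_right _ _).trans (le_max_right _ _)) hn
  refine ⟨hn₃ n g3 a b c N f hf hN, fun hlt => ?_⟩
  rcases hn₂ n g2 a b c N f hf hN with h | ⟨h1, h2⟩
  · exact absurd hlt (not_lt.2 h)
  · refine ⟨h1, h2, fun hleak => ?_⟩
    have h3 := hn₁ n g1 a b c N f hf hN hleak
    have h4 : (n : ℝ) ^ (δ / 16) ≤ (n : ℝ) ^ (δ / 8) :=
      Real.rpow_le_rpow_of_exponent_le (by exact_mod_cast g4) (by linarith)
    linarith

/-! ### NISZK -/

theorem niszk_aux (N : Prot (V n) (V n) k) (hN : N.Solves (1 / 3) (ip n)) {L : ℝ}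
    (h' : (n : ℝ) ≤ 30000000 * (k + N.P.depth + 1) * ((1 : ℕ) + 1) * Real.log ((1 : ℕ) + 2) * √L) :
    (n : ℝ) ≤ 200000000 * k * √L := by
  have hk := k_pos N hN
  have hd : (N.P.depth : ℝ) ≤ k := by exact_mod_cast N.depth_le
  have hl0 : 0 ≤ Real.log ((1 : ℕ) + 2) := Real.log_nonneg (by norm_num)
  have h : (n : ℝ) ≤ 30000000 * (k + k + 1) * ((1 : ℕ) + 1) * Real.log ((1 : ℕ) + 2) * √L :=
    h'.trans (by gcongr)
  have hkR : (1 : ℝ) ≤ k := by exact_mod_cast hk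
  have h3 : Real.log ((1 : ℕ) + 2) ≤ 1.11 := by
    have e : ((1 : ℕ) : ℝ) + 2 = 3 := by norm_num
    rw [e]
    have h4 : Real.log 3 = Real.log 2 + Real.log (3 / 2) := by
      rw [← Real.log_mul (by norm_num) (by norm_num)]
      norm_num
    have h5 : Real.log (3 / 2) = 1 / 2 * Real.log (9 / 4) := by
      have : (9 / 4 : ℝ) = (3 / 2) ^ 2 := by norm_num
      rw [this, Real.log_pow]
      push_cast
      ring
    have h6 : Real.log (9 / 4) = Real.log 2 + Real.log (9 / 8) := by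
      rw [← Real.log_mul (by norm_num) (by norm_num)]
      norm_num
    have h7 : Real.log (9 / 8) ≤ 9 / 8 - 1 := Real.log_le_sub_one_of_pos (by norm_num)
    have h8 := Real.log_two_lt_d9
    linarith
  have h0 : 0 ≤ Real.log ((1 : ℕ) + 2) := Real.log_nonneg (by norm_num)
  calc (n : ℝ) ≤ 30000000 * (k + k + 1) * ((1 : ℕ) + 1) * Real.log ((1 : ℕ) + 2) * √L := h
    _ ≤ 30000000 * (k + k + k) * ((1 : ℕ) + 1) * 1.11 * √L := by gcongr
    _ = 199800000 * k * √L := by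
        push_cast
        ring
    _ ≤ 200000000 * k * √L := by
        gcongr
        norm_num

/-- the leak of the output of an NISZK protocol on 1-inputs -/
theorem niszk_leak (N : Prot (V n) (V n) k) (hN : N.Solves (1 / 3) (ip n)) {L : ℝ} (hL : 1 ≤ L)
    (hleak : Leak N.pr (fun x y => !ip n x y) L) : (n : ℝ) ≤ 200000000 * k * √L := by
  refine niszk_aux N hN ?_
  have := trade (toTip' N) (Or.inr rfl) (by norm_num) (by norm_num) (by norm_num)
    (toTip'_solves hN) hL (toTip'_leak hL hleak)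
  simpa using this

/-- the number of bits sent by Alice in an NISZK protocol -/
theorem niszk_bits (N : Prot (V n) (V n) k) (hN : N.Solves (1 / 3) (ip n)) :
    (n : ℝ) ≤ 200000000 * k * √(2 ^ aBits N.P) := by
  refine niszk_aux N hN ?_
  have := trade (toTip' N) (Or.inr rfl) (by norm_num) (by norm_num) (by norm_num)
    (toTip'_solves hN) (one_le_pow₀ (by norm_num)) (leak_e (toTip' N) _)
  simpa using this

/-- either the cost is polynomial, or Alice sends at least `(2 - ε) log₂ n` bits and Alice and Bob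
exchange at least `(4 - ε) log₂ n` bits -/
theorem niszk_dichotomy {ε : ℝ} (hε : 0 < ε) : ∃ n₀ : ℕ, ∀ n ≥ n₀, ∀ (k : ℕ)
    (N : Prot (V n) (V n) k), N.Solves (1 / 3) (ip n) → (n : ℝ) ^ (ε / 16) ≤ k ∨
      ((2 - ε) * Real.logb 2 n ≤ aBits N.P ∧ (4 - ε) * Real.logb 2 n ≤ N.P.depth) := by
  obtain ⟨n₁, hn₁⟩ := grow (C := 200000000) (δ := ε / 2) (by norm_num) (by positivity)
  obtain ⟨n₂, hn₂⟩ := grow (C := 640000000) (δ := ε / 4) (by norm_num) (by positivity)
  refine ⟨max (max n₁ n₂) 1, fun n hn k N hN => ?_⟩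
  have hn1' : 1 ≤ n := le_trans (le_max_right _ _) hn
  have hn1 : (1 : ℝ) ≤ n := by exact_mod_cast hn1'
  have hn0 : (0 : ℝ) < n := by linarith
  have hkR : (0 : ℝ) ≤ k := Nat.cast_nonneg k
  have hd : (N.P.depth : ℝ) ≤ k := by exact_mod_cast N.depth_le
  by_contra hcon
  push Not at hcon
  obtain ⟨hc1, hc2⟩ := hcon
  by_cases hb : (2 - ε) * Real.logb 2 n ≤ aBits N.P
  · have hc3 := hc2 hb
    have h1 := hl_trade (toTip' N) (Or.inr rfl) (by norm_num) (by norm_num) (by norm_num)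
      (toTip'_solves hN)
    have h4 := pow_le_of_le_log (κ := 4) (by omega) (by norm_num) hc3.le
    have h7 : (4 - ε) / 4 = 1 - ε / 4 := by ring
    rw [h7] at h4
    have h5 := hn₂ n (le_trans ((le_max_right _ _).trans (le_max_left _ _)) hn) k (h1.trans ?_)
    · have h6 : ε / 4 / 4 = ε / 16 := by ring
      rw [h6] at h5
      linarith
    · have h2 : Real.log ((1 : ℕ) + k + 2) ≤ k + 2 := by
        have := Real.log_le_sub_one_of_pos (x := ((1 : ℕ) : ℝ) + k + 2) (by positivity)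
        push_cast at this ⊢
        linarith
      have h0 : 0 ≤ Real.log ((1 : ℕ) + k + 2) := Real.log_nonneg (by push_cast; linarith)
      have hy : 0 < (2 : ℝ) ^ ((N.P.depth : ℝ) / 4) := Real.rpow_pos_of_pos (by norm_num) _
      have h3 : ((k : ℝ) + N.P.depth + 1) * ((1 : ℕ) + 1) * Real.log ((1 : ℕ) + k + 2) ≤
          8 * (k + 1) ^ 3 := by
        calc ((k : ℝ) + N.P.depth + 1) * ((1 : ℕ) + 1) * Real.log ((1 : ℕ) + k + 2) ≤
            (2 * (k + 1)) * 2 * (2 * (k + 1)) := by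
              gcongr
              · linarith
              · push_cast; norm_num
              · linarith
          _ = 8 * (k + 1) ^ 2 * 1 := by ring
          _ ≤ 8 * (k + 1) ^ 2 * (k + 1) := by gcongr; linarith
          _ = 8 * (k + 1) ^ 3 := by ring
      calc 80000000 * ((k : ℝ) + N.P.depth + 1) * ((1 : ℕ) + 1) * Real.log ((1 : ℕ) + k + 2) *
          2 ^ ((N.P.depth : ℝ) / 4) =
          80000000 * (((k : ℝ) + N.P.depth + 1) * ((1 : ℕ) + 1) *
            Real.log ((1 : ℕ) + k + 2)) * 2 ^ ((N.P.depth : ℝ) / 4) := by ring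
        _ ≤ 80000000 * (8 * (k + 1) ^ 3) * (n : ℝ) ^ (1 - ε / 4) := by gcongr
        _ = 640000000 * (k + 1) ^ 3 * (n : ℝ) ^ (1 - ε / 4) := by ring
  · push Not at hb
    have h1 := niszk_bits N hN
    have h4 := pow_le_of_le_log (κ := 2) (t := aBits N.P) (by omega) (by norm_num) hb.le
    have h7 : (2 - ε) / 2 = 1 - ε / 2 := by ring
    have h8 : √((2 : ℝ) ^ aBits N.P) = 2 ^ ((aBits N.P : ℝ) / 2) := by
      rw [Real.sqrt_eq_rpow, ← Real.rpow_natCast, ← Real.rpow_mul (by norm_num)]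
      congr 1
      ring
    rw [h7] at h4
    rw [h8] at h1
    have h5 := hn₁ n (le_trans ((le_max_left _ _).trans (le_max_left _ _)) hn) k (h1.trans ?_)
    · have h6 : ε / 2 / 4 = ε / 8 := by ring
      rw [h6] at h5
      have h7 : (n : ℝ) ^ (ε / 16) ≤ (n : ℝ) ^ (ε / 8) :=
        Real.rpow_le_rpow_of_exponent_le hn1 (by linarith)
      linarith
    · have h3 : (k : ℝ) ≤ (k + 1) ^ 3 := by
        have : (k : ℝ) + 1 ≤ (k + 1) ^ 3 := by
          apply le_self_pow₀ (by linarith) (by norm_num)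
        linarith
      have hy : 0 < (2 : ℝ) ^ ((aBits N.P : ℝ) / 2) := Real.rpow_pos_of_pos (by norm_num) _
      gcongr

/-- the cost of two-way NISZK protocols is at least `(4 - ε) log₂ n` -/
theorem four_log {ε : ℝ} (hε : 0 < ε) : ∃ n₀ : ℕ, ∀ n ≥ n₀, ∀ (k : ℕ)
    (N : Prot (V n) (V n) k), N.Solves (1 / 3) (ip n) → (4 - ε) * Real.logb 2 n ≤ k := by
  obtain ⟨n₁, hn₁⟩ := niszk_dichotomy hε
  obtain ⟨n₂, hn₂⟩ := log_lt_rpow (C := 4) (δ := ε / 16) (by norm_num) (by positivity)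
  refine ⟨max (max n₁ n₂) 1, fun n hn k N hN => ?_⟩
  have hn1 : (1 : ℝ) ≤ n := by
    have : 1 ≤ n := le_trans (le_max_right _ _) hn
    exact_mod_cast this
  have h1 := hn₁ n (le_trans ((le_max_left _ _).trans (le_max_left _ _)) hn) k N hN
  have h2 := hn₂ n (le_trans ((le_max_right _ _).trans (le_max_left _ _)) hn)
  have hlog : 0 ≤ Real.logb 2 n := Real.logb_nonneg (by norm_num) hn1
  have hd : (N.P.depth : ℝ) ≤ k := by exact_mod_cast N.depth_le
  rcases h1 with h1 | ⟨-, h3⟩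
  · have h7 : (4 - ε) * Real.logb 2 n ≤ 4 * Real.logb 2 n :=
      mul_le_mul_of_nonneg_right (by linarith) hlog
    linarith
  · linarith

/-- the trade-off for two-way NISZK protocols -/
theorem niszk_ineq (N : Prot (V n) (V n) k) (hN : N.Solves (1 / 3) (ip n)) {L : ℝ} (hL : 1 ≤ L)
    (hleak : Leak N.pr (fun x y => !ip n x y) L) :
    (n : ℝ) ≤ 500000000 * k * Real.log (k + 3) * min (√L) (2 ^ ((N.P.depth : ℝ) / 4)) := by
  have hk : (1 : ℝ) ≤ k := by exact_mod_cast k_pos N hN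
  have hd : (N.P.depth : ℝ) ≤ k := by exact_mod_cast N.depth_le
  have hlog : 1 ≤ Real.log (k + 3) := by
    have h1 : Real.exp 1 ≤ (k : ℝ) + 3 := by
      have := Real.exp_one_lt_d9
      linarith
    have h2 := Real.log_le_log (Real.exp_pos 1) h1
    rwa [Real.log_exp] at h2
  rcases min_choice (√L) ((2 : ℝ) ^ ((N.P.depth : ℝ) / 4)) with h | h
  · rw [h]
    have h1 := niszk_leak N hN hL hleak
    calc (n : ℝ) ≤ 200000000 * k * √L := h1
      _ = 200000000 * k * 1 * √L := by ring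
      _ ≤ 500000000 * k * Real.log (k + 3) * √L := by
          gcongr
          norm_num
  · rw [h]
    have h1 := hl_trade (toTip' N) (Or.inr rfl) (by norm_num) (by norm_num) (by norm_num)
      (toTip'_solves hN)
    have e : Real.log ((1 : ℕ) + k + 2) = Real.log (k + 3) := by
      congr 1
      push_cast
      ring
    rw [e] at h1
    have h0 : 0 ≤ Real.log ((k : ℝ) + 3) := by linarith
    calc (n : ℝ) ≤ 80000000 * (k + N.P.depth + 1) * ((1 : ℕ) + 1) * Real.log (k + 3) *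
          2 ^ ((N.P.depth : ℝ) / 4) := h1
      _ ≤ 80000000 * (k + k + k) * ((1 : ℕ) + 1) * Real.log (k + 3) *
          2 ^ ((N.P.depth : ℝ) / 4) := by gcongr
      _ = 480000000 * k * Real.log (k + 3) * 2 ^ ((N.P.depth : ℝ) / 4) := by
          push_cast
          ring
      _ ≤ 500000000 * k * Real.log (k + 3) * 2 ^ ((N.P.depth : ℝ) / 4) := by
          gcongr
          norm_num

/-- two-way NISZK protocols of subpolynomial cost -/
theorem niszk_asym {δ : ℝ} (hδ : 0 < δ) (hδ2 : δ ≤ 2) : ∃ n₀ : ℕ, ∀ n ≥ n₀, ∀ (k : ℕ)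
    (N : Prot (V n) (V n) k), N.Solves (1 / 3) (ip n) → (4 - δ) * Real.logb 2 n ≤ k ∧
      ((k : ℝ) < (n : ℝ) ^ (δ / 16) →
        (2 - δ) * Real.logb 2 n ≤ aBits N.P ∧ (4 - δ) * Real.logb 2 n ≤ N.P.depth ∧
          ¬ Leak N.pr (fun x y => !ip n x y) ((n : ℝ) ^ (2 - δ))) := by
  obtain ⟨n₁, hn₁⟩ := grow (C := 200000000) (δ := δ / 2) (by norm_num) (by positivity)
  obtain ⟨n₂, hn₂⟩ := niszk_dichotomy hδ
  obtain ⟨n₃, hn₃⟩ := four_log hδ
  refine ⟨max (max n₁ n₂) (max n₃ 1), fun n hn k N hN => ?_⟩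
  have g1 : n₁ ≤ n := le_trans ((le_max_left _ _).trans (le_max_left _ _)) hn
  have g2 : n₂ ≤ n := le_trans ((le_max_right _ _).trans (le_max_left _ _)) hn
  have g3 : n₃ ≤ n := le_trans ((le_max_left _ _).trans (le_max_right _ _)) hn
  have g4 : 1 ≤ n := le_trans ((le_max_right _ _).trans (le_max_right _ _)) hn
  have hn1 : (1 : ℝ) ≤ n := by exact_mod_cast g4
  have hn0 : (0 : ℝ) < n := by linarith
  refine ⟨hn₃ n g3 k N hN, fun hlt => ?_⟩
  rcases hn₂ n g2 k N hN with h | ⟨h1, h2⟩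
  · exact absurd hlt (not_lt.2 h)
  · refine ⟨h1, h2, fun hleak => ?_⟩
    have hL : (1 : ℝ) ≤ (n : ℝ) ^ (2 - δ) := Real.one_le_rpow hn1 (by linarith)
    have h3 := niszk_leak N hN hL hleak
    have h4 : √((n : ℝ) ^ (2 - δ)) = (n : ℝ) ^ (1 - δ / 2) := by
      rw [Real.sqrt_eq_rpow, ← Real.rpow_mul hn0.le]
      congr 1
      ring
    rw [h4] at h3
    have hkR : (0 : ℝ) ≤ k := Nat.cast_nonneg k
    have h5 := hn₁ n g1 k (h3.trans ?_)
    · have h6 : δ / 2 / 4 = δ / 8 := by ring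
      rw [h6] at h5
      have h7 : (n : ℝ) ^ (δ / 16) ≤ (n : ℝ) ^ (δ / 8) :=
        Real.rpow_le_rpow_of_exponent_le hn1 (by linarith)
      linarith
    · have h8 : (k : ℝ) ≤ (k + 1) ^ 3 := by
        have : (k : ℝ) + 1 ≤ (k + 1) ^ 3 := by
          apply le_self_pow₀ (by linarith) (by norm_num)
        linarith
      have hy : 0 < (n : ℝ) ^ (1 - δ / 2) := Real.rpow_pos_of_pos hn0 _
      gcongr

end Pool.Agent.Helper60.OI
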