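import Pool.Agent.Helper60.OI.Tree

/-!
The heavy and the light transcripts of a two-way protocol with Merlin.
-/

set_option autoImplicit false

namespace Pool.Agent.Helper60.OI

open Finset Pool.Agent.Helper79.NZ
open scoped Classical

section flat

set_option linter.unusedSectionVars false

variable {X Y M Q W ι : Type} [Fintype M] [Fintype Q] [Fintype ι]

/-- split the transcripts according to a label which depends on `x` -/
noncomputable def Sys.split (S : Sys X Y M Q W) (l : X → M → ι) : Sys X Y (M × ι) Q W where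
  al := fun x p => if p.2 = l x p.1 then S.al x p.1 else 0
  be := fun y p q => S.be y p.1 q
  ga := fun y p q w => S.ga y p.1 q w
  al_nonneg := fun x p => by
    split_ifs
    exacts [S.al_nonneg x p.1, le_rfl]
  al_le := fun x p => by
    split_ifs
    exacts [S.al_le x p.1, zero_le_one]
  be_le := fun y p q => S.be_le y p.1 q
  ga_nonneg := fun y p q w => S.ga_nonneg y p.1 q w
  ga_le := fun y p q w => S.ga_le y p.1 q w
  be_nonneg := fun y p q => S.be_nonneg y p.1 q

theorem split_al (S : Sys X Y M Q W) (l : X → M → ι) (x : X) (m : M) (i : ι) :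
    (S.split l).al x (m, i) = if i = l x m then S.al x m else 0 := rfl

theorem split_sum (S : Sys X Y M Q W) (l : X → M → ι) (x : X) (F : M → ℝ) :
    ∑ p : M × ι, (S.split l).al x p * F p.1 = ∑ m, S.al x m * F m := by
  rw [Fintype.sum_prod_type]
  refine sum_congr rfl fun m _ => ?_
  have h1 : ∀ i, (S.split l).al x (m, i) * F m = if i = l x m then S.al x m * F m else 0 := by
    intro i
    have e : (S.split l).al x (m, i) = if i = l x m then S.al x m else 0 := rfl
    rw [e]
    split_ifs
    exacts [rfl, zero_mul _]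
  simp only [h1]
  rw [sum_ite_eq']
  simp

theorem split_pq (S : Sys X Y M Q W) (l : X → M → ι) (x : X) (y : Y) (q : Q) :
    (S.split l).pq x y q = S.pq x y q := split_sum S l x fun m => S.be y m q

theorem split_acc (S : Sys X Y M Q W) (l : X → M → ι) (x : X) (y : Y) (σ : Q → W) :
    (S.split l).acc x y σ = S.acc x y σ :=
  sum_congr rfl fun q _ => split_sum S l x fun m => S.ga y m q (σ q)

end flat

section scale

set_option linter.unusedSectionVars false

variable {X Y M Q W : Type} [Fintype M] [Fintype Q] {c : ℕ}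

/-- the binary scale of a positive number -/
theorem exists_scale {t : ℝ} (h0 : (1 / 2) ^ (c + 1) < t) (h1 : t ≤ 1) :
    ∃ s : Fin (c + 1), t ≤ (1 / 2) ^ (s : ℕ) ∧ (1 / 2) ^ ((s : ℕ) + 1) < t := by
  have hex : ∃ s : ℕ, (1 / 2) ^ (s + 1) < t := ⟨c, h0⟩
  have hs := Nat.find_spec hex
  have hmin := fun k => Nat.find_min hex (m := k)
  have hle : Nat.find hex ≤ c := Nat.find_min' hex h0
  refine ⟨⟨Nat.find hex, by omega⟩, ?_, hs⟩
  dsimp only
  rcases Nat.eq_zero_or_pos (Nat.find hex) with h | h
  · rw [h, pow_zero]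
    exact h1
  · have h2 := hmin (Nat.find hex - 1) (by omega)
    have h3 : Nat.find hex - 1 + 1 = Nat.find hex := by omega
    rw [h3] at h2
    exact not_lt.1 h2

/-- the label of a transcript: `none` if it is light, its scale if it is heavy -/
noncomputable def lab (S : Sys X Y M Q W) (hh : M → ℝ) (c : ℕ) (x : X) (m : M) :
    Option (Fin (c + 1)) :=
  if h : hh m ≤ S.al x m ∧ (1 / 2) ^ (c + 1) < S.al x m then
    some (exists_scale h.2 (S.al_le x m)).choose
  else none

/-- the scale of a labelled transcript -/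
noncomputable def amf (hh : M → ℝ) (c : ℕ) (p : M × Option (Fin (c + 1))) : ℝ :=
  match p.2 with
  | none => hh p.1
  | some s => (1 / 2) ^ (s : ℕ)

/-- the heavy transcripts -/
def isH {c : ℕ} (p : M × Option (Fin (c + 1))) : Prop := p.2 ≠ none

theorem hl_split (S : Sys X Y M Q W) {u v : M → ℝ} (hu0 : ∀ m, 0 < u m) (hu1 : ∀ m, u m ≤ 1)
    (hv0 : ∀ m, 0 < v m) (huv : ∀ m, (1 / 2) ^ c ≤ u m * v m)
    (hal : ∀ x, ∑ m, S.al x m * u m = 1) (hbe : ∀ y, ∑ q, ∑ m, v m * S.be y m q = 1) :
    HL (S.split (lab S (fun m => √(v m / u m)) c)) (amf (fun m => √(v m / u m)) c)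
      isH √(2 ^ c) := by
  have hc : (0 : ℝ) < 2 ^ c := by positivity
  have hcc : (1 / 2 : ℝ) ^ c * 2 ^ c = 1 := by
    rw [← mul_pow]
    norm_num
  -- the threshold
  have hh0 : ∀ m, 0 < √(v m / u m) := fun m => Real.sqrt_pos.2 (div_pos (hv0 m) (hu0 m))
  have hlow : ∀ m, (1 / 2) ^ (c + 1) < √(v m / u m) := by
    intro m
    have h1 : (1 / 2 : ℝ) ^ c ≤ v m := by
      refine (huv m).trans (mul_le_of_le_one_left (hv0 m).le (hu1 m))
    have h2 : v m ≤ v m / u m := by
      rw [le_div_iff₀ (hu0 m)]
      exact mul_le_of_le_one_right (hv0 m).le (hu1 m)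
    have h3 : (1 / 2 : ℝ) ^ c ≤ 1 := pow_le_one₀ (by norm_num) (by norm_num)
    have h4 : (1 / 2 : ℝ) ^ c ≤ √(v m / u m) := by
      apply Real.le_sqrt_of_sq_le
      calc ((1 / 2 : ℝ) ^ c) ^ 2 = (1 / 2) ^ c * (1 / 2) ^ c := sq _
        _ ≤ (1 / 2) ^ c * 1 := mul_le_mul_of_nonneg_left h3 (by positivity)
        _ = (1 / 2) ^ c := mul_one _
        _ ≤ v m / u m := h1.trans h2
    refine lt_of_lt_of_le ?_ h4
    rw [pow_succ]
    have : (0 : ℝ) < (1 / 2) ^ c := by positivity
    linarith
  -- the number of possible heavy transcripts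
  have hup : ∀ m, 1 ≤ √(2 ^ c) * (√(v m / u m) * u m) := by
    intro m
    have h1 : √(v m / u m) * u m = √(u m * v m) := by
      have h2 : u m * v m = (v m / u m) * (u m) ^ 2 := by
        have := (hu0 m).ne'
        field_simp
      rw [h2, Real.sqrt_mul (div_nonneg (hv0 m).le (hu0 m).le), Real.sqrt_sq (hu0 m).le]
    rw [h1, ← Real.sqrt_mul hc.le, Real.one_le_sqrt]
    have h2 := mul_le_mul_of_nonneg_left (huv m) hc.le
    rw [mul_comm, hcc] at h2
    exact h2
  -- the light transcripts
  have hli : ∀ m, √(v m / u m) ≤ √(2 ^ c) * v m := by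
    intro m
    have h1 : √(2 ^ c) * v m = √(2 ^ c * (v m) ^ 2) := by
      rw [Real.sqrt_mul hc.le, Real.sqrt_sq (hv0 m).le]
    rw [h1]
    apply Real.sqrt_le_sqrt
    rw [div_le_iff₀ (hu0 m)]
    have h2 := mul_le_mul_of_nonneg_left (huv m) hc.le
    rw [mul_comm, hcc] at h2
    have h3 := mul_le_mul_of_nonneg_left h2 (hv0 m).le
    calc v m = v m * 1 := (mul_one _).symm
      _ ≤ v m * (2 ^ c * (u m * v m)) := h3
      _ = 2 ^ c * v m ^ 2 * u m := by ring
  have hspec : ∀ x m s, lab S (fun m => √(v m / u m)) c x m = some s →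
      √(v m / u m) ≤ S.al x m ∧ S.al x m ≤ (1 / 2) ^ (s : ℕ) ∧
        (1 / 2) ^ ((s : ℕ) + 1) < S.al x m := by
    intro x m s hs
    rw [lab] at hs
    split_ifs at hs with h
    have h1 := (exists_scale h.2 (S.al_le x m)).choose_spec
    rw [Option.some.injEq] at hs
    rw [hs] at h1
    exact ⟨h.1, h1⟩
  have hnone : ∀ x m, lab S (fun m => √(v m / u m)) c x m = none → S.al x m ≤ √(v m / u m) := by
    intro x m hs
    rw [lab] at hs
    split_ifs at hs with h
    by_contra h1
    push Not at h1
    exact h ⟨h1.le, (hlow m).trans h1⟩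
  constructor
  · rintro x ⟨m, i⟩
    rw [split_al]
    split_ifs with h
    · cases i with
      | none => exact hnone x m h.symm
      | some s => exact (hspec x m s h.symm).2.1
    · cases i with
      | none => exact (hh0 m).le
      | some s =>
        show (0 : ℝ) ≤ (1 / 2) ^ (s : ℕ)
        positivity
  · rintro ⟨m, i⟩ h
    cases i with
    | none => exact absurd rfl h
    | some s => exact pow_le_one₀ (by norm_num) (by norm_num)
  · rintro x ⟨m, i⟩ h h2
    rw [split_al] at h2 ⊢
    split_ifs at h2 ⊢ with h3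
    · cases i with
      | none => exact absurd rfl h
      | some s =>
        have h4 := (hspec x m s h3.symm).2.2
        rw [pow_succ] at h4
        show (1 / 2 : ℝ) ^ (s : ℕ) ≤ 2 * S.al x m
        linarith
    · exact absurd rfl h2
  · intro x
    rw [Fintype.sum_prod_type]
    have h1 : ∀ m, (∑ i : Option (Fin (c + 1)), if isH (m, i) ∧
        (S.split (lab S (fun m => √(v m / u m)) c)).al x (m, i) ≠ 0 then (1 : ℝ) else 0) ≤
        √(2 ^ c) * (S.al x m * u m) := by
      intro m
      have h2 : ∀ i : Option (Fin (c + 1)), (if isH (m, i) ∧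
        (S.split (lab S (fun m => √(v m / u m)) c)).al x (m, i) ≠ 0 then (1 : ℝ) else 0) ≤
        if i = lab S (fun m => √(v m / u m)) c x m then √(2 ^ c) * (S.al x m * u m) else 0 := by
        intro i
        rw [split_al]
        have hnn : 0 ≤ √(2 ^ c) * (S.al x m * u m) :=
          mul_nonneg (Real.sqrt_nonneg _) (mul_nonneg (S.al_nonneg x m) (hu0 m).le)
        by_cases h3 : i = lab S (fun m => √(v m / u m)) c x m
        · rw [if_pos h3, if_pos h3]
          split_ifs with h4
          · cases i with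
            | none => exact absurd rfl h4.1
            | some s =>
              have h5 := (hspec x m s h3.symm).1
              refine (hup m).trans (mul_le_mul_of_nonneg_left ?_ (Real.sqrt_nonneg _))
              exact mul_le_mul_of_nonneg_right h5 (hu0 m).le
          · exact hnn
        · rw [if_neg h3, if_neg h3]
          simp
      refine (sum_le_sum fun i _ => h2 i).trans (le_of_eq ?_)
      rw [sum_ite_eq']
      simp
    refine (sum_le_sum fun m _ => h1 m).trans (le_of_eq ?_)
    rw [← mul_sum, hal x, mul_one]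
  · intro y
    have h1 : ∀ q, (∑ p : M × Option (Fin (c + 1)), if isH p then 0 else
        amf (fun m => √(v m / u m)) c p *
          (S.split (lab S (fun m => √(v m / u m)) c)).be y p q) =
        ∑ m, √(v m / u m) * S.be y m q := by
      intro q
      rw [Fintype.sum_prod_type]
      refine sum_congr rfl fun m _ => ?_
      rw [Fintype.sum_option, if_neg (show ¬ isH (c := c) (m, none) from fun h => h rfl)]
      have h2 : ∀ s : Fin (c + 1), isH (m, some s) := fun s h => by cases h
      simp only [h2, if_true, sum_const_zero, add_zero]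
      rfl
    simp only [h1]
    calc ∑ q, ∑ m, √(v m / u m) * S.be y m q ≤ ∑ q, ∑ m, √(2 ^ c) * (v m * S.be y m q) := by
          refine sum_le_sum fun q _ => sum_le_sum fun m _ => ?_
          rw [← mul_assoc]
          exact mul_le_mul_of_nonneg_right (hli m) (S.be_nonneg y m q)
      _ = √(2 ^ c) := by
          simp only [← mul_sum]
          rw [hbe y, mul_one]

end scale

/-- the weights of a two-way protocol with Merlin, with heavy and light transcripts -/
theorem exists_hl {X Y : Type} {c e b a : ℕ} (N : Tip X Y c e b a) :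
    ∃ (M : Type) (_ : Fintype M) (S : Sys X Y M (Fin b → Bool) (Fin a → Bool)) (am : M → ℝ)
      (hv : M → Prop),
    (Fintype.card M : ℝ) ≤ 2 ^ (2 * c + 1) ∧ (∀ x y q, S.pq x y q = N.pq x y q) ∧
    (∀ x y σ, S.acc x y σ = N.acc x y σ) ∧ HL S am hv √(2 ^ c) := by
  obtain ⟨M, i, S, u, v, h1, h2, h3, hu0, hu1, hv0, -, huv, hal, hbe, -⟩ := exists_sysw N
  refine ⟨M × Option (Fin (c + 1)), inferInstance, S.split (lab S (fun m => √(v m / u m)) c),
    amf (fun m => √(v m / u m)) c, isH, ?_, fun x y q => ?_, fun x y σ => ?_,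
    hl_split S hu0 hu1 hv0 huv hal hbe⟩
  · rw [Fintype.card_prod, Fintype.card_option, Fintype.card_fin]
    push_cast
    have h4 : (c : ℝ) + 1 + 1 ≤ 2 ^ (c + 1) := by
      have h5 : c + 2 ≤ 2 ^ (c + 1) := by
        have : c + 1 < 2 ^ (c + 1) := Nat.lt_two_pow_self
        omega
      have h6 : ((c + 2 : ℕ) : ℝ) ≤ ((2 ^ (c + 1) : ℕ) : ℝ) := by exact_mod_cast h5
      push_cast at h6
      linarith
    calc (Fintype.card M : ℝ) * (c + 1 + 1) ≤ 2 ^ c * 2 ^ (c + 1) :=
          mul_le_mul h1 h4 (by positivity) (by positivity)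
      _ = 2 ^ (2 * c + 1) := by
          rw [← pow_add]
          congr 1
          ring
  · rw [split_pq, h2]
  · rw [split_acc, h3]

end Pool.Agent.Helper60.OI
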