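import Pool.Agent.Helper60.OI.Core

/-!
Heavy and light transcripts: the main inequality for systems of weights in which few transcripts
are heavy and the light ones are dominated.
-/

set_option autoImplicit false

namespace Pool.Agent.Helper60.OI

open Finset Pool.Agent.Helper79.NZ
open scoped Classical

/-- telescoping sums of almost 0-1-valued functions -/
theorem tele {V τ : ℕ → ℝ} {I s : ℕ} {δ U : ℝ} (hδ : 0 ≤ δ) (hs1 : 1 ≤ s) (hs : s ≤ I + 1)
    (h1 : ∀ i, i < s → V i = 1) (h2 : ∀ i, s ≤ i → |V i| ≤ δ) (hτ0 : ∀ i, 0 ≤ τ i)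
    (hτ : ∀ i, τ i ≤ U) :
    |∑ i ∈ range (I + 1), (V i - V (i + 1)) * τ (i + 1) - τ s| ≤ 2 * δ * (I + 1) * U := by
  have hU : 0 ≤ U := (hτ0 0).trans (hτ 0)
  have e : τ s = ∑ i ∈ range (I + 1), (if i + 1 = s then 1 else 0) * τ (i + 1) := by
    rw [sum_eq_single (s - 1)]
    · have h : s - 1 + 1 = s := by omega
      rw [h, if_pos rfl, one_mul]
    · intro i _ hi
      rw [if_neg (by omega), zero_mul]
    · intro h
      exact absurd (mem_range.2 (by omega)) h
  rw [e, ← sum_sub_distrib]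
  refine (abs_sum_le_sum_abs _ _).trans ?_
  have hb : ∀ i ∈ range (I + 1), |(V i - V (i + 1)) * τ (i + 1) -
      (if i + 1 = s then 1 else 0) * τ (i + 1)| ≤ 2 * δ * U := by
    intro i _
    rw [← sub_mul, abs_mul, abs_of_nonneg (hτ0 _)]
    refine mul_le_mul ?_ (hτ _) (hτ0 _) (by positivity)
    rcases lt_trichotomy (i + 1) s with h | h | h
    · rw [if_neg (by omega), h1 i (by omega), h1 (i + 1) h]
      simp only [sub_self, abs_zero]
      positivity
    · rw [if_pos h, h1 i (by omega)]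
      have := h2 (i + 1) (by omega)
      rw [show (1 : ℝ) - V (i + 1) - 1 = -V (i + 1) by ring, abs_neg]
      linarith
    · rw [if_neg (by omega), sub_zero]
      refine (abs_sub _ _).trans ?_
      have ha := h2 (i + 1) (by omega)
      have hb := h2 i (by omega)
      linarith
  calc ∑ i ∈ range (I + 1), |(V i - V (i + 1)) * τ (i + 1) -
      (if i + 1 = s then 1 else 0) * τ (i + 1)| ≤ ∑ _i ∈ range (I + 1), 2 * δ * U :=
        sum_le_sum hb
    _ = _ := by
        rw [sum_const, card_range, nsmul_eq_mul]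
        push_cast
        ring

section general

set_option linter.unusedSectionVars false

variable {X Y M Q W : Type} [Fintype M] [Fintype Q]

/-- remove some transcripts -/
noncomputable def Sys.cut (N : Sys X Y M Q W) (keep : Y → M → Q → Prop) : Sys X Y M Q W where
  al := N.al
  be := fun y m q => if keep y m q then N.be y m q else 0
  ga := fun y m q w => if keep y m q then N.ga y m q w else 0
  al_nonneg := N.al_nonneg
  al_le := N.al_le
  be_le := fun y m q => by
    split_ifs
    exacts [N.be_le y m q, zero_le_one]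
  ga_nonneg := fun y m q w => by
    split_ifs
    exacts [N.ga_nonneg y m q w, le_rfl]
  ga_le := fun y m q w => by
    split_ifs
    exacts [N.ga_le y m q w, le_rfl]
  be_nonneg := fun y m q => by
    split_ifs
    exacts [N.be_nonneg y m q, le_rfl]

/-- Heavy transcripts (`hv`) and light transcripts: the scale `am m` bounds `al x m`, is correct up
to a factor `2` for the heavy transcripts, at most `K` heavy transcripts are possible for each `x`,
and the light transcripts are dominated by weights of total mass `K`. -/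
structure HL (N : Sys X Y M Q W) (am : M → ℝ) (hv : M → Prop) (K : ℝ) : Prop where
  al_le : ∀ x m, N.al x m ≤ am m
  am_le : ∀ m, hv m → am m ≤ 1
  le_al : ∀ x m, hv m → N.al x m ≠ 0 → am m ≤ 2 * N.al x m
  card_le : ∀ x, ∑ m, (if hv m ∧ N.al x m ≠ 0 then (1 : ℝ) else 0) ≤ K
  light : ∀ y, ∑ q, ∑ m, (if hv m then 0 else am m * N.be y m q) ≤ K

variable (N : Sys X Y M Q W) (am : M → ℝ) (hv : M → Prop) (K : ℝ)

/-- the weight of the light transcripts -/
noncomputable def lig (y : Y) (q : Q) : ℝ := ∑ m, (if hv m then 0 else am m * N.be y m q)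

/-- the number of heavy transcripts above level `i` -/
noncomputable def cnt (i : ℕ) (x : X) (y : Y) (q : Q) : ℝ :=
  ∑ m, (if hv m ∧ N.al x m ≠ 0 then (1 : ℝ) else 0) *
    (if (1 / 2) ^ i < am m * N.be y m q then (1 : ℝ) else 0)

/-- the transcripts which are kept at level `i` -/
def keep (i : ℕ) (y : Y) (m : M) (q : Q) : Prop := hv m → am m * N.be y m q ≤ 2 * (1 / 2) ^ i

/-- the bound for the probability of the question after the cut at level `i` -/
noncomputable def kap (i : ℕ) (y : Y) (q : Q) : ℝ := lig N am hv y q + 2 * K * (1 / 2) ^ i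

variable {N am hv K}

theorem am_nonneg [Nonempty X] (h : HL N am hv K) (m : M) : 0 ≤ am m := by
  obtain ⟨x⟩ := ‹Nonempty X›
  exact (N.al_nonneg x m).trans (h.al_le x m)

theorem lig_nonneg [Nonempty X] (h : HL N am hv K) (y : Y) (q : Q) : 0 ≤ lig N am hv y q :=
  sum_nonneg fun m _ => by
    split_ifs
    exacts [le_rfl, mul_nonneg (am_nonneg h m) (N.be_nonneg y m q)]

/-- after the cut the probability of the question is at most `kap` -/
theorem cut_pq_le [Nonempty X] (h : HL N am hv K) (i : ℕ) (x : X) (y : Y) (q : Q) :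
    (N.cut (keep N am hv i)).pq x y q ≤ kap N am hv K i y q := by
  rw [Sys.pq, kap]
  have h1 : ∀ m, (N.cut (keep N am hv i)).al x m * (N.cut (keep N am hv i)).be y m q ≤
      (if hv m then 0 else am m * N.be y m q) +
        2 * (1 / 2) ^ i * (if hv m ∧ N.al x m ≠ 0 then (1 : ℝ) else 0) := by
    intro m
    have e1 : (N.cut (keep N am hv i)).al x m = N.al x m := rfl
    have e2 : (N.cut (keep N am hv i)).be y m q =
        if keep N am hv i y m q then N.be y m q else 0 := rfl
    rw [e1, e2]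
    have ham := am_nonneg h m
    have hbe := N.be_nonneg y m q
    have hal := N.al_nonneg x m
    have hle := h.al_le x m
    by_cases hm : hv m
    · rw [if_pos hm]
      by_cases h0 : N.al x m = 0
      · rw [h0, zero_mul]
        simp
      · rw [if_pos (show hv m ∧ N.al x m ≠ 0 from ⟨hm, h0⟩), zero_add, mul_one]
        split_ifs with hk
        · exact (mul_le_mul_of_nonneg_right hle hbe).trans (hk hm)
        · rw [mul_zero]
          positivity
    · have hk : keep N am hv i y m q := fun h' => absurd h' hm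
      rw [if_neg hm, if_pos hk, if_neg (fun h' => hm h'.1), mul_zero, add_zero]
      exact mul_le_mul_of_nonneg_right hle hbe
  refine (sum_le_sum fun m _ => h1 m).trans ?_
  rw [sum_add_distrib, ← mul_sum]
  have h2 := mul_le_mul_of_nonneg_left (h.card_le x) (by positivity : (0 : ℝ) ≤ 2 * (1 / 2) ^ i)
  have h3 : 2 * (1 / 2) ^ i * K = 2 * K * (1 / 2) ^ i := by ring
  rw [h3] at h2
  exact add_le_add le_rfl h2

theorem cut_pq_le_pq (p : Y → M → Q → Prop) (x : X) (y : Y) (q : Q) :
    (N.cut p).pq x y q ≤ N.pq x y q := by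
  refine sum_le_sum fun m _ => mul_le_mul_of_nonneg_left ?_ (N.al_nonneg x m)
  have e2 : (N.cut p).be y m q = if p y m q then N.be y m q else 0 := rfl
  rw [e2]
  split_ifs
  exacts [le_rfl, N.be_nonneg y m q]

theorem cnt_nonneg (i : ℕ) (x : X) (y : Y) (q : Q) : 0 ≤ cnt N am hv i x y q :=
  sum_nonneg fun m _ => mul_nonneg (by split_ifs <;> norm_num) (by split_ifs <;> norm_num)

theorem cnt_le (h : HL N am hv K) (i : ℕ) (x : X) (y : Y) (q : Q) : cnt N am hv i x y q ≤ K := by
  refine (sum_le_sum fun m _ => ?_).trans (h.card_le x)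
  refine mul_le_of_le_one_right (by split_ifs <;> norm_num) (by split_ifs <;> norm_num)

/-- the count is `0` or at least `1` -/
theorem cnt_one_le {i : ℕ} {x : X} {y : Y} {q : Q} {m : M} (h1 : hv m) (h2 : N.al x m ≠ 0)
    (h3 : (1 / 2) ^ i < am m * N.be y m q) : 1 ≤ cnt N am hv i x y q := by
  have h4 := single_le_sum (s := univ) (f := fun m => (if hv m ∧ N.al x m ≠ 0 then (1 : ℝ) else 0) *
    (if (1 / 2) ^ i < am m * N.be y m q then (1 : ℝ) else 0)) (fun m _ =>
      mul_nonneg (by split_ifs <;> norm_num) (by split_ifs <;> norm_num)) (mem_univ m)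
  refine le_trans ?_ h4
  rw [if_pos ⟨h1, h2⟩, if_pos h3, one_mul]

theorem cnt_zero_of {i : ℕ} {x : X} {y : Y} {q : Q}
    (h : ∀ m, hv m → N.al x m ≠ 0 → am m * N.be y m q ≤ (1 / 2) ^ i) :
    cnt N am hv i x y q = 0 := by
  refine sum_eq_zero fun m _ => ?_
  by_cases h1 : hv m ∧ N.al x m ≠ 0
  · rw [if_neg (not_lt.2 (h m h1.1 h1.2)), mul_zero]
  · rw [if_neg h1, zero_mul]

/-- if there are no heavy transcripts above level `i`, the cut at level `i + 1` changes nothing -/
theorem cut_eq {i : ℕ} {x : X} {y : Y} {q : Q}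
    (h : ∀ m, hv m → N.al x m ≠ 0 → am m * N.be y m q ≤ (1 / 2) ^ i) :
    (N.cut (keep N am hv (i + 1))).pq x y q = N.pq x y q ∧
    ∀ w, ∑ m, (N.cut (keep N am hv (i + 1))).wt x y q m *
      (N.cut (keep N am hv (i + 1))).de y q m w = ∑ m, N.wt x y q m * N.de y q m w := by
  have hk : ∀ m, N.al x m ≠ 0 → keep N am hv (i + 1) y m q := by
    intro m h0 hm
    refine (h m hm h0).trans (le_of_eq ?_)
    rw [pow_succ]
    ring
  constructor
  · rw [Sys.pq, Sys.pq]
    refine sum_congr rfl fun m _ => ?_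
    have e1 : (N.cut (keep N am hv (i + 1))).al x m = N.al x m := rfl
    have e2 : (N.cut (keep N am hv (i + 1))).be y m q =
        if keep N am hv (i + 1) y m q then N.be y m q else 0 := rfl
    rw [e1, e2]
    by_cases h0 : N.al x m = 0
    · rw [h0, zero_mul, zero_mul]
    · rw [if_pos (hk m h0)]
  · intro w
    rw [Sys.wt_de, Sys.wt_de]
    refine sum_congr rfl fun m _ => ?_
    have e1 : (N.cut (keep N am hv (i + 1))).al x m = N.al x m := rfl
    have e2 : (N.cut (keep N am hv (i + 1))).ga y m q w =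
        if keep N am hv (i + 1) y m q then N.ga y m q w else 0 := rfl
    rw [e1, e2]
    by_cases h0 : N.al x m = 0
    · rw [h0, zero_mul, zero_mul]
    · rw [if_pos (hk m h0)]

/-- the level of the heaviest heavy transcript -/
theorem exists_level (h : HL N am hv K) (I : ℕ) (x : X) (y : Y) (q : Q) :
    ∃ s, 1 ≤ s ∧ s ≤ I + 1 ∧
      (∀ m, hv m → N.al x m ≠ 0 → am m * N.be y m q ≤ (1 / 2) ^ (s - 1)) ∧
      (s ≤ I → ∃ m, hv m ∧ N.al x m ≠ 0 ∧ (1 / 2) ^ s < am m * N.be y m q) := by
  have hex : ∃ s, s = I + 1 ∨ ∃ m, hv m ∧ N.al x m ≠ 0 ∧ (1 / 2) ^ s < am m * N.be y m q :=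
    ⟨I + 1, Or.inl rfl⟩
  have hs := Nat.find_spec hex
  have hmin := fun t => Nat.find_min hex (m := t)
  set s := Nat.find hex with hsd
  have hs1 : 1 ≤ s := by
    by_contra h0
    have h0 : s = 0 := by omega
    rw [h0] at hs
    rcases hs with hs | ⟨m, hm, h1, h2⟩
    · omega
    · rw [pow_zero] at h2
      have h3 : am m * N.be y m q ≤ 1 := by
        have h4 := h.am_le m hm
        have h5 : 0 ≤ am m := (N.al_nonneg x m).trans (h.al_le x m)
        exact mul_le_one₀ h4 (N.be_nonneg y m q) (N.be_le y m q)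
      linarith
  refine ⟨s, hs1, ?_, ?_, ?_⟩
  · exact Nat.find_min' hex (Or.inl rfl)
  · intro m hm h1
    by_contra h2
    push Not at h2
    exact hmin (s - 1) (by omega) (Or.inr ⟨m, hm, h1, h2⟩)
  · intro h1
    rcases hs with hs | hs
    · omega
    · exact hs

end general

section ip

set_option linter.unusedSectionVars false

variable {n c b a : ℕ} {M Q W : Type} [Fintype M] [Fintype Q] [Fintype W] [Nonempty W]
  (N : Sys (V n) (V n) M Q W) (am : M → ℝ) (hv : M → Prop) (K : ℝ)

/-- the level functions: `1` below the level of the heaviest transcript, almost `0` above -/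
noncomputable def lev (t0 : ℝ) (m j I : ℕ) (q : Q) (i : ℕ) (x y : V n) : ℝ :=
  if i ≤ I then vp (cA t0) (cX t0) m (cnt N am hv i x y q / K) ^ j else 0

/-- the contribution of one question to the test function -/
noncomputable def qt (t0 : ℝ) (T m j I : ℕ) (q : Q) (x y : V n) : ℝ :=
  ∑ i ∈ range (I + 1), (lev N am hv K t0 m j I q i x y - lev N am hv K t0 m j I q (i + 1) x y) *
    (N.cut (keep N am hv (i + 1))).term (kap N am hv K (i + 1) y q) t0 T m j q x y

variable {N am hv K}

theorem op_cnt (hK : 1 ≤ K) (hM : (Fintype.card M : ℝ) ≤ 2 ^ c) (i : ℕ) (q : Q) :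
    Op n (2 ^ c) (fun x y => cnt N am hv i x y q / K) := by
  have hK0 : 0 < K := by linarith
  have h2 := Op.sum (n := n) (univ : Finset M) (B := fun _ => 1)
    (θ := fun m x y => (if hv m ∧ N.al x m ≠ 0 then (1 : ℝ) else 0) *
      ((if (1 / 2) ^ i < am m * N.be y m q then (1 : ℝ) else 0) / K))
    (fun m => op_rank one_pos (fun x => by split_ifs <;> simp) (fun y => by
      rw [abs_div, abs_of_pos hK0, div_le_one hK0]
      split_ifs
      · simpa using hK
      · simp only [abs_zero]
        linarith))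
  refine (h2.congr fun x y => ?_).mono ?_
  · rw [cnt, sum_div]
    exact sum_congr rfl fun m _ => by rw [mul_div_assoc]
  · rw [sum_const, card_univ, nsmul_eq_mul, mul_one]
    exact hM

theorem op_lev (hK : 1 ≤ K) (hM : (Fintype.card M : ℝ) ≤ 2 ^ c) {t0 : ℝ}
    (h0 : 0 < t0) (h1 : t0 ≤ 1 / 12) {m j I : ℕ} (hT : 2 ≤ tc m (cX t0)) (i : ℕ) (q : Q) :
    Op n ((16 * 2 ^ (c + b)) ^ (m * j)) (fun x y => lev N am hv K t0 m j I q i x y) := by
  have hB : (1 : ℝ) ≤ 2 ^ (c + b) := one_le_pow₀ (by norm_num)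
  have hp : (0 : ℝ) ≤ (16 * 2 ^ (c + b)) ^ m := by positivity
  by_cases hi : i ≤ I
  · have h2 := (op_cnt (N := N) (am := am) (hv := hv) (K := K) hK hM i q).mono
      (pow_le_pow_right₀ (by norm_num) (Nat.le_add_right c b) : (2 : ℝ) ^ c ≤ 2 ^ (c + b))
    have h3 := (op_vp h0 h1 hT h2 hB).pow hp j
    refine (h3.congr fun x y => by rw [lev, if_pos hi]).mono (le_of_eq ?_)
    rw [pow_mul]
  · have h2 := op_const (n := n) 0
    refine (h2.congr fun x y => by rw [lev, if_neg hi]).mono ?_
    rw [abs_zero]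
    positivity

theorem kap_ge (h : HL N am hv K) (hK : 1 ≤ K) {i : ℕ} (hi : i ≤ b + 1) (y : V n) (q : Q) :
    1 / 2 ^ b ≤ kap N am hv K i y q := by
  have h1 := lig_nonneg h y q
  have h2 : (1 / 2 : ℝ) ^ (b + 1) ≤ (1 / 2) ^ i :=
    pow_le_pow_of_le_one (by norm_num) (by norm_num) hi
  have h3 : (1 : ℝ) / 2 ^ b = 2 * (1 / 2) ^ (b + 1) := by
    rw [pow_succ, one_div_pow]
    ring
  have h4 : (0 : ℝ) < (1 / 2) ^ i := by positivity
  rw [kap, h3]
  nlinarith

theorem cor_sum_mem {ι : Type} (s : Finset ι) {F : ι → V n → V n → ℝ} {R : ℝ} (hR : 0 ≤ R)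
    (h : ∀ i ∈ s, Cor n R (F i)) : Cor n (s.card * R) (fun x y => ∑ i ∈ s, F i x y) := by
  have h0 : Cor n R (fun _ _ => 0) := by
    refine ((cor_one (n := n).smul 0).congr fun x y => ?_).mono ?_
    · ring
    · rw [abs_zero, zero_mul]
      exact hR
  have h1 := Cor.sum s (F := fun i x y => if i ∈ s then F i x y else 0) (K := R) (fun i => by
    by_cases hi : i ∈ s
    · simpa only [hi, if_true] using h i hi
    · simpa only [hi, if_false] using h0)
  refine h1.congr fun x y => sum_congr rfl fun i hi => ?_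
  rw [if_pos hi]

/-- the correlation bound for the test function -/
theorem cor_qt (h : HL N am hv K) (hK : 1 ≤ K)
    (hM : (Fintype.card M : ℝ) ≤ 2 ^ c) (hQ : (Fintype.card Q : ℝ) ≤ 2 ^ b) {t0 : ℝ}
    (h0 : 0 < t0) (h1 : t0 ≤ 1 / 12) {T m j : ℕ} (hT1 : 1 ≤ T) (hT : 2 ≤ tc m (cX t0))
    (hm : 1 ≤ m) (hj : 1 ≤ j) :
    Cor n (2 ^ b * ((b + 1) * (2 * (16 * 2 ^ (c + b)) ^ (m * j) *
      ((2 ^ (c + b)) ^ T * ((32 * 2 ^ (c + b)) ^ (m * j)) ^ (T - 1)))))
      (fun x y => ∑ q, qt N am hv K t0 T m j b q x y) := by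
  have hq : ∀ q : Q, Cor n ((b + 1) * (2 * (16 * 2 ^ (c + b)) ^ (m * j) *
      ((2 ^ (c + b)) ^ T * ((32 * 2 ^ (c + b)) ^ (m * j)) ^ (T - 1))))
      (fun x y => qt N am hv K t0 T m j b q x y) := by
    intro q
    have hterm : ∀ i ∈ range (b + 1), Cor n (2 * (16 * 2 ^ (c + b)) ^ (m * j) *
      ((2 ^ (c + b)) ^ T * ((32 * 2 ^ (c + b)) ^ (m * j)) ^ (T - 1)))
      (fun x y => (lev N am hv K t0 m j b q i x y - lev N am hv K t0 m j b q (i + 1) x y) *
        (N.cut (keep N am hv (i + 1))).term (kap N am hv K (i + 1) y q) t0 T m j q x y) := by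
      intro i hi
      have hi := mem_range.1 hi
      have hle : ∀ y, (1 : ℝ) / 2 ^ b ≤ kap N am hv K (i + 1) y q := fun y =>
        kap_ge h hK (by omega) y q
      have hpos : ∀ y, 0 < kap N am hv K (i + 1) y q := fun y =>
        lt_of_lt_of_le (by positivity) (hle y)
      have e1 := op_term (N.cut (keep N am hv (i + 1))) (n := n) (c := c) (b := b)
        (κ := fun _ y => kap N am hv K (i + 1) y q)
        (u := fun _ => 1) (v := fun y => (kap N am hv K (i + 1) y q)⁻¹)
        (fun _ => zero_le_one) (fun _ => le_rfl) (fun y => (inv_pos.2 (hpos y)).le)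
        (fun y => by
          have := inv_anti₀ (by positivity) (hle y)
          simpa using this)
        (fun x y => (one_mul _).symm) hM h0 h1 hT1 hT hm hj q
      have e2 := (op_lev (N := N) (am := am) (hv := hv) (b := b) hK hM h0 h1 (j := j) (I := b)
        hT i q).add ((op_lev (N := N) (am := am) (hv := hv) (b := b) hK hM h0 h1 (j := j) (I := b)
        hT (i + 1) q).smul (-1) (by positivity))
      have e3 := (e2.mul e1 (by positivity)) 1 (fun _ _ => 1) zero_le_one cor_one
      refine (e3.congr fun x y => ?_).mono (le_of_eq ?_)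
      · ring
      · rw [abs_neg, abs_one]
        ring
    have h5 : Cor n (∑ _i ∈ range (b + 1), (2 * (16 * 2 ^ (c + b)) ^ (m * j) *
      ((2 ^ (c + b)) ^ T * ((32 * 2 ^ (c + b)) ^ (m * j)) ^ (T - 1))))
      (fun x y => ∑ i ∈ range (b + 1),
        (lev N am hv K t0 m j b q i x y - lev N am hv K t0 m j b q (i + 1) x y) *
        (N.cut (keep N am hv (i + 1))).term (kap N am hv K (i + 1) y q) t0 T m j q x y) := by
      have h6 := cor_sum_mem (range (b + 1)) (by positivity) hterm
      refine h6.mono (le_of_eq ?_)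
      rw [sum_const, nsmul_eq_mul]
    refine (h5.congr fun x y => by rw [qt]).mono (le_of_eq ?_)
    rw [sum_const, card_range, nsmul_eq_mul]
    push_cast
    ring
  have h4 := Cor.sum (univ : Finset Q) hq
  refine h4.mono ?_
  rw [card_univ]
  exact mul_le_mul_of_nonneg_right hQ (by positivity)

theorem lev_eq_one {t0 : ℝ} {m j I : ℕ} (hT : 2 ≤ tc m (cX t0)) (hm : Odd m) {i : ℕ}
    (hi : i ≤ I) {q : Q} {x y : V n} (h : cnt N am hv i x y q = 0) :
    lev N am hv K t0 m j I q i x y = 1 := by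
  rw [lev, if_pos hi, h, zero_div, vp, mul_zero, zero_sub, tc_odd hm, neg_neg,
    div_self (by linarith), one_pow]

theorem lev_small {t0 : ℝ} (h0 : 0 < t0) (h1 : t0 < 1) (hK : 1 ≤ K) (hKt : t0 ≤ 1 / K)
    {m j I : ℕ} (hT : 2 ≤ tc m (cX t0)) (h : HL N am hv K) {i : ℕ} {q : Q} {x y : V n}
    (hi : i ≤ I → 1 ≤ cnt N am hv i x y q) :
    |lev N am hv K t0 m j I q i x y| ≤ (1 / 2) ^ j := by
  have hK0 : 0 < K := by linarith
  by_cases hI : i ≤ I
  · rw [lev, if_pos hI, abs_pow]
    refine pow_le_pow_left₀ (abs_nonneg _) (vp_mid h0 h1 hT ?_ ?_) j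
    · exact hKt.trans (div_le_div_of_nonneg_right (hi hI) hK0.le)
    · rw [div_le_one hK0]
      exact cnt_le h i x y q
  · rw [lev, if_neg hI, abs_zero]
    positivity

/-- one question: the test function is close to the term at the level of the heaviest transcript -/
theorem qt_bounds (h : HL N am hv K) (hK : 1 ≤ K) (hW : (Fintype.card W : ℝ) ≤ 2 ^ a)
    {t0 : ℝ} (ht0 : t0 = 1 / (288 * K)) {T m j : ℕ} (hTa : 5184 * (a + 1) ≤ T)
    (hTe : Even (T - 1)) (hTj : 80 * T ≤ 2 ^ j) (hT : 2 ≤ tc m (cX t0)) (hm : Odd m)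
    (hj : Odd j) (x y : V n) (q : Q) :
    (∀ S : ℝ, (∀ w, ∑ m, N.wt x y q m * N.de y q m w ≤ S) →
      qt N am hv K t0 T m j b q x y ≤ 80 / 79 * (73 / 72 * S + 1 / 72 * N.pq x y q) +
        2 * (1 / 2) ^ j * (b + 1) * (2 * N.pq x y q)) ∧
    (∀ w, 79 / 80 * ((∑ m, N.wt x y q m * N.de y q m w) -
      (72 / 71 * t0 * lig N am hv y q + t0 * K * (1 / 2) ^ b)) -
        2 * (1 / 2) ^ j * (b + 1) * (2 * N.pq x y q) ≤ qt N am hv K t0 T m j b q x y) := by
  have hK0 : 0 < K := by linarith
  have h0 : 0 < t0 := by rw [ht0]; positivity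
  have hKt : t0 ≤ 1 / K := by
    rw [ht0]
    apply one_div_le_one_div_of_le hK0
    linarith
  have h1 : t0 < 1 := by
    rw [ht0, div_lt_one (by positivity)]
    linarith
  have hT1 : 1 ≤ T := by omega
  have hkpos : ∀ i, 0 < kap N am hv K i y q := fun i => by
    have := lig_nonneg h y q
    rw [kap]
    positivity
  have hP0 : 0 ≤ N.pq x y q := N.pq_nonneg x y q
  obtain ⟨s, hs1, hs2, hs3, hs4⟩ := exists_level h b x y q
  obtain ⟨hpq, hwd⟩ := cut_eq (N := N) (am := am) (hv := hv) (i := s - 1) hs3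
  have hss : s - 1 + 1 = s := by omega
  rw [hss] at hpq hwd
  -- the terms
  have hτ0 : ∀ i, 0 ≤ (N.cut (keep N am hv i)).term (kap N am hv K i y q) t0 T m j q x y :=
    fun i => term_nonneg _ (hkpos i) hTe q x y
  have hτ : ∀ i, (N.cut (keep N am hv i)).term (kap N am hv K i y q) t0 T m j q x y ≤
      2 * N.pq x y q := by
    intro i
    have h2 := term_no (N.cut (keep N am hv i)) (a := a) hW h0 h1 hTa hTe hTj hT hm hj
      (x := x) (y := y) (q := q) (hkpos i) (cut_pq_le h i x y q)
      (S := (N.cut (keep N am hv i)).pq x y q) (fun w => by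
        rw [← Sys.wt_sum]
        refine sum_le_sum fun m _ => mul_le_of_le_one_right (Sys.wt_nonneg _ x y q m) ?_
        exact Sys.de_le _ y m q w)
    have h3 := cut_pq_le_pq (N := N) (keep N am hv i) x y q
    linarith
  have htele := tele (V := fun i => lev N am hv K t0 m j b q i x y)
    (τ := fun i => (N.cut (keep N am hv i)).term (kap N am hv K i y q) t0 T m j q x y)
    (I := b) (s := s) (δ := (1 / 2) ^ j) (U := 2 * N.pq x y q) (by positivity) hs1 hs2
    (fun i hi => lev_eq_one hT hm (by omega) (cnt_zero_of fun m hm1 hm2 =>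
      (hs3 m hm1 hm2).trans (pow_le_pow_of_le_one (by norm_num) (by norm_num) (by omega))))
    (fun i hi => lev_small h0 h1 hK hKt hT h fun hib => by
      obtain ⟨m, hm1, hm2, hm3⟩ := hs4 (by omega)
      exact cnt_one_le hm1 hm2 (lt_of_le_of_lt
        (pow_le_pow_of_le_one (by norm_num) (by norm_num) hi) hm3)) hτ0 hτ
  have hqt : qt N am hv K t0 T m j b q x y = ∑ i ∈ range (b + 1),
      (lev N am hv K t0 m j b q i x y - lev N am hv K t0 m j b q (i + 1) x y) *
      (N.cut (keep N am hv (i + 1))).term (kap N am hv K (i + 1) y q) t0 T m j q x y := rfl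
  rw [← hqt] at htele
  have hab := abs_le.1 htele
  constructor
  · intro S hS
    have h2 := term_no (N.cut (keep N am hv s)) (a := a) hW h0 h1 hTa hTe hTj hT hm hj
      (x := x) (y := y) (q := q) (hkpos s) (cut_pq_le h s x y q) (S := S) (fun w => by
        rw [hwd w]
        exact hS w)
    rw [hpq] at h2
    linarith [hab.2]
  · intro w
    have hl0 := lig_nonneg h y q
    have hloss : 0 ≤ 72 / 71 * t0 * lig N am hv y q + t0 * K * (1 / 2) ^ b := by positivity
    have hmain : 79 / 80 * ((∑ m, N.wt x y q m * N.de y q m w) -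
        (72 / 71 * t0 * lig N am hv y q + t0 * K * (1 / 2) ^ b)) ≤
        (N.cut (keep N am hv s)).term (kap N am hv K s y q) t0 T m j q x y := by
      rcases lt_or_ge ((N.cut (keep N am hv s)).pq x y q / kap N am hv K s y q) t0 with h2 | h2
      · have h3 : N.pq x y q < t0 * kap N am hv K s y q := by
          rw [hpq, div_lt_iff₀ (hkpos s)] at h2
          exact h2
        have hSP : ∑ m, N.wt x y q m * N.de y q m w ≤ N.pq x y q := by
          rw [← N.wt_sum]
          exact sum_le_sum fun m _ => mul_le_of_le_one_right (N.wt_nonneg x y q m)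
            (N.de_le y m q w)
        have hPle : N.pq x y q ≤ 72 / 71 * t0 * lig N am hv y q + t0 * K * (1 / 2) ^ b := by
          rw [kap] at h3
          rcases Nat.lt_or_ge b s with hb | hb
          · have hsb : s = b + 1 := by omega
            rw [hsb, pow_succ] at h3
            have h5 : 0 ≤ t0 * lig N am hv y q := by positivity
            nlinarith
          · obtain ⟨m, hm1, hm2, hm3⟩ := hs4 hb
            have h5 : (1 / 2) ^ s < 2 * N.pq x y q := by
              have h6 : am m * N.be y m q ≤ 2 * N.al x m * N.be y m q :=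
                mul_le_mul_of_nonneg_right (h.le_al x m hm1 hm2) (N.be_nonneg y m q)
              have h7 : N.al x m * N.be y m q ≤ N.pq x y q :=
                single_le_sum (f := fun m => N.al x m * N.be y m q)
                  (fun m _ => mul_nonneg (N.al_nonneg x m) (N.be_nonneg y m q)) (mem_univ m)
              linarith
            have h8 : t0 * (2 * K * (1 / 2) ^ s) ≤ 1 / 72 * N.pq x y q := by
              have h9 : t0 * K = 1 / 288 := by
                rw [ht0]
                field_simp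
              calc t0 * (2 * K * (1 / 2) ^ s) = 2 * (t0 * K) * (1 / 2) ^ s := by ring
                _ = 1 / 144 * (1 / 2) ^ s := by rw [h9]; norm_num
                _ ≤ 1 / 144 * (2 * N.pq x y q) := mul_le_mul_of_nonneg_left h5.le (by norm_num)
                _ = _ := by ring
            have h10 : 0 ≤ t0 * K * (1 / 2) ^ b := by positivity
            rw [mul_add] at h3
            linarith
        have h4 := hτ0 s
        linarith
      · have h3 := term_yes (N.cut (keep N am hv s)) h0 h1 hT1 hTe hTj hT hm hj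
          (x := x) (y := y) (q := q) (hkpos s) h2 w
        rw [hwd w] at h3
        linarith
    linarith [hab.1]

/-- the main inequality for heavy and light transcripts -/
theorem hl_core {f : V n → V n → Bool} (hf : f = ip n ∨ f = fun x y => !ip n x y) {α β : ℝ}
    (hα : α ≤ 1) (hβ0 : 0 ≤ β) (hαβ : β + 1 / 6 ≤ α)
    (hsum : ∀ x y, ∑ q, N.pq x y q = 1)
    (hyes : ∀ x y, f x y = true → ∃ σ, α ≤ N.acc x y σ)
    (hno : ∀ x y, f x y = false → ∀ σ, N.acc x y σ ≤ β)
    (h : HL N am hv K) (hK : 1 ≤ K)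
    (hM : (Fintype.card M : ℝ) ≤ 2 ^ c) (hQ : (Fintype.card Q : ℝ) ≤ 2 ^ b)
    (hW : (Fintype.card W : ℝ) ≤ 2 ^ a)
    {T m j : ℕ} (hTa : 5184 * (a + 1) ≤ T) (hTe : Even (T - 1)) (hTj : 80 * T ≤ 2 ^ j)
    (hbj : 4000 * (b + 1) ≤ 2 ^ j) (hm : Odd m) (hj : Odd j) (hmK : 144 * K ≤ (m : ℝ) ^ 2) :
    4 / 100 * √((2 : ℝ) ^ n) ≤
      1 + 2 ^ b * ((b + 1) * (2 * (16 * 2 ^ (c + b)) ^ (m * j) *
      ((2 ^ (c + b)) ^ T * ((32 * 2 ^ (c + b)) ^ (m * j)) ^ (T - 1)))) := by
  obtain ⟨t0, ht0⟩ : ∃ t0 : ℝ, t0 = 1 / (288 * K) := ⟨_, rfl⟩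
  have hK0 : 0 < K := by linarith
  have h0 : 0 < t0 := by rw [ht0]; positivity
  have h1 : t0 ≤ 1 / 288 := by
    rw [ht0]
    apply one_div_le_one_div_of_le (by norm_num)
    linarith
  have hT : 2 ≤ tc m (cX t0) := by
    refine tcX_ge h0 (by linarith) ?_
    rw [ht0]
    have : 1 / (2 * (1 / (288 * K))) = 144 * K := by
      field_simp
      norm_num
    rw [this]
    exact hmK
  have hm1 : 1 ≤ m := hm.pos
  have hj1 : 1 ≤ j := hj.pos
  have hT1 : 1 ≤ T := by omega
  have hcor := cor_qt (c := c) (b := b) h hK hM hQ h0 (by linarith) hT1 hT hm1 hj1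
  have hmid : |(α + β) / 2| ≤ 1 := by
    rw [abs_of_nonneg (by linarith)]
    linarith
  have hδ : 2 * (1 / 2 : ℝ) ^ j * (b + 1) ≤ 1 / 2000 := by
    have h2 : (4000 : ℝ) * (b + 1) ≤ 2 ^ j := by exact_mod_cast hbj
    have h3 : (1 / 2 : ℝ) ^ j * 2 ^ j = 1 := by
      rw [← mul_pow]
      norm_num
    have h4 : (0 : ℝ) < (1 / 2) ^ j := by positivity
    nlinarith
  have hδ0 : 0 ≤ 2 * (1 / 2 : ℝ) ^ j * (b + 1) := by positivity
  have hb := fun x y q => qt_bounds (b := b) h hK hW ht0 hTa hTe hTj hT hm hj x y q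
  refine gap hf hmid hcor (fun x y hxy => ?_) (fun x y hxy => ?_)
  · obtain ⟨σ, hσ⟩ := hyes x y hxy
    have h2 := sum_le_sum fun q (_ : q ∈ univ) => (hb x y q).2 (σ q)
    have h3 : (∑ q, (2 * (1 / 2 : ℝ) ^ j * (b + 1) * (2 * N.pq x y q))) ≤ 1 / 1000 := by
      rw [← mul_sum, ← mul_sum, hsum]
      linarith
    rw [sum_sub_distrib, ← mul_sum, sum_sub_distrib, sum_add_distrib, ← mul_sum] at h2
    have h4 : ∑ q : Q, t0 * K * (1 / 2) ^ b ≤ 1 / 288 := by
      rw [sum_const, card_univ, nsmul_eq_mul]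
      have h9 : t0 * K = 1 / 288 := by
        rw [ht0]
        field_simp
      rw [h9]
      calc (Fintype.card Q : ℝ) * (1 / 288 * (1 / 2) ^ b) ≤ 2 ^ b * (1 / 288 * (1 / 2) ^ b) :=
            mul_le_mul_of_nonneg_right hQ (by positivity)
        _ = 1 / 288 * (2 * (1 / 2)) ^ b := by rw [mul_pow]; ring
        _ = 1 / 288 := by norm_num
    have h5 : 72 / 71 * t0 * ∑ q, lig N am hv y q ≤ 72 / 71 * (1 / 288) := by
      have h6 : ∑ q, lig N am hv y q ≤ K := h.light y
      calc 72 / 71 * t0 * ∑ q, lig N am hv y q ≤ 72 / 71 * t0 * K :=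
            mul_le_mul_of_nonneg_left h6 (by positivity)
        _ = 72 / 71 * (t0 * K) := by ring
        _ = _ := by
            rw [ht0]
            congr 1
            field_simp
    rw [Sys.acc] at hσ
    simp only [N.wt_de] at h2
    linarith
  · have hmax : ∀ q, ∃ w : W, ∀ w', ∑ m, N.wt x y q m * N.de y q m w' ≤
        ∑ m, N.wt x y q m * N.de y q m w := fun q =>
      Finite.exists_max (fun w => ∑ m, N.wt x y q m * N.de y q m w)
    choose σ hσ using hmax
    have h2 := sum_le_sum fun q (_ : q ∈ univ) => (hb x y q).1 _ (hσ q)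
    rw [sum_add_distrib, ← mul_sum, sum_add_distrib, ← mul_sum, ← mul_sum, ← mul_sum, ← mul_sum,
      hsum] at h2
    have h5 := hno x y hxy σ
    rw [Sys.acc] at h5
    simp only [N.wt_de] at h2
    linarith

end ip

end Pool.Agent.Helper60.OI
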