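import Pool.Agent.Helper60.OI.HL

/-!
Transcripts of two-way protocols; the weights of a two-way protocol with Merlin.
-/

set_option autoImplicit false

namespace Pool.Agent.Helper60.OI

open Finset Pool.Agent.Helper79.NZ

/-- the leaves of a protocol tree with two weights: `u m` is `1/2` to the number of bits sent by
Bob, `v m` is `1/2` to the number of bits sent by Alice -/
theorem exists_leaves {A B O : Type} (P : Proto A B O) : ∃ (M : Type) (_ : Fintype M)
    (α : M → A → ℝ) (β : M → B → ℝ) (o : M → B → O) (u v : M → ℝ),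
    Fintype.card M ≤ 2 ^ P.depth ∧ (∀ m a, 0 ≤ α m a) ∧ (∀ m a, α m a ≤ 1) ∧
    (∀ m b, 0 ≤ β m b) ∧ (∀ m b, β m b ≤ 1) ∧
    (∀ a b (Φ : O → ℝ), ∑ m, α m a * (β m b * Φ (o m b)) = Φ (P.run a b)) ∧
    (∀ m, 0 < u m) ∧ (∀ m, u m ≤ 1) ∧ (∀ m, 0 < v m) ∧ (∀ m, v m ≤ 1) ∧
    (∀ m, (1 / 2) ^ P.depth ≤ u m * v m) ∧ (∀ a, ∑ m, α m a * u m = 1) ∧
    (∀ b, ∑ m, β m b * v m = 1) ∧ (∀ m, (1 / 2) ^ aBits P ≤ v m) := by
  induction P with
  | out g =>
    refine ⟨Unit, inferInstance, fun _ _ => 1, fun _ _ => 1, fun _ => g, fun _ => 1, fun _ => 1,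
      ?_, fun _ _ => zero_le_one,
      fun _ _ => le_rfl, fun _ _ => zero_le_one, fun _ _ => le_rfl, fun a b Φ => ?_,
      fun _ => one_pos, fun _ => le_rfl, fun _ => one_pos, fun _ => le_rfl, ?_, ?_, ?_, ?_⟩
    · simp [Proto.depth]
    · simp [Proto.run]
    · simp [Proto.depth]
    · simp
    · simp
    · simp [aBits]
  | alice f p q ihp ihq =>
    obtain ⟨M1, _, α1, β1, o1, u1, v1, hc1, ha1, ha1', hb1, hb1', h1, hu1, hu1', hv1, hv1', huv1,
      hsu1, hsv1, hav1⟩ := ihp
    obtain ⟨M2, _, α2, β2, o2, u2, v2, hc2, ha2, ha2', hb2, hb2', h2, hu2, hu2', hv2, hv2', huv2,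
      hsu2, hsv2, hav2⟩ := ihq
    have e1 : (2 : ℕ) ^ p.depth ≤ 2 ^ max p.depth q.depth :=
      Nat.pow_le_pow_right (by norm_num) (le_max_left _ _)
    have e2 : (2 : ℕ) ^ q.depth ≤ 2 ^ max p.depth q.depth :=
      Nat.pow_le_pow_right (by norm_num) (le_max_right _ _)
    have e3 : (Proto.alice f p q).depth = max p.depth q.depth + 1 := rfl
    have e4 : (1 / 2 : ℝ) ^ max p.depth q.depth ≤ (1 / 2) ^ p.depth :=
      pow_le_pow_of_le_one (by norm_num) (by norm_num) (le_max_left _ _)
    have e5 : (1 / 2 : ℝ) ^ max p.depth q.depth ≤ (1 / 2) ^ q.depth :=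
      pow_le_pow_of_le_one (by norm_num) (by norm_num) (le_max_right _ _)
    refine ⟨M1 ⊕ M2, inferInstance,
      fun m a => Sum.elim (fun m => if f a = true then 0 else α1 m a)
        (fun m => if f a = true then α2 m a else 0) m,
      fun m b => Sum.elim (fun m => β1 m b) (fun m => β2 m b) m,
      fun m b => Sum.elim (fun m => o1 m b) (fun m => o2 m b) m,
      fun m => Sum.elim (fun m => u1 m) (fun m => u2 m) m,
      fun m => Sum.elim (fun m => v1 m / 2) (fun m => v2 m / 2) m,
      ?_, ?_, ?_, ?_, ?_, ?_, ?_, ?_, ?_, ?_, ?_, ?_, ?_, ?_⟩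
    · rw [Fintype.card_sum, e3, pow_succ]
      omega
    · rintro (m | m) a <;> dsimp only [Sum.elim_inl, Sum.elim_inr] <;> split_ifs <;>
        simp [ha1, ha2]
    · rintro (m | m) a <;> dsimp only [Sum.elim_inl, Sum.elim_inr] <;> split_ifs <;>
        simp [ha1', ha2']
    · rintro (m | m) b
      exacts [hb1 m b, hb2 m b]
    · rintro (m | m) b
      exacts [hb1' m b, hb2' m b]
    · intro a b Φ
      rw [Fintype.sum_sum_type]
      simp only [Sum.elim_inl, Sum.elim_inr]
      by_cases h : f a = true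
      · simp only [h, if_true, zero_mul, sum_const_zero, zero_add, h2]
        simp [Proto.run, h]
      · rw [Bool.not_eq_true] at h
        simp only [h, Bool.false_eq_true, if_false, zero_mul, sum_const_zero, add_zero, h1]
        simp [Proto.run, h]
    · rintro (m | m)
      exacts [hu1 m, hu2 m]
    · rintro (m | m)
      exacts [hu1' m, hu2' m]
    · rintro (m | m)
      exacts [half_pos (hv1 m), half_pos (hv2 m)]
    · rintro (m | m) <;> dsimp only [Sum.elim_inl, Sum.elim_inr]
      · linarith [hv1' m, hv1 m]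
      · linarith [hv2' m, hv2 m]
    · rintro (m | m) <;> dsimp only [Sum.elim_inl, Sum.elim_inr] <;> rw [e3, pow_succ]
      · linarith [huv1 m]
      · linarith [huv2 m]
    · intro a
      rw [Fintype.sum_sum_type]
      simp only [Sum.elim_inl, Sum.elim_inr]
      by_cases h : f a = true
      · simp only [h, if_true, zero_mul, sum_const_zero, zero_add, hsu2]
      · rw [Bool.not_eq_true] at h
        simp only [h, Bool.false_eq_true, if_false, zero_mul, sum_const_zero, add_zero, hsu1]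
    · intro b
      rw [Fintype.sum_sum_type]
      simp only [Sum.elim_inl, Sum.elim_inr]
      have e6 : ∑ m, β1 m b * (v1 m / 2) = 1 / 2 := by
        rw [← hsv1 b, sum_div]
        exact sum_congr rfl fun m _ => by ring
      have e7 : ∑ m, β2 m b * (v2 m / 2) = 1 / 2 := by
        rw [← hsv2 b, sum_div]
        exact sum_congr rfl fun m _ => by ring
      rw [e6, e7]
      norm_num
    · have e8 : (1 / 2 : ℝ) ^ max (aBits p) (aBits q) ≤ (1 / 2) ^ aBits p :=
        pow_le_pow_of_le_one (by norm_num) (by norm_num) (le_max_left _ _)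
      have e9 : (1 / 2 : ℝ) ^ max (aBits p) (aBits q) ≤ (1 / 2) ^ aBits q :=
        pow_le_pow_of_le_one (by norm_num) (by norm_num) (le_max_right _ _)
      rintro (m | m) <;> dsimp only [Sum.elim_inl, Sum.elim_inr] <;> rw [aBits, pow_succ]
      · linarith [hav1 m]
      · linarith [hav2 m]
  | bob f p q ihp ihq =>
    obtain ⟨M1, _, α1, β1, o1, u1, v1, hc1, ha1, ha1', hb1, hb1', h1, hu1, hu1', hv1, hv1', huv1,
      hsu1, hsv1, hav1⟩ := ihp
    obtain ⟨M2, _, α2, β2, o2, u2, v2, hc2, ha2, ha2', hb2, hb2', h2, hu2, hu2', hv2, hv2', huv2,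
      hsu2, hsv2, hav2⟩ := ihq
    have e1 : (2 : ℕ) ^ p.depth ≤ 2 ^ max p.depth q.depth :=
      Nat.pow_le_pow_right (by norm_num) (le_max_left _ _)
    have e2 : (2 : ℕ) ^ q.depth ≤ 2 ^ max p.depth q.depth :=
      Nat.pow_le_pow_right (by norm_num) (le_max_right _ _)
    have e3 : (Proto.bob f p q).depth = max p.depth q.depth + 1 := rfl
    have e4 : (1 / 2 : ℝ) ^ max p.depth q.depth ≤ (1 / 2) ^ p.depth :=
      pow_le_pow_of_le_one (by norm_num) (by norm_num) (le_max_left _ _)
    have e5 : (1 / 2 : ℝ) ^ max p.depth q.depth ≤ (1 / 2) ^ q.depth :=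
      pow_le_pow_of_le_one (by norm_num) (by norm_num) (le_max_right _ _)
    refine ⟨M1 ⊕ M2, inferInstance,
      fun m a => Sum.elim (fun m => α1 m a) (fun m => α2 m a) m,
      fun m b => Sum.elim (fun m => if f b = true then 0 else β1 m b)
        (fun m => if f b = true then β2 m b else 0) m,
      fun m b => Sum.elim (fun m => o1 m b) (fun m => o2 m b) m,
      fun m => Sum.elim (fun m => u1 m / 2) (fun m => u2 m / 2) m,
      fun m => Sum.elim (fun m => v1 m) (fun m => v2 m) m,
      ?_, ?_, ?_, ?_, ?_, ?_, ?_, ?_, ?_, ?_, ?_, ?_, ?_, ?_⟩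
    · rw [Fintype.card_sum, e3, pow_succ]
      omega
    · rintro (m | m) a
      exacts [ha1 m a, ha2 m a]
    · rintro (m | m) a
      exacts [ha1' m a, ha2' m a]
    · rintro (m | m) b <;> dsimp only [Sum.elim_inl, Sum.elim_inr] <;> split_ifs <;>
        simp [hb1, hb2]
    · rintro (m | m) b <;> dsimp only [Sum.elim_inl, Sum.elim_inr] <;> split_ifs <;>
        simp [hb1', hb2']
    · intro a b Φ
      rw [Fintype.sum_sum_type]
      simp only [Sum.elim_inl, Sum.elim_inr]
      by_cases h : f b = true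
      · simp only [h, if_true, zero_mul, mul_zero, sum_const_zero, zero_add, h2]
        simp [Proto.run, h]
      · rw [Bool.not_eq_true] at h
        simp only [h, Bool.false_eq_true, if_false, zero_mul, mul_zero, sum_const_zero, add_zero,
          h1]
        simp [Proto.run, h]
    · rintro (m | m)
      exacts [half_pos (hu1 m), half_pos (hu2 m)]
    · rintro (m | m) <;> dsimp only [Sum.elim_inl, Sum.elim_inr]
      · linarith [hu1' m, hu1 m]
      · linarith [hu2' m, hu2 m]
    · rintro (m | m)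
      exacts [hv1 m, hv2 m]
    · rintro (m | m)
      exacts [hv1' m, hv2' m]
    · rintro (m | m) <;> dsimp only [Sum.elim_inl, Sum.elim_inr] <;> rw [e3, pow_succ]
      · linarith [huv1 m]
      · linarith [huv2 m]
    · intro a
      rw [Fintype.sum_sum_type]
      simp only [Sum.elim_inl, Sum.elim_inr]
      have e6 : ∑ m, α1 m a * (u1 m / 2) = 1 / 2 := by
        rw [← hsu1 a, sum_div]
        exact sum_congr rfl fun m _ => by ring
      have e7 : ∑ m, α2 m a * (u2 m / 2) = 1 / 2 := by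
        rw [← hsu2 a, sum_div]
        exact sum_congr rfl fun m _ => by ring
      rw [e6, e7]
      norm_num
    · intro b
      rw [Fintype.sum_sum_type]
      simp only [Sum.elim_inl, Sum.elim_inr]
      by_cases h : f b = true
      · simp only [h, if_true, zero_mul, sum_const_zero, zero_add, hsv2]
      · rw [Bool.not_eq_true] at h
        simp only [h, Bool.false_eq_true, if_false, zero_mul, sum_const_zero, add_zero, hsv1]
    · have e8 : (1 / 2 : ℝ) ^ max (aBits p) (aBits q) ≤ (1 / 2) ^ aBits p :=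
        pow_le_pow_of_le_one (by norm_num) (by norm_num) (le_max_left _ _)
      have e9 : (1 / 2 : ℝ) ^ max (aBits p) (aBits q) ≤ (1 / 2) ^ aBits q :=
        pow_le_pow_of_le_one (by norm_num) (by norm_num) (le_max_right _ _)
      rintro (m | m) <;> dsimp only [Sum.elim_inl, Sum.elim_inr] <;> rw [aBits]
      · linarith [hav1 m]
      · linarith [hav2 m]

variable {X Y : Type} {c e b a : ℕ}

/-- the weights of a two-way protocol with Merlin -/
theorem exists_sysw (N : Tip X Y c e b a) : ∃ (M : Type) (_ : Fintype M)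
    (S : Sys X Y M (Fin b → Bool) (Fin a → Bool)) (u v : M → ℝ),
    (Fintype.card M : ℝ) ≤ 2 ^ c ∧ (∀ x y q, S.pq x y q = N.pq x y q) ∧
    (∀ x y σ, S.acc x y σ = N.acc x y σ) ∧
    (∀ m, 0 < u m) ∧ (∀ m, u m ≤ 1) ∧ (∀ m, 0 < v m) ∧ (∀ m, v m ≤ 1) ∧
    (∀ m, (1 / 2) ^ c ≤ u m * v m) ∧ (∀ x, ∑ m, S.al x m * u m = 1) ∧
    (∀ y, ∑ q, ∑ m, v m * S.be y m q = 1) ∧ (∀ m, (1 / 2) ^ e ≤ v m) := by
  obtain ⟨M, _, α, β, o, u, v, hc, ha, ha', hb, hb', h, hu0, hu1, hv0, hv1, huv, hsu, hsv,
    hav⟩ := exists_leaves N.P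
  have hcond : ∀ (x : X) (y : Y) (Φ : (Fin b → Bool) × ((Fin a → Bool) → Bool) → ℝ),
      ∑ m, (∑ r, N.μ r * α m (x, r)) * (∑ s, N.ν s * (β m (y, s) * Φ (o m (y, s)))) =
        ∑ r, ∑ s, N.μ r * N.ν s * Φ (N.P.run (x, r) (y, s)) := by
    intro x y Φ
    have h1 : ∀ m, (∑ r, N.μ r * α m (x, r)) * (∑ s, N.ν s * (β m (y, s) * Φ (o m (y, s)))) =
        ∑ r, ∑ s, N.μ r * N.ν s * (α m (x, r) * (β m (y, s) * Φ (o m (y, s)))) := by
      intro m
      rw [sum_mul_sum]
      exact sum_congr rfl fun r _ => sum_congr rfl fun s _ => by ring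
    simp only [h1]
    rw [sum_comm]
    refine sum_congr rfl fun r _ => ?_
    rw [sum_comm]
    refine sum_congr rfl fun s _ => ?_
    rw [← mul_sum, h]
  classical
  refine ⟨M, inferInstance,
    { al := fun x m => ∑ r, N.μ r * α m (x, r)
      be := fun y m q => ∑ s, N.ν s * (β m (y, s) * if (o m (y, s)).1 = q then 1 else 0)
      ga := fun y m q w => ∑ s, N.ν s *
        (β m (y, s) * if (o m (y, s)).1 = q ∧ (o m (y, s)).2 w = true then 1 else 0)
      al_nonneg := fun x m => sum_nonneg fun r _ => mul_nonneg (N.μ_nonneg r) (ha m _)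
      al_le := fun x m => ?_
      be_le := fun y m q => ?_
      ga_nonneg := fun y m q w => sum_nonneg fun s _ => mul_nonneg (N.ν_nonneg s)
        (mul_nonneg (hb m _) (by split_ifs <;> norm_num))
      ga_le := fun y m q w => sum_le_sum fun s _ => mul_le_mul_of_nonneg_left
        (mul_le_mul_of_nonneg_left ?_ (hb m _)) (N.ν_nonneg s)
      be_nonneg := fun y m q => sum_nonneg fun s _ => mul_nonneg (N.ν_nonneg s)
        (mul_nonneg (hb m _) (by split_ifs <;> norm_num)) }, u, v, ?_, ?_, ?_, hu0, hu1, hv0, hv1,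
      ?_, ?_, ?_, ?_⟩
  · rw [← N.μ_sum]
    exact sum_le_sum fun r _ => mul_le_of_le_one_right (N.μ_nonneg r) (ha' m _)
  · refine le_trans (sum_le_sum fun r _ => mul_le_of_le_one_right (N.ν_nonneg r) ?_)
      N.ν_sum.le
    refine mul_le_one₀ (hb' m _) (by split_ifs <;> norm_num) (by split_ifs <;> norm_num)
  · by_cases h1 : (o m (y, s)).1 = q
    · simp only [h1, true_and, if_true]
      split_ifs <;> norm_num
    · simp [h1]
  · have h1 : (Fintype.card M : ℝ) ≤ 2 ^ N.P.depth := by exact_mod_cast hc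
    exact h1.trans (pow_le_pow_right₀ (by norm_num) N.depth_le)
  · intro x y q
    have h1 := hcond x y (fun z => if z.1 = q then 1 else 0)
    rw [Sys.pq, Tip.pq]
    refine h1.trans (sum_congr rfl fun r _ => sum_congr rfl fun s _ => ?_)
    split_ifs <;> simp
  · intro x y σ
    rw [Sys.acc, Tip.acc]
    have h1 : ∀ q, ∑ m, (∑ r, N.μ r * α m (x, r)) * (∑ s, N.ν s *
        (β m (y, s) * if (o m (y, s)).1 = q ∧ (o m (y, s)).2 (σ q) = true then (1 : ℝ) else 0)) =
        ∑ r, ∑ s, N.μ r * N.ν s * (if (N.P.run (x, r) (y, s)).1 = q ∧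
          (N.P.run (x, r) (y, s)).2 (σ q) = true then (1 : ℝ) else 0) :=
      fun q => hcond x y (fun z => if z.1 = q ∧ z.2 (σ q) = true then 1 else 0)
    refine (sum_congr rfl fun q _ => h1 q).trans ?_
    rw [sum_comm]
    refine sum_congr rfl fun r _ => ?_
    rw [sum_comm]
    refine sum_congr rfl fun s _ => ?_
    have h2 : ∀ q, N.μ r * N.ν s * (if (N.P.run (x, r) (y, s)).1 = q ∧
          (N.P.run (x, r) (y, s)).2 (σ q) = true then (1 : ℝ) else 0) =
        if (N.P.run (x, r) (y, s)).1 = q then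
          (if (N.P.run (x, r) (y, s)).2 (σ (N.P.run (x, r) (y, s)).1) = true then
            N.μ r * N.ν s else 0) else 0 := by
      intro q
      by_cases h3 : (N.P.run (x, r) (y, s)).1 = q
      · subst h3
        simp
      · simp [h3]
    rw [sum_congr rfl fun q _ => h2 q, sum_ite_eq]
    simp
  · intro m
    exact (pow_le_pow_of_le_one (by norm_num) (by norm_num) N.depth_le).trans (huv m)
  · intro x
    simp only [sum_mul]
    rw [sum_comm]
    have h1 : ∀ r, ∑ m, N.μ r * α m (x, r) * u m = N.μ r := by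
      intro r
      have h2 : ∑ m, N.μ r * α m (x, r) * u m = N.μ r * ∑ m, α m (x, r) * u m := by
        rw [mul_sum]
        exact sum_congr rfl fun m _ => by ring
      rw [h2, hsu (x, r), mul_one]
    simp only [h1]
    exact N.μ_sum
  · intro y
    rw [sum_comm]
    have h1 : ∀ m, ∑ q : Fin b → Bool, v m * (∑ s, N.ν s *
        (β m (y, s) * if (o m (y, s)).1 = q then (1 : ℝ) else 0)) =
        ∑ s, N.ν s * (β m (y, s) * v m) := by
      intro m
      rw [← mul_sum, sum_comm, mul_sum]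
      refine sum_congr rfl fun s _ => ?_
      rw [← mul_sum, ← mul_sum, sum_ite_eq]
      simp only [mem_univ, if_true, mul_one]
      ring
    refine (sum_congr rfl fun m _ => h1 m).trans ?_
    rw [sum_comm]
    simp only [← mul_sum, hsv, mul_one]
    exact N.ν_sum
  · intro m
    exact (pow_le_pow_of_le_one (by norm_num) (by norm_num) N.aBits_le).trans (hav m)

/-- the weights of a two-way protocol with Merlin -/
theorem exists_sys (N : Tip X Y c e b a) : ∃ (M : Type) (_ : Fintype M)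
    (S : Sys X Y M (Fin b → Bool) (Fin a → Bool)),
    (Fintype.card M : ℝ) ≤ 2 ^ c ∧ (∀ x y q, S.pq x y q = N.pq x y q) ∧
    (∀ x y σ, S.acc x y σ = N.acc x y σ) ∧ (∀ y, ∑ q, ∑ m, S.be y m q ≤ 2 ^ e) := by
  obtain ⟨M, i, S, u, v, h1, h2, h3, -, -, -, -, -, -, h4, h5⟩ := exists_sysw N
  refine ⟨M, i, S, h1, h2, h3, fun y => ?_⟩
  have h6 : ∑ q, ∑ m, S.be y m q ≤ ∑ q, ∑ m, 2 ^ e * (v m * S.be y m q) := by
    refine sum_le_sum fun q _ => sum_le_sum fun m _ => ?_
    have h7 := mul_le_mul_of_nonneg_right (h5 m) (S.be_nonneg y m q)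
    have h8 := mul_le_mul_of_nonneg_left h7 (by positivity : (0 : ℝ) ≤ 2 ^ e)
    have h9 : (2 : ℝ) ^ e * ((1 / 2) ^ e * S.be y m q) = S.be y m q := by
      rw [← mul_assoc, ← mul_pow]
      norm_num
    rw [h9] at h8
    exact h8
  refine h6.trans (le_of_eq ?_)
  simp only [← mul_sum]
  rw [h4 y, mul_one]

end Pool.Agent.Helper60.OI
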